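import Mathlib
import Pool.Agent.Q1.M3.Defs

set_option autoImplicit false
open Finset

/-! # M3, B5: paths in a chain of fat cells avoid a small box -/

namespace Pool.Agent.H42.Q1

open Pool.Agent.H75.Perc Pool.Agent.H75.TwoArm Pool.Agent.H75.Four Pool.Agent.H69.Q1
open Pool.Agent.Q1.M3
open Pool.Agent.H81.Q1 (pt)

lemma ends_add {u v : ℤ × ℤ} (h : IsUnit4 (v - u)) :
    ((u + v).1 + (u + v).2) % 2 = 1 ∧
      ((eu (u + v) = u ∧ ev (u + v) = v) ∨ (eu (u + v) = v ∧ ev (u + v) = u)) := by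
  obtain ⟨a, b⟩ := u
  obtain ⟨c, d⟩ := v
  unfold IsUnit4 at h
  simp only [Prod.mk_sub_mk, Prod.mk.injEq] at h
  simp only [eu, ev, Prod.mk_add_mk, Prod.mk.injEq]
  omega

lemma co_step {K : Finset (ℤ × ℤ)} {u v : ℤ × ℤ} (hu : u ∈ K) (hv : v ∈ K)
    (h : IsUnit4 (v - u)) : Co (kap K) u v := by
  refine Relation.ReflTransGen.single ⟨h, ?_⟩
  obtain ⟨h1, h2⟩ := ends_add h
  rw [mem_kap_iff h1]
  rcases h2 with ⟨h3, h4⟩ | ⟨h3, h4⟩ <;> rw [h3, h4]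
  · exact ⟨hu, hv⟩
  · exact ⟨hv, hu⟩

lemma co_row {K : Finset (ℤ × ℤ)} (y : ℤ) : ∀ (n : ℕ) (x : ℤ),
    (∀ t : ℤ, x ≤ t → t ≤ x + n → (t, y) ∈ K) → Co (kap K) (x, y) (x + n, y) := by
  intro n
  induction n with
  | zero => intro x _; simp only [Nat.cast_zero, add_zero]; exact Co.refl _ _
  | succ n ih =>
    intro x h
    refine (ih x fun t h1 h2 => h t h1 (by push_cast; omega)).trans ?_
    refine co_step (h _ (by omega) (by push_cast; omega)) (h _ (by omega) (by omega)) (Or.inl ?_)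
    simp only [Prod.mk_sub_mk, Prod.mk.injEq]
    push_cast; omega

lemma co_col {K : Finset (ℤ × ℤ)} (x : ℤ) : ∀ (n : ℕ) (y : ℤ),
    (∀ t : ℤ, y ≤ t → t ≤ y + n → (x, t) ∈ K) → Co (kap K) (x, y) (x, y + n) := by
  intro n
  induction n with
  | zero => intro y _; simp only [Nat.cast_zero, add_zero]; exact Co.refl _ _
  | succ n ih =>
    intro y h
    refine (ih y fun t h1 h2 => h t h1 (by push_cast; omega)).trans ?_
    refine co_step (h _ (by omega) (by push_cast; omega)) (h _ (by omega) (by omega))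
      (Or.inr (Or.inl ?_))
    simp only [Prod.mk_sub_mk, Prod.mk.injEq]
    push_cast; omega

lemma co_row' {K : Finset (ℤ × ℤ)} {y x x' : ℤ}
    (h : ∀ t : ℤ, min x x' ≤ t → t ≤ max x x' → (t, y) ∈ K) : Co (kap K) (x, y) (x', y) := by
  rcases le_total x x' with h1 | h1
  · rw [min_eq_left h1, max_eq_right h1] at h
    have h2 := co_row (K := K) y (x' - x).toNat x fun t h3 h4 => h t h3 (by omega)
    have h3 : x + ((x' - x).toNat : ℤ) = x' := by omega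
    rwa [h3] at h2
  · rw [min_eq_right h1, max_eq_left h1] at h
    have h2 := co_row (K := K) y (x - x').toNat x' fun t h3 h4 => h t h3 (by omega)
    have h3 : x' + ((x - x').toNat : ℤ) = x := by omega
    rw [h3] at h2
    exact h2.symm

lemma co_col' {K : Finset (ℤ × ℤ)} {x y y' : ℤ}
    (h : ∀ t : ℤ, min y y' ≤ t → t ≤ max y y' → (x, t) ∈ K) : Co (kap K) (x, y) (x, y') := by
  rcases le_total y y' with h1 | h1
  · rw [min_eq_left h1, max_eq_right h1] at h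
    have h2 := co_col (K := K) x (y' - y).toNat y fun t h3 h4 => h t h3 (by omega)
    have h3 : y + ((y' - y).toNat : ℤ) = y' := by omega
    rwa [h3] at h2
  · rw [min_eq_right h1, max_eq_left h1] at h
    have h2 := co_col (K := K) x (y - y').toNat y' fun t h3 h4 => h t h3 (by omega)
    have h3 : y' + ((y - y').toNat : ℤ) = y := by omega
    rw [h3] at h2
    exact h2.symm

/-- Integer rectangle. -/
def RB (a b c d : ℤ) (v : ℤ × ℤ) : Prop := a ≤ v.1 ∧ v.1 ≤ b ∧ c ≤ v.2 ∧ v.2 ≤ d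

/-- **A rectangle minus a box which spans in no direction is connected.** -/
theorem rect_minus {K : Finset (ℤ × ℤ)} {a b c d a' b' c' d' : ℤ} (hx : b' - a' < b - a)
    (hy : d' - c' < d - c) (hK : ∀ v, RB a b c d v → ¬RB a' b' c' d' v → v ∈ K) {u w : ℤ × ℤ}
    (hu : RB a b c d u) (hu' : ¬RB a' b' c' d' u) (hw : RB a b c d w)
    (hw' : ¬RB a' b' c' d' w) : Co (kap K) u w := by
  -- a free column and a free row
  obtain ⟨x0, hx0, hx1⟩ : ∃ x0, (a ≤ x0 ∧ x0 ≤ b) ∧ (x0 < a' ∨ b' < x0) := by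
    by_cases h : a < a'
    · exact ⟨a, ⟨le_rfl, hu.1.trans hu.2.1⟩, Or.inl h⟩
    · exact ⟨b, ⟨hu.1.trans hu.2.1, le_rfl⟩, Or.inr (by omega)⟩
  obtain ⟨y0, hy0, hy1⟩ : ∃ y0, (c ≤ y0 ∧ y0 ≤ d) ∧ (y0 < c' ∨ d' < y0) := by
    by_cases h : c < c'
    · exact ⟨c, ⟨le_rfl, hu.2.2.1.trans hu.2.2.2⟩, Or.inl h⟩
    · exact ⟨d, ⟨hu.2.2.1.trans hu.2.2.2, le_rfl⟩, Or.inr (by omega)⟩
  have colK : ∀ t, c ≤ t → t ≤ d → (x0, t) ∈ K := fun t h1 h2 =>
    hK _ ⟨hx0.1, hx0.2, h1, h2⟩ (by rintro ⟨h3, h4, -, -⟩; simp only at h3 h4; omega)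
  have rowK : ∀ t, a ≤ t → t ≤ b → (t, y0) ∈ K := fun t h1 h2 =>
    hK _ ⟨h1, h2, hy0.1, hy0.2⟩ (by rintro ⟨-, -, h3, h4⟩; simp only at h3 h4; omega)
  have key : ∀ v, RB a b c d v → ¬RB a' b' c' d' v → Co (kap K) v (x0, y0) := by
    rintro ⟨x, y⟩ ⟨h1, h2, h3, h4⟩ hv'
    simp only at h1 h2 h3 h4
    by_cases hrow : y < c' ∨ d' < y
    · refine (co_row' (x' := x0) fun t h5 h6 => hK _ ⟨?_, ?_, h3, h4⟩ ?_).trans
        (co_col' fun t h5 h6 => colK t ?_ ?_)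
      · simp only; omega
      · simp only; omega
      · rintro ⟨-, -, h7, h8⟩; simp only at h7 h8; omega
      · omega
      · omega
    · have hcol : x < a' ∨ b' < x := by
        by_contra hcon
        exact hv' ⟨by simp only; omega, by simp only; omega, by simp only; omega,
          by simp only; omega⟩
      refine (co_col' (y' := y0) fun t h5 h6 => hK _ ⟨h1, h2, ?_, ?_⟩ ?_).trans
        (co_row' fun t h5 h6 => rowK t ?_ ?_)
      · simp only; omega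
      · simp only; omega
      · rintro ⟨h7, h8, -, -⟩; simp only at h7 h8; omega
      · omega
      · omega
  exact (key u hu hu').trans (key w hw hw').symm

/-! ### cells -/

lemma mesh_eq {k l : ℕ} (h : l ≤ k) : mesh l = 3 ^ (k - l) * mesh k := by
  unfold mesh
  obtain ⟨m, rfl⟩ := Nat.exists_eq_add_of_le h
  rw [Nat.add_sub_cancel_left, pow_add]
  have : (3 : ℝ) ^ m * ((1 / 3) ^ l * (1 / 3) ^ m) = (1 / 3) ^ l * ((3 * (1 / 3)) ^ m) := by
    rw [mul_pow]; ring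
  rw [this]; norm_num

lemma mesh_succ (k : ℕ) : mesh k = 3 * mesh (k + 1) := by
  unfold mesh; rw [pow_succ]; ring

/-- Overlaps of intersecting intervals of the grids. -/
lemma overlap {k l l' : ℕ} (hl : l ≤ k) (hl' : l' ≤ k) {i i' : ℤ} {x o : ℝ}
    (h1 : o + (i - 1 / 3) * mesh l < x) (h2 : x < o + (i + 4 / 3) * mesh l)
    (h3 : o + (i' - 1 / 3) * mesh l' < x) (h4 : x < o + (i' + 4 / 3) * mesh l') :
    max (o + (i - 1 / 3) * mesh l) (o + (i' - 1 / 3) * mesh l') + mesh (k + 1) ≤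
      min (o + (i + 4 / 3) * mesh l) (o + (i' + 4 / 3) * mesh l') := by
  have hm := mesh_pos (k + 1)
  have key : ∀ (A B : ℤ), o + A * mesh (k + 1) < x → x < o + B * mesh (k + 1) →
      o + A * mesh (k + 1) + mesh (k + 1) ≤ o + B * mesh (k + 1) := by
    intro A B hA hB
    have h5 : (A : ℝ) * mesh (k + 1) < B * mesh (k + 1) := by linarith
    have h6 : (A : ℝ) < B := lt_of_mul_lt_mul_right h5 hm.le
    have h7 : A + 1 ≤ B := by exact_mod_cast h6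
    have h8 : ((A : ℝ) + 1) ≤ B := by exact_mod_cast h7
    nlinarith
  have e : ∀ (l : ℕ), l ≤ k → ∀ j : ℤ, (∃ A : ℤ, o + (j - 1 / 3) * mesh l = o + A * mesh (k + 1)) ∧
      ∃ B : ℤ, o + (j + 4 / 3) * mesh l = o + B * mesh (k + 1) := by
    intro l hl j
    constructor
    · refine ⟨(3 * j - 1) * 3 ^ (k - l), ?_⟩
      rw [mesh_eq hl, mesh_succ k]; push_cast; ring
    · refine ⟨(3 * j + 4) * 3 ^ (k - l), ?_⟩
      rw [mesh_eq hl, mesh_succ k]; push_cast; ring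
  obtain ⟨⟨A, hA⟩, B, hB⟩ := e l hl i
  obtain ⟨⟨A', hA'⟩, B', hB'⟩ := e l' hl' i'
  rw [hA] at h1 ⊢
  rw [hB] at h2 ⊢
  rw [hA'] at h3 ⊢
  rw [hB'] at h4 ⊢
  rw [max_add, le_min_iff, max_le_iff, max_le_iff]
  exact ⟨⟨key _ _ h1 h2, key _ _ h3 h2⟩, key _ _ h1 h4, key _ _ h3 h4⟩

/-- Vertices of a family of cells. -/
lemma mem_verts_iff {δ : ℝ} {o : ℂ} {q : Cell} {v : ℤ × ℤ} : v ∈ verts δ o q ↔
    RB (⌊(o.re + (q.2.1 - 1 / 3) * mesh q.1) / δ⌋ + 1) (⌈(o.re + (q.2.1 + 4 / 3) * mesh q.1) / δ⌉ - 1)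
      (⌊(o.im + (q.2.2 - 1 / 3) * mesh q.1) / δ⌋ + 1)
      (⌈(o.im + (q.2.2 + 4 / 3) * mesh q.1) / δ⌉ - 1) v := by
  unfold verts RB
  simp only [mem_product, mem_Ioo]
  constructor
  · rintro ⟨⟨h1, h2⟩, h3, h4⟩; exact ⟨by omega, by omega, by omega, by omega⟩
  · rintro ⟨h1, h2, h3, h4⟩; exact ⟨⟨by omega, by omega⟩, by omega, by omega⟩

lemma side_le {δ : ℝ} (hδ : 0 < δ) {s t ℓ : ℝ} {n : ℤ} (h : s + ℓ ≤ t) (hn : (n : ℝ) + 2 < ℓ / δ) :
    n < (⌈t / δ⌉ - 1) - (⌊s / δ⌋ + 1) := by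
  have h1 := Int.le_ceil (t / δ)
  have h2 := Int.floor_le (s / δ)
  have h3 : s / δ + ℓ / δ ≤ t / δ := by rw [← add_div]; exact div_le_div_of_nonneg_right h hδ.le
  have h4 : ((n : ℝ)) < (⌈t / δ⌉ - 1) - (⌊s / δ⌋ + 1) := by linarith
  exact_mod_cast h4

/-- **Routing.** In a connected family of fat cells of levels `≤ k` any two vertices outside a small box
are joined outside the box. -/
theorem route {δ : ℝ} (hδ : 0 < δ) {o : ℂ} {k : ℕ} (hδk : δ < mesh (k + 1)) {C : Finset Cell}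
    (hC : ∀ q ∈ C, q.1 ≤ k)
    {K : Finset (ℤ × ℤ)} {a' b' c' d' : ℤ} (hx : ((b' - a' : ℤ) : ℝ) + 2 < mesh (k + 1) / δ)
    (hy : ((d' - c' : ℤ) : ℝ) + 2 < mesh (k + 1) / δ)
    (hK : ∀ q ∈ C, ∀ v ∈ verts δ o q, ¬RB a' b' c' d' v → v ∈ K) {q q' : Cell}
    (hqC : q ∈ C) (hqq : Relation.ReflTransGen (fun x y => AdjC o x y ∧ x ∈ C ∧ y ∈ C) q q')
    {u w : ℤ × ℤ} (hu : u ∈ verts δ o q) (hu' : ¬RB a' b' c' d' u) (hw : w ∈ verts δ o q')
    (hw' : ¬RB a' b' c' d' w) : Co (kap K) u w := by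
  have one : ∀ q ∈ C, ∀ u w : ℤ × ℤ, u ∈ verts δ o q → ¬RB a' b' c' d' u → w ∈ verts δ o q →
      ¬RB a' b' c' d' w → Co (kap K) u w := by
    intro q hq u w hu hu' hw hw'
    have hmk : mesh (k + 1) ≤ mesh q.1 := by
      rw [mesh_eq (show q.1 ≤ k + 1 by have := hC q hq; omega)]
      have h1 : (1 : ℝ) ≤ 3 ^ (k + 1 - q.1) := one_le_pow₀ (by norm_num)
      nlinarith [mesh_pos (k + 1)]
    have hm := mesh_pos q.1
    refine rect_minus (side_le hδ ?_ hx) (side_le hδ ?_ hy)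
      (fun v h1 h2 => hK q hq v (mem_verts_iff.2 h1) h2) (mem_verts_iff.1 hu) hu'
      (mem_verts_iff.1 hw) hw'
    · nlinarith
    · nlinarith
  induction hqq generalizing w with
  | refl => exact one q hqC u w hu hu' hw hw'
  | @tail q1 q2 _ h2 ih =>
    obtain ⟨⟨z, hz1, hz2⟩, hq1, hq2⟩ := h2
    obtain ⟨x1, x2, x3, x4⟩ := hz1
    obtain ⟨y1, y2, y3, y4⟩ := hz2
    have ovx := overlap (hC q1 hq1) (hC q2 hq2) x1 x2 y1 y2
    have ovy := overlap (hC q1 hq1) (hC q2 hq2) x3 x4 y3 y4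
    have h1k : ((-1 : ℤ) : ℝ) + 2 < mesh (k + 1) / δ := by
      rw [lt_div_iff₀ hδ]; push_cast; linarith
    have sx := side_le hδ ovx hx
    have sx' := side_le hδ ovx h1k
    have sy := side_le hδ ovy h1k
    set m1 := max (o.re + (q1.2.1 - 1 / 3) * mesh q1.1) (o.re + (q2.2.1 - 1 / 3) * mesh q2.1)
    set m2 := min (o.re + (q1.2.1 + 4 / 3) * mesh q1.1) (o.re + (q2.2.1 + 4 / 3) * mesh q2.1)
    set m3 := max (o.im + (q1.2.2 - 1 / 3) * mesh q1.1) (o.im + (q2.2.2 - 1 / 3) * mesh q2.1)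
    set m4 := min (o.im + (q1.2.2 + 4 / 3) * mesh q1.1) (o.im + (q2.2.2 + 4 / 3) * mesh q2.1)
    obtain ⟨x, hx0, hx1⟩ : ∃ x : ℤ, (⌊m1 / δ⌋ < x ∧ x < ⌈m2 / δ⌉) ∧ (x < a' ∨ b' < x) := by
      by_cases h : ⌊m1 / δ⌋ + 1 < a'
      · exact ⟨⌊m1 / δ⌋ + 1, ⟨by omega, by omega⟩, Or.inl h⟩
      · exact ⟨⌈m2 / δ⌉ - 1, ⟨by omega, by omega⟩, Or.inr (by omega)⟩
    obtain ⟨y, hy0⟩ : ∃ y : ℤ, (⌊m3 / δ⌋ < y ∧ y < ⌈m4 / δ⌉) :=
      ⟨⌊m3 / δ⌋ + 1, by omega, by omega⟩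
    rw [Int.floor_lt, Int.lt_ceil] at hx0 hy0
    have dv : ∀ s t : ℝ, s ≤ t → s / δ ≤ t / δ := fun s t h => div_le_div_of_nonneg_right h hδ.le
    have p1 : ((x, y) : ℤ × ℤ) ∈ verts δ o q1 := by
      unfold verts
      simp only [mem_product, mem_Ioo, Int.floor_lt, Int.lt_ceil]
      exact ⟨⟨(dv _ _ (le_max_left _ _)).trans_lt hx0.1, hx0.2.trans_le (dv _ _ (min_le_left _ _))⟩,
        (dv _ _ (le_max_left _ _)).trans_lt hy0.1, hy0.2.trans_le (dv _ _ (min_le_left _ _))⟩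
    have p2 : ((x, y) : ℤ × ℤ) ∈ verts δ o q2 := by
      unfold verts
      simp only [mem_product, mem_Ioo, Int.floor_lt, Int.lt_ceil]
      exact ⟨⟨(dv _ _ (le_max_right _ _)).trans_lt hx0.1,
        hx0.2.trans_le (dv _ _ (min_le_right _ _))⟩,
        (dv _ _ (le_max_right _ _)).trans_lt hy0.1, hy0.2.trans_le (dv _ _ (min_le_right _ _))⟩
    have p3 : ¬RB a' b' c' d' ((x, y) : ℤ × ℤ) := by
      rintro ⟨h3, h4, -, -⟩
      simp only at h3 h4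
      omega
    exact (ih p1 p3).trans (one q2 hq2 _ _ p2 p3 hw hw')

end Pool.Agent.H42.Q1
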