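import Mathlib
import Pool.Agent.H28.Q1.Inv
import Pool.Agent.H42.Q1.Route
import Pool.Agent.H77.Q1.Open

set_option autoImplicit false
open Finset

/-! # M3, B5: no crosscut off a path of fresh or wired labels -/

namespace Pool.Agent.H42.Q1

open Pool.Agent.H75.Perc Pool.Agent.H75.TwoArm Pool.Agent.H75.Four Pool.Agent.H99.NC
open Pool.Agent.H69.Q1 Pool.Agent.H39.Q1 Pool.Agent.H28.Q1
open Pool.Agent.H75.TwoArm.StrandAux hiding vx_nxC

section

variable {X : DEnv}

/-- A corner next to a free label is not on the back contour. -/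
lemma not_back (hI : Inv X) {ω : Finset (ℤ × ℤ)} (hω : ω ⊆ X.E) {c : ℤ × ℤ}
    (hc : lab c ∈ X.E ∨ plab c ∈ X.E) : ¬ Back (ω ∪ X.W) X.α X.β c := by
  rintro ⟨j, hj, h5, h6⟩
  obtain ⟨m, hm0, hm⟩ := hI.back'
  obtain ⟨-, h1, -, h3, -⟩ := hm ω hω
  have hjm : j < m := by
    by_contra hcon
    push Not at hcon
    exact h6 m hm0 hcon h1
  rcases hc with h | h
  · refine h3 (j - 1) (by omega) ?_
    have h7 : (pv (ω ∪ X.W))^[j] X.β = pv (ω ∪ X.W) ((pv (ω ∪ X.W))^[j - 1] X.β) := by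
      rw [← Function.iterate_succ_apply' (pv (ω ∪ X.W)) (j - 1)]
      congr 1
      omega
    rw [h7] at h5
    rw [← h5, lab_pv] at h
    exact h
  · rw [← h5] at h
    exact h3 j hjm h

/-- If `vx α` and `vx β` are joined by a set `P` of open labels, then the wired labels met by the
exploration are in `P`. -/
theorem wired_mem (hI : Inv X) {ω P : Finset (ℤ × ℤ)} (hω : ω ⊆ X.E) (hP : P ⊆ ω ∪ X.W)
    (hco : Co P (vx X.α) (vx X.β)) {i : ℕ} (hi : i < X.len ω) (hw : plab (X.cor ω i) ∈ X.W) :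
    plab (X.cor ω i) ∈ P := by
  by_contra hwP
  obtain ⟨m, hm0, hm⟩ := hI.back'
  obtain ⟨-, h1, h2, h3, h4⟩ := hm ω hω
  obtain ⟨k, hk, hk'⟩ := h4 _ hw
  set L := ω ∪ X.W with hL
  set w := plab (X.cor ω i) with hwdef
  have hwL : w ∈ L := mem_union_right _ hw
  have hcor : ∀ t, X.cor ω t = (pv L)^[t + m] X.β := by
    intro t
    rw [Function.iterate_add_apply, h1]
    rfl
  have hne : ∀ k' < m, (pv L)^[k'] X.β ≠ X.cor ω i := by
    intro k' hk' h5
    rw [hcor i] at h5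
    have h6 : (pv L)^[k'] X.β = (pv L)^[k'] ((pv L)^[i + m - k'] X.β) := by
      rw [← Function.iterate_add_apply, h5]
      congr 1
      omega
    have h7 : X.β = (pv L)^[i + m - k'] X.β := (pv_inj L).iterate k' h6
    by_cases h8 : k' ≤ i
    · have h9 : i + m - k' = (i - k') + m := by omega
      rw [h9, ← hcor] at h7
      exact X.cor_ne (by omega) h7.symm
    · push Not at h8
      have h9 : (pv L)^[k' - i] X.β = X.α := by
        conv_lhs => rw [h7]
        rw [← Function.iterate_add_apply, ← h1]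
        congr 1
        omega
      exact h2 (k' - i) (by omega) (by omega) h9
  have hoff : ∀ k' < m, k' ≠ k → plab ((pv L)^[k'] X.β) ≠ w := by
    intro k' hk'm hkk h5
    have e1 := plab_eq (L := L) (x := (pv L)^[k'] X.β) (y := X.cor ω i) h5
    have e2 := plab_eq (L := L) (x := (pv L)^[k] X.β) (y := X.cor ω i) hk'
    have h6 := e1.resolve_left (hne k' hk'm)
    have h7 := e2.resolve_left (hne k hk)
    have h8 : (pv L)^[k'] X.β = (pv L)^[k] X.β := pv_inj L (h6.trans h7.symm)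
    have key : ∀ a b : ℕ, a < b → b < m → (pv L)^[a] X.β ≠ (pv L)^[b] X.β := by
      intro a b hab hb h9
      have h10 : (pv L)^[a] X.β = (pv L)^[a] ((pv L)^[b - a] X.β) := by
        rw [← Function.iterate_add_apply, h9]
        congr 1
        omega
      have h11 : X.β = (pv L)^[b - a] X.β := (pv_inj L).iterate a h10
      have h12 : (pv L)^[m - (b - a)] X.β = X.α := by
        conv_lhs => rw [h11]
        rw [← Function.iterate_add_apply, ← h1]
        congr 1
        omega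
      exact h2 (m - (b - a)) (by omega) (by omega) h12
    rcases lt_or_gt_of_ne hkk with h9 | h9
    · exact key k' k h9 hk h8
    · exact key k k' h9 hk'm h8.symm
  have s1 : Co (L.erase w) (vx X.β) (vx ((pv L)^[k] X.β)) := by
    refine (Pool.Agent.H39.Q1.side_open L X.β (Nat.zero_le k)).mono fun e he => ?_
    rw [mem_inter] at he
    obtain ⟨k', ⟨-, h5⟩, h6⟩ := mem_met.1 he.2
    rw [mem_erase]
    exact ⟨by rw [← h6]; exact hoff k' (by omega) (by omega), he.1⟩
  have s2 : Co (L.erase w) (vx ((pv L)^[k + 1] X.β)) (vx X.α) := by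
    have h0 := Pool.Agent.H39.Q1.side_open L X.β (i := k + 1) (j := m) (by omega)
    rw [h1] at h0
    refine h0.mono fun e he => ?_
    rw [mem_inter] at he
    obtain ⟨k', ⟨h5', h5⟩, h6⟩ := mem_met.1 he.2
    rw [mem_erase]
    exact ⟨by rw [← h6]; exact hoff k' (by omega) (by omega), he.1⟩
  have s3 : Co (L.erase w) (vx X.α) (vx X.β) := by
    refine hco.mono fun e he => ?_
    rw [mem_erase]
    exact ⟨fun h5 => hwP (h5 ▸ he), hP he⟩
  have hb := bridge (L := L) (c := X.β) (a := k) (b := i + m) (by omega)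
    (by rw [hk', ← hcor]) (by rw [hk']; exact hwL) (by rw [← hcor]; exact hne k hk)
  rw [hk'] at hb
  exact hb ((s2.trans (s3.trans s1)).symm)

/-- **Main lemma.** `P` joins `vx α` to `vx β`, `T` is a set of free labels, `c` a corner next to a
free label whose vertex is joined to `vx β` in `T ∪ W` and whose face is joined to the face of `α` by
labels which are not in `P ∪ T ∪ W`. Then the vertex of `c` is joined to `vx α` in `P ∪ T`. -/
theorem joined (hI : Inv X) (hne : X.α ≠ X.β) {P T : Finset (ℤ × ℤ)} (hP : P ⊆ X.E ∪ X.W)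
    (hT : T ⊆ X.E) (hco : Co P (vx X.α) (vx X.β)) {c : ℤ × ℤ} (hc : lab c ∈ X.E ∨ plab c ∈ X.E)
    (hv : Co (T ∪ X.W) (vx X.β) (vx c)) {F : Finset (ℤ × ℤ)}
    (hf : Co (du F (P ∪ T ∪ X.W)) (fi X.α) (fi c)) : Co (P ∪ T) (vx X.α) (vx c) := by
  set ω : Finset (ℤ × ℤ) := (P ∩ X.E) ∪ T with hωdef
  have hω : ω ⊆ X.E := union_subset inter_subset_right hT
  have hωW : ω ∪ X.W = P ∪ T ∪ X.W := by
    ext e
    simp only [hωdef, mem_union, mem_inter]
    constructor
    · rintro ((h | h) | h)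
      · exact Or.inl (Or.inl h.1)
      · exact Or.inl (Or.inr h)
      · exact Or.inr h
    · rintro ((h | h) | h)
      · rcases mem_union.1 (hP h) with h1 | h1
        · exact Or.inl (Or.inl ⟨h, h1⟩)
        · exact Or.inr h1
      · exact Or.inl (Or.inr h)
      · exact Or.inr h
  have hv' : Co (ω ∪ X.W) (vx X.α) (vx c) :=
    (hI.co_W.symm.mono subset_union_right).trans (hv.mono
      (union_subset_union subset_union_right subset_rfl))
  rw [← hωW] at hf
  have hO : InOrb (pv (ω ∪ X.W)) X.α c := inOrb_pv_iff.2 (inOrb_of_co _ hv' hf)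
  obtain ⟨i, hi, hic⟩ := (X.visited_iff hω hne).2 ⟨hO, not_back hI hω hc⟩
  have h1 := X.side_open ω (Nat.zero_le i)
  rw [hic, X.cor_zero] at h1
  refine h1.mono fun e he => ?_
  rw [mem_inter, mem_union] at he
  rcases he.1 with h2 | h2
  · rw [hωdef, mem_union, mem_inter] at h2
    rw [mem_union]
    exact h2.imp (fun h => h.1) id
  · obtain ⟨k, hk, rfl⟩ := X.mem_metE.1 he.2
    refine mem_union_left _ (wired_mem hI hω (P := P) ?_ hco (by omega) h2)
    intro p hp
    rw [hωW]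
    exact mem_union_left _ (mem_union_left _ hp)

end

/-! ### Corners of a face -/

/-- The corner of the face `z` at the label between the faces `z` and `z'`. -/
lemma corner_of_face {z z' : ℤ × ℤ} (h : IsUnit4 (z' - z)) :
    ∃ c, fi c = z ∧ lab c = z + z' - (1, 1) := by
  have h1 := unit_cases h
  obtain ⟨i, j⟩ := z
  obtain ⟨i', j'⟩ := z'
  simp only at h1
  have key : ∀ a b : ℤ, (((a + 1) / 2 = i ∧ (b + 1) / 2 = j) ∧
      ((b % 2 = 0 ∧ a % 2 = 0 ∧ a = i + i' - 1 ∧ b - 1 = j + j' - 1) ∨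
      (b % 2 = 0 ∧ a % 2 = 1 ∧ a = i + i' - 1 ∧ b = j + j' - 1) ∨
      (b % 2 = 1 ∧ a % 2 = 0 ∧ a - 1 = i + i' - 1 ∧ b - 1 = j + j' - 1) ∨
      (b % 2 = 1 ∧ a % 2 = 1 ∧ a - 1 = i + i' - 1 ∧ b = j + j' - 1))) →
      ∃ c, fi c = (i, j) ∧ lab c = (i, j) + (i', j') - (1, 1) := by
    rintro a b ⟨h2, h3⟩
    refine ⟨(a, b), ?_, ?_⟩
    · unfold fi
      simp only [Prod.mk.injEq]
      exact h2
    · unfold lab
      simp only [Prod.mk_add_mk, Prod.mk_sub_mk]
      rcases h3 with ⟨h3, h4, h5, h6⟩ | ⟨h3, h4, h5, h6⟩ | ⟨h3, h4, h5, h6⟩ | ⟨h3, h4, h5, h6⟩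
      · rw [if_pos h3, if_pos h4, h6, h5]
      · rw [if_pos h3, if_neg (by omega), h6, h5]
      · rw [if_neg (by omega), if_pos h4, h6, h5]
      · rw [if_neg (by omega), if_neg (by omega), h6, h5]
  rcases h1 with ⟨h1, h2⟩ | ⟨h1, h2⟩ | ⟨h1, h2⟩ | ⟨h1, h2⟩
  · exact key (2 * i) (2 * j) (by omega)
  · exact key (2 * i - 1) (2 * j) (by omega)
  · exact key (2 * i - 1) (2 * j - 1) (by omega)
  · exact key (2 * i) (2 * j - 1) (by omega)

/-- The vertex of a corner is an end of its label, and the other end. -/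
lemma vx_lab (c : ℤ × ℤ) : ((lab c).1 + (lab c).2) % 2 = 1 ∧
    ((vx c = eu (lab c)) ∨ (vx c = ev (lab c))) := by
  have h := vx_nxO c
  obtain ⟨h1, h2⟩ := ends_add h.1
  rw [h.2] at h1 h2
  refine ⟨h1, ?_⟩
  rcases h2 with h2 | h2
  · exact Or.inl h2.1.symm
  · exact Or.inr h2.2.symm

lemma eu_ev_step {e : ℤ × ℤ} (h : (e.1 + e.2) % 2 = 1) :
    IsUnit4 (ev e - eu e) ∧ eu e + ev e = e := by
  obtain ⟨a, b⟩ := e
  simp only at h
  unfold IsUnit4 eu ev
  simp only [Prod.mk_sub_mk, Prod.mk_add_mk, Prod.mk.injEq]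
  omega

/-- The two ends of an open label are joined. -/
lemma co_ends {L : Finset (ℤ × ℤ)} {e : ℤ × ℤ} (h : (e.1 + e.2) % 2 = 1) (he : e ∈ L) :
    Co L (eu e) (ev e) := by
  obtain ⟨h1, h2⟩ := eu_ev_step h
  exact Relation.ReflTransGen.single ⟨h1, by rw [h2]; exact he⟩

lemma unit_symm {g g' : ℤ × ℤ} (h : IsUnit4 (g' - g)) : IsUnit4 (g - g') := by
  have := unit_cases h
  unfold IsUnit4
  rw [Prod.ext_iff, Prod.ext_iff, Prod.ext_iff, Prod.ext_iff]
  simp only [Prod.fst_sub, Prod.snd_sub]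
  omega

/-- The part of a dual path after the last crossing of `T`. -/
lemma last_cross {E T : Finset (ℤ × ℤ)} {N : ℤ × ℤ → Prop} {z z' h : ℤ × ℤ}
    (hz : IsUnit4 (z' - z)) (hzT : z + z' - (1, 1) ∈ T) (hp : CoX (du E ∅) N z h) :
    ∃ y y', IsUnit4 (y' - y) ∧ y + y' - (1, 1) ∈ T ∧ (y = z ∨ N y) ∧ CoX (du E T) N y h := by
  have key : ∀ g, CoX (du E ∅) N g h → CoX (du E T) N g h ∨
      ∃ y y', IsUnit4 (y' - y) ∧ y + y' - (1, 1) ∈ T ∧ N y ∧ CoX (du E T) N y h := by
    intro g hg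
    unfold CoX at hg ⊢
    induction hg using Relation.ReflTransGen.head_induction_on with
    | refl => exact Or.inl Relation.ReflTransGen.refl
    | @head a b hab _ ih =>
      rcases ih with ih | ih
      · obtain ⟨⟨h1, h2⟩, h3⟩ := hab
        rw [Pool.Agent.H77.Q1.mem_du'] at h2
        by_cases hT' : a + b - (1, 1) ∈ T
        · exact Or.inr ⟨b, a, unit_symm h1, by rwa [add_comm b a], h3, ih⟩
        · refine Or.inl (Relation.ReflTransGen.head ⟨⟨h1, ?_⟩, h3⟩ ih)
          rw [Pool.Agent.H77.Q1.mem_du']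
          exact ⟨h2.1, hT'⟩
      · exact Or.inr ih
  rcases key z hp with h1 | ⟨y, y', h1, h2, h3, h4⟩
  · exact ⟨z, z', hz, hzT, Or.inl rfl, h1⟩
  · exact ⟨y, y', h1, h2, Or.inr h3, h4⟩

lemma coX_end {E T : Finset (ℤ × ℤ)} {N : ℤ × ℤ → Prop} {z h : ℤ × ℤ} (hz : N z)
    (hp : CoX (du E T) N z h) : N h := by
  unfold CoX at hp
  induction hp with
  | refl => exact hz
  | tail _ h1 _ => exact h1.2

section

variable {X : DEnv}

/-- **No crosscut, corner form.** `P` joins `vx α` to `vx β`; `c` is a corner next to a free label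
whose vertex is joined to `vx β` in `T ∪ W` and not joined to `vx α` in `P ∪ T`. Then no dual path of
free labels off `P ∪ T` joins the face of `c` to a face of the closed side. -/
theorem cut_core (hI : Inv X) (hne : X.α ≠ X.β) {P T : Finset (ℤ × ℤ)}
    (hP : P ⊆ X.E ∪ X.W) (hT : T ⊆ X.E) (hco : Co P (vx X.α) (vx X.β)) {c : ℤ × ℤ}
    (hc : lab c ∈ X.E ∨ plab c ∈ X.E) (hv : Co (T ∪ X.W) (vx X.β) (vx c))
    (hsep : ¬ Co (P ∪ T) (vx X.α) (vx c))
    {N : ℤ × ℤ → Prop} (hN : ∀ g g', IsUnit4 (g' - g) → N g' → g + g' - (1, 1) ∉ P)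
    {h : ℤ × ℤ} (hp : CoX (du X.E T) N (fi c) h) (hh : ClJ X (fi X.α) h) : False := by
  have key : Co (du X.E (P ∪ T ∪ X.W)) (fi c) h := by
    unfold CoX at hp
    refine Relation.ReflTransGen.mono ?_ _ _ hp
    rintro a b ⟨⟨h1, h2⟩, h3⟩
    rw [Pool.Agent.H77.Q1.mem_du'] at h2
    refine ⟨h1, ?_⟩
    rw [Pool.Agent.H77.Q1.mem_du']
    refine ⟨h2.1, ?_⟩
    rw [mem_union, mem_union, not_or, not_or]
    exact ⟨⟨hN a b h1 h3, h2.2⟩, fun h4 => disjoint_left.1 X.disj h2.1 h4⟩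
  obtain ⟨F, hF⟩ := hh
  have hf : Co (du (F ∪ X.E) (P ∪ T ∪ X.W)) (fi X.α) (fi c) := by
    refine Co.trans (hF.mono ?_) (key.symm.mono (du_mono_left subset_union_right))
    refine (du_anti ?_).trans (du_mono_left subset_union_left)
    exact union_subset (union_subset hP (hT.trans subset_union_left)) subset_union_right
  exact hsep (joined hI hne hP hT hco hc hv hf)

/-- **No crosscut.** `P` joins `vx α` to `vx β`; `T` is a set of free labels joined to `vx β` in
`T ∪ W` and not joined to `vx α` in `P ∪ T`. Then no dual path of free labels off `P` joins a face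
next to `T` to a face of the closed side. -/
theorem iso_core (hI : Inv X) (hne : X.α ≠ X.β) {P T : Finset (ℤ × ℤ)}
    (hP : P ⊆ X.E ∪ X.W) (hT : T ⊆ X.E) (hco : Co P (vx X.α) (vx X.β))
    (hTv : ∀ t ∈ T, Co (T ∪ X.W) (vx X.β) (eu t)) (hsep : ∀ t ∈ T, ¬ Co (P ∪ T) (vx X.α) (eu t))
    {N : ℤ × ℤ → Prop} (hN : ∀ g g', IsUnit4 (g' - g) → N g' → g + g' - (1, 1) ∉ P)
    {z z' h : ℤ × ℤ} (hz : IsUnit4 (z' - z)) (hzT : z + z' - (1, 1) ∈ T)
    (hp : CoX (du X.E ∅) N z h) (hh : ClJ X (fi X.α) h) : False := by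
  obtain ⟨y, y', hy1, hy2, -, hy3⟩ := last_cross hz hzT hp
  obtain ⟨c, hc1, hc2⟩ := corner_of_face hy1
  obtain ⟨h1, h2⟩ := vx_lab c
  rw [hc2] at h1 h2
  have hv : Co (T ∪ X.W) (vx X.β) (vx c) := by
    rcases h2 with h2 | h2
    · rw [h2]; exact hTv _ hy2
    · rw [h2]; exact (hTv _ hy2).trans (co_ends h1 (mem_union_left _ hy2))
  refine cut_core hI hne hP hT hco (c := c) (Or.inl (by rw [hc2]; exact hT hy2)) hv ?_ hN
    (by rw [hc1]; exact hy3) hh
  intro h3
  refine hsep _ hy2 ?_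
  rcases h2 with h2 | h2
  · rw [h2] at h3; exact h3
  · rw [h2] at h3
    exact h3.trans (co_ends h1 (mem_union_right _ hy2)).symm

/-! ### One more step -/

/-- the previous corner on the same face -/
def pvf (c : ℤ × ℤ) : ℤ × ℤ := pv {plab c} c

lemma pvf_eq {L : Finset (ℤ × ℤ)} {c : ℤ × ℤ} (h : plab c ∈ L) : pv L c = pvf c :=
  pv_eq_of (by simp [h])

lemma pvf_spec (c : ℤ × ℤ) : fi (pvf c) = fi c ∧ lab (pvf c) = plab c := by
  refine ⟨?_, lab_pv _ _⟩
  exact (vx_of_open (L := {plab c}) (x := c) (by simp)).2.symm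

lemma pvf_def (x y : ℤ) : pvf (x, y) =
    if y % 2 = 0 then (if x % 2 = 0 then (x - 1, y) else (x, y - 1))
      else (if x % 2 = 0 then (x, y + 1) else (x + 1, y)) := by
  unfold pvf pv plab
  rcases (by omega : x % 2 = 0 ∨ x % 2 = 1) with h1 | h1 <;>
    rcases (by omega : y % 2 = 0 ∨ y % 2 = 1) with h2 | h2 <;> simp [h1, h2]

lemma pvf_ne (c : ℤ × ℤ) : pvf c ≠ c ∧ pvf (pvf c) ≠ c := by
  have hp := pvf_def
  obtain ⟨a, b⟩ := c
  rcases (by omega : a % 2 = 0 ∨ a % 2 = 1) with h1 | h1 <;>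
    rcases (by omega : b % 2 = 0 ∨ b % 2 = 1) with h2 | h2
  · rw [hp a b, if_pos h2, if_pos h1, hp (a - 1) b, if_pos h2, if_neg (by omega)]
    simp only [ne_eq, Prod.mk.injEq]
    omega
  · rw [hp a b, if_neg (by omega), if_pos h1, hp a (b + 1), if_pos (by omega), if_pos h1]
    simp only [ne_eq, Prod.mk.injEq]
    omega
  · rw [hp a b, if_pos h2, if_neg (by omega), hp a (b - 1), if_neg (by omega), if_neg (by omega)]
    simp only [ne_eq, Prod.mk.injEq]
    omega
  · rw [hp a b, if_neg (by omega), if_neg (by omega), hp (a + 1) b, if_neg (by omega),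
      if_pos (by omega)]
    simp only [ne_eq, Prod.mk.injEq]
    omega

lemma face_four {c d : ℤ × ℤ} (h : fi c = fi d) :
    d = c ∨ d = pvf c ∨ d = pvf (pvf c) ∨ d = pvf (pvf (pvf c)) := by
  have hp := pvf_def
  obtain ⟨a, b⟩ := c
  obtain ⟨a', b'⟩ := d
  unfold fi at h
  simp only [Prod.mk.injEq] at h
  rcases (by omega : a % 2 = 0 ∨ a % 2 = 1) with h1 | h1 <;>
    rcases (by omega : b % 2 = 0 ∨ b % 2 = 1) with h2 | h2
  · rw [hp a b, if_pos h2, if_pos h1, hp (a - 1) b, if_pos h2, if_neg (by omega),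
      hp (a - 1) (b - 1), if_neg (by omega), if_neg (by omega)]
    simp only [Prod.mk.injEq]
    omega
  · rw [hp a b, if_neg (by omega), if_pos h1, hp a (b + 1), if_pos (by omega), if_pos h1,
      hp (a - 1) (b + 1), if_pos (by omega), if_neg (by omega)]
    simp only [Prod.mk.injEq]
    omega
  · rw [hp a b, if_pos h2, if_neg (by omega), hp a (b - 1), if_neg (by omega), if_neg (by omega),
      hp (a + 1) (b - 1), if_neg (by omega), if_pos (by omega)]
    simp only [Prod.mk.injEq]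
    omega
  · rw [hp a b, if_neg (by omega), if_neg (by omega), hp (a + 1) b, if_neg (by omega),
      if_pos (by omega), hp (a + 1) (b + 1), if_pos (by omega), if_pos (by omega)]
    simp only [Prod.mk.injEq]
    omega

lemma lab_face_inj {x y : ℤ × ℤ} (h : fi x = fi y) (hl : lab x = lab y) : x = y := by
  obtain ⟨a, b⟩ := x
  obtain ⟨a', b'⟩ := y
  unfold fi at h
  simp only [Prod.mk.injEq] at h
  unfold lab at hl
  simp only [Prod.mk.injEq]
  rcases (by omega : a % 2 = 0 ∨ a % 2 = 1) with h1 | h1 <;>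
    rcases (by omega : b % 2 = 0 ∨ b % 2 = 1) with h2 | h2 <;>
    rcases (by omega : a' % 2 = 0 ∨ a' % 2 = 1) with h3 | h3 <;>
    rcases (by omega : b' % 2 = 0 ∨ b' % 2 = 1) with h4 | h4 <;>
    simp only [h1, h2, h3, h4, Prod.mk.injEq, one_ne_zero, if_false,
      if_true] at hl <;> omega

/-- The face behind the label of the tip: if it is next to a closed boundary label then it belongs to
the closed side. -/
lemma clJ_face (hI : Inv X) (hne : X.α ≠ X.β) (he : plab X.α ∉ X.W) {g' : ℤ × ℤ}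
    (hg : IsUnit4 (g' - fi (pv ∅ X.α))) (hl : fi (pv ∅ X.α) + g' - (1, 1) ≠ plab X.α)
    (hl' : fi (pv ∅ X.α) + g' - (1, 1) ∉ X.E ∪ X.W) : ClJ X (fi X.α) (fi (pv ∅ X.α)) := by
  set e := plab X.α with hedef
  set c1 := pv ∅ X.α with hc1
  set ω := X.E.erase e with hωdef
  have hω : ω ⊆ X.E := erase_subset _ _
  have heω : e ∉ ω ∪ X.W := by
    rw [mem_union, hωdef, mem_erase, not_or]
    exact ⟨fun h => h.1 rfl, he⟩
  have hL : ∀ l, l ≠ e → l ∈ X.E ∪ X.W → l ∈ ω ∪ X.W := by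
    intro l h1 h2
    rw [mem_union] at h2 ⊢
    rw [hωdef, mem_erase]
    exact h2.imp (fun h => ⟨h1, h⟩) id
  have k1 : X.cor ω 1 = c1 := by
    rw [X.cor_succ, X.cor_zero, hc1]
    exact pv_eq_of (by simp only [notMem_empty, iff_false]; exact heω)
  have step : ∀ i c, X.cor ω i = c → plab c ≠ e → plab c ∈ X.E ∪ X.W →
      X.cor ω (i + 1) = pvf c := by
    intro i c h1 h2 h3
    rw [X.cor_succ, h1]
    exact pvf_eq (hL _ h2 h3)
  -- the conclusion at a corner of the face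
  have fin : ∀ i, 1 ≤ i → (∀ j, 1 ≤ j → j ≤ i → fi (X.cor ω j) = fi c1) →
      plab (X.cor ω i) ∉ X.E ∪ X.W → ClJ X (fi X.α) (fi c1) := by
    intro i hi h2 h3
    rw [mem_union, not_or] at h3
    by_cases h4 : i < X.len ω
    · have := hI.cl ω hω i h4 h3.1 h3.2
      rw [h2 i hi le_rfl] at this
      exact this
    · have h5 := X.cor_len hω
      have h6 : 1 ≤ X.len ω := by
        by_contra hcon
        have h7 : X.len ω = 0 := by omega
        rw [h7, X.cor_zero] at h5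
        exact hne h5
      rw [← h2 _ h6 (by omega), h5]
      exact hI.clJ.symm
  obtain ⟨c, hcf, hcl⟩ := corner_of_face hg
  have f2 := pvf_spec c1
  have f3 := pvf_spec (pvf c1)
  have f4 := pvf_spec (pvf (pvf c1))
  have le : lab c1 = e := by rw [hc1, lab_pv]
  have le2 : plab c1 ≠ e := by
    rw [← f2.2, ← le]
    exact fun h => (pvf_ne c1).1 (lab_face_inj f2.1 h)
  have le3 : plab (pvf c1) ≠ e := by
    rw [← f3.2, ← le]
    exact fun h => (pvf_ne c1).2 (lab_face_inj (f3.1.trans f2.1) h)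
  -- the walk on the face
  by_cases p1 : plab c1 ∈ X.E ∪ X.W
  swap
  · refine fin 1 le_rfl (fun j h1 h2 => ?_) (by rw [k1]; exact p1)
    have : j = 1 := by omega
    rw [this, k1]
  have k2 := step 1 c1 k1 le2 p1
  by_cases p2 : plab (pvf c1) ∈ X.E ∪ X.W
  swap
  · refine fin 2 (by omega) (fun j h1 h2 => ?_) (by rw [k2]; exact p2)
    rcases (by omega : j = 1 ∨ j = 2) with h | h
    · rw [h, k1]
    · rw [h, k2]; exact f2.1
  have k3 := step 2 _ k2 le3 p2
  rcases face_four hcf.symm with h | h | h | h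
  · rw [h, le] at hcl
    exact absurd hcl.symm hl
  · rw [h, f2.2] at hcl
    rw [← hcl] at hl'
    exact absurd p1 hl'
  · rw [h, f3.2] at hcl
    rw [← hcl] at hl'
    exact absurd p2 hl'
  · rw [h, f4.2] at hcl
    rw [← hcl] at hl'
    refine fin 3 (by omega) (fun j h1 h2 => ?_) (by rw [k3]; exact hl')
    rcases (by omega : j = 1 ∨ j = 2 ∨ j = 3) with h | h | h
    · rw [h, k1]
    · rw [h, k2]; exact f2.1
    · rw [h, k3]; exact f3.1.trans f2.1

end

/-- `Y` is the environment after one step of the exploration in `X`, across the free label `plab α`. -/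
structure Succ (X Y : DEnv) : Prop where
  ne : X.α ≠ X.β
  mem : plab X.α ∈ X.E
  β : Y.β = X.β
  E : Y.E = X.E.erase (plab X.α)
  st : (Y.W = insert (plab X.α) X.W ∧ Y.α = pvf X.α) ∨ (Y.W = X.W ∧ Y.α = pv ∅ X.α)

section

variable {X Y : DEnv}

/-- Faces of the closed side after one step. -/
lemma clJ_succ (hI : Inv X) (h : Succ X Y) {f : ℤ × ℤ} (hf : ClJ Y (fi Y.α) f) :
    ClJ X (fi X.α) f ∨ (Y.W = X.W ∧ Y.α = pv ∅ X.α ∧ f = fi Y.α) := by
  obtain ⟨F, hF⟩ := hf
  rcases h.st with ⟨h1, h2⟩ | ⟨h1, h2⟩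
  · left
    refine ⟨F, ?_⟩
    rw [h2, (pvf_spec X.α).1] at hF
    refine hF.mono (du_anti ?_)
    intro l hl
    rw [h.E, h1, mem_union, mem_erase, mem_insert]
    by_cases h3 : l = plab X.α
    · exact Or.inr (Or.inl h3)
    · rcases mem_union.1 hl with h4 | h4
      · exact Or.inl ⟨h3, h4⟩
      · exact Or.inr (Or.inr h4)
  · rw [h1, h.E] at hF
    have he : plab X.α ∉ X.W := fun h3 => disjoint_left.1 X.disj h.mem h3
    set e := plab X.α with hedef
    have h5 : fi X.α ≠ fi Y.α ∧ ∀ g g', IsUnit4 (g' - g) → g + g' - (1, 1) = e →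
        g' = fi X.α ∨ g' = fi Y.α := by
      have h3 := fi_nxC (pv ∅ X.α)
      have h4 : nxC (pv ∅ X.α) = X.α := (nx_pv_aux ∅ X.α).2 (notMem_empty _)
      rw [h4, lab_pv, ← h2] at h3
      obtain ⟨h6, h7⟩ := h3
      have h8 := unit_cases h6
      rw [← hedef] at h7
      have e1 := congrArg Prod.fst h7
      have e2 := congrArg Prod.snd h7
      simp only [Prod.fst_add, Prod.snd_add] at e1 e2
      refine ⟨fun h9 => ?_, fun g g' h9 h10 => ?_⟩
      · rw [h9] at h8; omega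
      · have h11 := unit_cases h9
        have e3 := congrArg Prod.fst h10
        have e4 := congrArg Prod.snd h10
        simp only [Prod.fst_add, Prod.snd_add, Prod.fst_sub, Prod.snd_sub] at e3 e4
        rw [Prod.ext_iff, Prod.ext_iff]
        omega
    have key : ∀ g, Co (du F (X.E.erase e ∪ X.W)) (fi Y.α) g → ClJ X (fi X.α) g ∨ g = fi Y.α := by
      intro g hg
      induction hg with
      | refl => exact Or.inr rfl
      | @tail a b _ hab ih =>
        obtain ⟨h6, h7⟩ := hab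
        rw [Pool.Agent.H77.Q1.mem_du', mem_union, mem_erase, not_or] at h7
        by_cases hl : a + b - (1, 1) = e
        · rcases h5.2 a b h6 hl with h8 | h8
          · rw [h8]; exact Or.inl (ClJ.refl X _)
          · exact Or.inr h8
        · have h8 : a + b - (1, 1) ∉ X.E ∪ X.W := by
            rw [mem_union, not_or]
            exact ⟨fun h9 => h7.2.1 ⟨hl, h9⟩, h7.2.2⟩
          have h9 : ClJ X a b := ⟨{a + b - (1, 1)}, Relation.ReflTransGen.single ⟨h6, by
            rw [Pool.Agent.H77.Q1.mem_du']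
            exact ⟨mem_singleton_self _, h8⟩⟩⟩
          rcases ih with ih | ih
          · exact Or.inl (ih.trans h9)
          · left
            rw [ih, h2] at h6 hl h8
            have := clJ_face hI h.ne he h6 hl h8
            rw [← h2, ← ih] at this
            exact this.trans h9
    rcases key f hF with h6 | h6
    · exact Or.inl h6
    · exact Or.inr ⟨h1, h2, h6⟩

/-- **No crosscut after one step.** `In` is a set of vertices which does not contain the two ends of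
the label of the step; outside `In` the other end of this label is joined to `vx β`. -/
theorem step_cut (hI : Inv X) (hI' : Inv Y) (h : Succ X Y) (hne : Y.α ≠ Y.β)
    {In N : ℤ × ℤ → Prop} (hNI : ∀ c, N (fi c) → In (vx c))
    (hα : ¬ In (vx X.α)) {P : Finset (ℤ × ℤ)} (hP : P ⊆ X.E ∪ X.W)
    (hPI : ∀ p ∈ P, ¬ In (eu p) ∧ ¬ In (ev p)) (hk : ¬ In (vx (pvf X.α)))
    (hco : Co P (vx (pvf X.α)) (vx X.β)) {T : Finset (ℤ × ℤ)} (hT : T ⊆ Y.E)
    (hTI : ∀ t ∈ T, In (eu t) ∧ In (ev t)) {c : ℤ × ℤ} (hc : lab c ∈ Y.E ∨ plab c ∈ Y.E)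
    (hcI : In (vx c)) (hv : Co (T ∪ Y.W) (vx Y.β) (vx c)) {f : ℤ × ℤ} (hNf : N f)
    (hp : CoX (du Y.E T) N (fi c) f) (hf : ClJ Y (fi Y.α) f) : False := by
  have hEX : Y.E ⊆ X.E := by rw [h.E]; exact erase_subset _ _
  -- separation
  have sep : ∀ (P' : Finset (ℤ × ℤ)) (u : ℤ × ℤ), (∀ p ∈ P', ¬ In (eu p) ∧ ¬ In (ev p)) →
      ¬ In u → ¬ Co (P' ∪ T) u (vx c) := by
    intro P' u h1 h2 h3
    have : ∀ v, Co (P' ∪ T) u v → ¬ In v := by
      intro v hv
      induction hv with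
      | refl => exact h2
      | @tail a b _ hab ih =>
        obtain ⟨h4, h5⟩ := hab
        obtain ⟨h6, h7⟩ := ends_add h4
        rcases mem_union.1 h5 with h8 | h8
        · have h9 := h1 _ h8
          rcases h7 with ⟨h10, h11⟩ | ⟨h10, h11⟩ <;> rw [h10, h11] at h9
          · exact h9.2
          · exact h9.1
        · have h9 := hTI _ h8
          rcases h7 with ⟨h10, h11⟩ | ⟨h10, h11⟩ <;> rw [h10, h11] at h9
          · exact absurd h9.1 ih
          · exact absurd h9.2 ih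
    exact this _ h3 hcI
  -- labels between faces of the region
  have hlab : ∀ (P' : Finset (ℤ × ℤ)), (∀ p ∈ P', ¬ In (eu p) ∧ ¬ In (ev p)) →
      ∀ g g', IsUnit4 (g' - g) → N g' → g + g' - (1, 1) ∉ P' := by
    intro P' h1 g g' h2 h3 h4
    obtain ⟨d, hd1, hd2⟩ := corner_of_face (unit_symm h2)
    obtain ⟨-, h5⟩ := vx_lab d
    rw [hd2, add_comm g' g] at h5
    have h6 := hNI d (by rw [hd1]; exact h3)
    rcases h5 with h5 | h5
    · exact (h1 _ h4).1 (h5 ▸ h6)
    · exact (h1 _ h4).2 (h5 ▸ h6)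
  rcases h.st with ⟨h1, h2⟩ | ⟨h1, h2⟩
  · -- open label
    have hE : X.E ∪ X.W ⊆ Y.E ∪ Y.W := by
      intro l hl
      rw [h.E, h1, mem_union, mem_erase, mem_insert]
      by_cases h3 : l = plab X.α
      · exact Or.inr (Or.inl h3)
      · rcases mem_union.1 hl with h4 | h4
        · exact Or.inl ⟨h3, h4⟩
        · exact Or.inr (Or.inr h4)
    exact cut_core hI' hne (hP.trans hE) hT (by rw [h2, h.β]; exact hco) hc hv
      (sep P _ hPI (by rw [h2]; exact hk)) (hlab P hPI) hp hf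
  · -- closed label
    set e := plab X.α with hedef
    have hs : IsUnit4 (vx X.α - vx (pvf X.α)) ∧ vx (pvf X.α) + vx X.α = e := by
      have h3 := vx_nxO (pvf X.α)
      have h4 : nxO (pvf X.α) = X.α := (nx_pv_aux {plab X.α} X.α).1 (mem_singleton_self _)
      rw [h4, (pvf_spec X.α).2] at h3
      exact h3
    have hPI' : ∀ p ∈ insert e P, ¬ In (eu p) ∧ ¬ In (ev p) := by
      intro p hp'
      rcases mem_insert.1 hp' with h3 | h3
      · obtain ⟨-, h4⟩ := ends_add hs.1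
        rw [hs.2] at h4
        rw [h3]
        rcases h4 with ⟨h5, h6⟩ | ⟨h5, h6⟩ <;> rw [h5, h6]
        · exact ⟨hk, hα⟩
        · exact ⟨hα, hk⟩
      · exact hPI p h3
    have hP' : insert e P ⊆ X.E ∪ X.W := insert_subset (mem_union_left _ h.mem) hP
    have hco' : Co (insert e P) (vx X.α) (vx X.β) := by
      refine Co.trans (Relation.ReflTransGen.single ⟨unit_symm hs.1, ?_⟩)
        (hco.mono (subset_insert _ _))
      rw [add_comm, hs.2]
      exact mem_insert_self _ _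
    rcases clJ_succ hI h hf with h3 | ⟨-, h3, h4⟩
    · refine cut_core (c := c) hI h.ne hP' (hT.trans hEX) hco' (hc.imp (fun h => hEX h) (fun h => hEX h))
        (by rw [← h.β, ← h1]; exact hv) (sep _ _ hPI' hα) (hlab _ hPI') ?_ h3
      unfold CoX at hp ⊢
      refine Relation.ReflTransGen.mono ?_ _ _ hp
      rintro a b ⟨⟨h4, h5⟩, h6⟩
      refine ⟨⟨h4, ?_⟩, h6⟩
      rw [Pool.Agent.H77.Q1.mem_du'] at h5 ⊢
      exact ⟨hEX h5.1, h5.2⟩
    · rw [h4] at hNf
      have h5 := hNI _ hNf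
      rw [h3] at h5
      have h6 : vx (pv ∅ X.α) = vx X.α :=
        (fi_of_closed (L := ∅) (x := X.α) (notMem_empty _)).1.symm
      rw [h6] at h5
      exact hα h5

/-- **No crosscut after one step, tie form.** -/
theorem step_iso (hI : Inv X) (hI' : Inv Y) (h : Succ X Y) (hne : Y.α ≠ Y.β)
    {In N : ℤ × ℤ → Prop} (hNI : ∀ c, N (fi c) → In (vx c))
    (hα : ¬ In (vx X.α)) {P : Finset (ℤ × ℤ)} (hP : P ⊆ X.E ∪ X.W)
    (hPI : ∀ p ∈ P, ¬ In (eu p) ∧ ¬ In (ev p)) (hk : ¬ In (vx (pvf X.α)))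
    (hco : Co P (vx (pvf X.α)) (vx X.β)) {T : Finset (ℤ × ℤ)} (hT : T ⊆ Y.E)
    (hTI : ∀ t ∈ T, In (eu t) ∧ In (ev t))
    (hTv : ∀ t ∈ T, Co (T ∪ Y.W) (vx Y.β) (eu t)) {z z' f : ℤ × ℤ} (hz : IsUnit4 (z' - z))
    (hzT : z + z' - (1, 1) ∈ T) (hNz : N z) (hp : CoX (du Y.E ∅) N z f)
    (hf : ClJ Y (fi Y.α) f) : False := by
  obtain ⟨y, y', hy1, hy2, hy4, hy3⟩ := last_cross hz hzT hp
  have hNy : N y := by
    rcases hy4 with hy4 | hy4
    · rw [hy4]; exact hNz
    · exact hy4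
  obtain ⟨c, hc1, hc2⟩ := corner_of_face hy1
  obtain ⟨h1, h2⟩ := vx_lab c
  rw [hc2] at h1 h2
  have hv : Co (T ∪ Y.W) (vx Y.β) (vx c) := by
    rcases h2 with h2 | h2
    · rw [h2]; exact hTv _ hy2
    · rw [h2]; exact (hTv _ hy2).trans (co_ends h1 (mem_union_left _ hy2))
  have hcI : In (vx c) := by
    rcases h2 with h2 | h2
    · rw [h2]; exact (hTI _ hy2).1
    · rw [h2]; exact (hTI _ hy2).2
  exact step_cut hI hI' h hne hNI hα hP hPI hk hco hT hTI (c := c)
    (Or.inl (by rw [hc2]; exact hT hy2)) hcI hv (coX_end hNy hy3) (by rw [hc1]; exact hy3) hf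

end

/-! ### The step before a stopping time -/

section

variable {X : DEnv} {ω : Finset (ℤ × ℤ)}

lemma adapted_time (m : ℕ) : DEnv.Adapted (fun i (_ : ℕ → ℤ × ℤ) => m ≤ i) :=
  fun _ _ _ _ => Iff.rfl

lemma tau_time (_hω : ω ⊆ X.E) {m : ℕ} (hm : m ≤ X.len ω) :
    X.tau (fun i (_ : ℕ → ℤ × ℤ) => m ≤ i) ω = m := by
  unfold DEnv.tau
  apply le_antisymm
  · exact Nat.sInf_le (Or.inl le_rfl)
  · refine le_csInf ⟨m, Or.inl le_rfl⟩ ?_
    rintro i (h | h)
    · exact h
    · exact hm.trans (X.len_le h)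

/-- The environment at the time `m`. -/
noncomputable def atm (X : DEnv) (ω : Finset (ℤ × ℤ)) (hω : ω ⊆ X.E) (m : ℕ) : DEnv :=
  X.after (fun i _ => m ≤ i) (adapted_time m) ω hω

lemma atm_α (hω : ω ⊆ X.E) {m : ℕ} (hm : m ≤ X.len ω) : (atm X ω hω m).α = X.cor ω m := by
  unfold atm
  rw [DEnv.after_α, tau_time hω hm]

lemma atm_β (hω : ω ⊆ X.E) (m : ℕ) : (atm X ω hω m).β = X.β := rfl

lemma mem_exset_time (hω : ω ⊆ X.E) {m : ℕ} (hm : m ≤ X.len ω) {e : ℤ × ℤ} :
    e ∈ X.exset (fun i (_ : ℕ → ℤ × ℤ) => m ≤ i) ω ↔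
      e ∈ X.E ∧ ∃ k < m, plab (X.cor ω k) = e := by
  rw [X.mem_exset, tau_time hω hm]

lemma mem_atm_E (hω : ω ⊆ X.E) {m : ℕ} (hm : m ≤ X.len ω) {e : ℤ × ℤ} :
    e ∈ (atm X ω hω m).E ↔ e ∈ X.E ∧ ∀ k < m, plab (X.cor ω k) ≠ e := by
  unfold atm
  rw [DEnv.after_E, mem_sdiff, mem_exset_time hω hm]
  constructor
  · rintro ⟨h1, h2⟩
    exact ⟨h1, fun k hk h3 => h2 ⟨h1, k, hk, h3⟩⟩
  · rintro ⟨h1, h2⟩
    exact ⟨h1, fun ⟨_, k, hk, h3⟩ => h2 k hk h3⟩

lemma mem_atm_W (hω : ω ⊆ X.E) {m : ℕ} (hm : m ≤ X.len ω) {e : ℤ × ℤ} :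
    e ∈ (atm X ω hω m).W ↔ e ∈ X.W ∨ (e ∈ ω ∧ ∃ k < m, plab (X.cor ω k) = e) := by
  unfold atm
  rw [DEnv.after_W, mem_union, mem_inter, mem_exset_time hω hm]
  constructor
  · rintro (h | h)
    · exact Or.inl h
    · exact Or.inr ⟨h.1, h.2.2⟩
  · rintro (h | h)
    · exact Or.inl h
    · exact Or.inr ⟨h.1, hω h.1, h.2⟩

/-- The environments at the times `m` and `m + 1`. -/
theorem succ_of_tau {Q : ℕ → (ℕ → ℤ × ℤ) → Prop} (hQ : DEnv.Adapted Q) (hω : ω ⊆ X.E) {m : ℕ}
    (hm : m < X.len ω) (ht : X.tau Q ω = m + 1) (he : plab (X.cor ω m) ∈ X.E)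
    (hfr : ∀ k < m, plab (X.cor ω k) ≠ plab (X.cor ω m)) :
    Succ (atm X ω hω m) (X.after Q hQ ω hω) := by
  set e := plab (X.cor ω m) with hedef
  have hα := atm_α hω hm.le
  have heW : e ∉ X.W := fun h => disjoint_left.1 X.disj he h
  have hpl : plab (atm X ω hω m).α = e := by rw [hα]
  refine ⟨?_, ?_, rfl, ?_, ?_⟩
  · rw [hα, atm_β]
    exact X.cor_ne hm
  · rw [hpl, mem_atm_E hω hm.le]
    exact ⟨he, hfr⟩
  · ext l
    rw [hpl, mem_erase, mem_atm_E hω hm.le, DEnv.after_E, mem_sdiff, X.mem_exset, ht]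
    constructor
    · rintro ⟨h1, h2⟩
      refine ⟨fun h3 => h2 ⟨h1, m, by omega, h3.symm⟩, h1, fun k hk h3 => h2 ⟨h1, k, by omega, h3⟩⟩
    · rintro ⟨h1, h2, h3⟩
      refine ⟨h2, ?_⟩
      rintro ⟨-, k, hk, h4⟩
      rcases (by omega : k < m ∨ k = m) with h5 | h5
      · exact h3 k h5 h4
      · rw [h5] at h4
        exact h1 h4.symm
  · by_cases hew : e ∈ ω
    · left
      constructor
      · ext l
        rw [hpl, mem_insert, mem_atm_W hω hm.le, DEnv.after_W, mem_union, mem_inter, X.mem_exset, ht]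
        constructor
        · rintro (h1 | ⟨h1, -, k, hk, h2⟩)
          · exact Or.inr (Or.inl h1)
          · rcases (by omega : k < m ∨ k = m) with h5 | h5
            · exact Or.inr (Or.inr ⟨h1, k, h5, h2⟩)
            · rw [h5] at h2
              exact Or.inl h2.symm
        · rintro (h1 | h1 | ⟨h1, k, hk, h2⟩)
          · rw [h1]
            exact Or.inr ⟨hew, he, m, by omega, rfl⟩
          · exact Or.inl h1
          · exact Or.inr ⟨h1, hω h1, k, by omega, h2⟩
      · rw [DEnv.after_α, ht, X.cor_succ, hα]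
        exact pvf_eq (mem_union_left _ hew)
    · right
      constructor
      · ext l
        rw [mem_atm_W hω hm.le, DEnv.after_W, mem_union, mem_inter, X.mem_exset, ht]
        constructor
        · rintro (h1 | ⟨h1, -, k, hk, h2⟩)
          · exact Or.inl h1
          · rcases (by omega : k < m ∨ k = m) with h5 | h5
            · exact Or.inr ⟨h1, k, h5, h2⟩
            · rw [h5] at h2
              rw [← h2] at h1
              exact absurd h1 hew
        · rintro (h1 | ⟨h1, k, hk, h2⟩)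
          · exact Or.inl h1
          · exact Or.inr ⟨h1, hω h1, k, by omega, h2⟩
      · rw [DEnv.after_α, ht, X.cor_succ, hα]
        refine pv_eq_of ?_
        refine ⟨fun h => ?_, fun h => absurd h (notMem_empty _)⟩
        rcases mem_union.1 h with h | h
        · exact absurd h hew
        · exact absurd h heW

end

end Pool.Agent.H42.Q1
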