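import Mathlib
import Pool.Agent.H42.Q1.Nx
import Pool.Agent.Q1.M3.Step

set_option autoImplicit false
open Finset

/-! # M3, B5: routes to the base outside a small box -/

namespace Pool.Agent.H42.Q1

open Pool.Agent.H75.Perc Pool.Agent.H75.TwoArm Pool.Agent.H75.Four Pool.Agent.H99.NC
open Pool.Agent.H69.Q1 Pool.Agent.H39.Q1 Pool.Agent.H28.Q1
open Pool.Agent.Q1.M3
open Pool.Agent.H81.Q1 (pt)

/-- Labels of the edges with both ends outside a region, inside `S`. -/
noncomputable def outP (K S : Finset (ℤ × ℤ)) (a b c d : ℤ) : Finset (ℤ × ℤ) :=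
  open Classical in kap (K.filter fun v => ¬ RB a b c d v) ∩ S

lemma kap_mono {K K' : Finset (ℤ × ℤ)} (h : K ⊆ K') : kap K ⊆ kap K' := by
  intro e he
  have ho : (e.1 + e.2) % 2 = 1 := odd_star (mem_filter.1 he).1
  rw [mem_kap_iff ho] at he ⊢
  exact ⟨h he.1, h he.2⟩

lemma outP_ends {K S : Finset (ℤ × ℤ)} {a b c d : ℤ} {p : ℤ × ℤ} (hp : p ∈ outP K S a b c d) :
    ¬ RB a b c d (eu p) ∧ ¬ RB a b c d (ev p) := by
  classical
  unfold outP at hp
  have h1 := (mem_inter.1 hp).1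
  have ho : (p.1 + p.2) % 2 = 1 := odd_star (mem_filter.1 h1).1
  rw [mem_kap_iff ho, mem_filter, mem_filter] at h1
  exact ⟨h1.1.2, h1.2.2⟩

lemma outP_sub {K S : Finset (ℤ × ℤ)} {a b c d : ℤ} : outP K S a b c d ⊆ S := by
  classical
  exact inter_subset_right

/-- **Routes to the base outside a small box.** `C` is a connected family of fat cells, `N'` a set of
vertices away from the box; the vertex `β` of `N'` is joined to the cells inside
`kap (Vn C ∪ N') ∩ S`. -/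
theorem small_route {δ : ℝ} (hδ : 0 < δ) {o : ℂ} {k : ℕ} (hδk : δ < mesh (k + 1)) {C : Finset Cell}
    (hC : ∀ q ∈ C, q.1 ≤ k) {q0 : Cell}
    (hconn : ∀ q ∈ C, Relation.ReflTransGen (fun x y => AdjC o x y ∧ x ∈ C ∧ y ∈ C) q q0)
    {N' S : Finset (ℤ × ℤ)} (hS : kap (Vn δ o C) ⊆ S) {a b c d : ℤ}
    (hx : ((b - a : ℤ) : ℝ) + 2 < mesh (k + 1) / δ) (hy : ((d - c : ℤ) : ℝ) + 2 < mesh (k + 1) / δ)
    (hN' : ∀ v ∈ N', ¬ RB (a - 1) (b + 1) (c - 1) (d + 1) v) {β w0 : ℤ × ℤ} (hβ : β ∈ N')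
    (hw0 : w0 ∈ Vn δ o C) (hβw : Co (kap (Vn δ o C ∪ N') ∩ S) β w0) {u : ℤ × ℤ}
    (hu : u ∈ Vn δ o C) (hu' : ¬ RB a b c d u) : Co (outP (Vn δ o C ∪ N') S a b c d) u β := by
  classical
  set K := Vn δ o C ∪ N' with hK
  -- vertices of the cells outside the box are joined
  have key : ∀ u w : ℤ × ℤ, u ∈ Vn δ o C → ¬ RB a b c d u → w ∈ Vn δ o C → ¬ RB a b c d w →
      Co (outP K S a b c d) u w := by
    intro u w hu hu' hw hw'
    obtain ⟨q, hq, hqu⟩ := mem_Vn.1 hu
    obtain ⟨q', hq', hqw⟩ := mem_Vn.1 hw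
    have hsym : ∀ q q', Relation.ReflTransGen (fun x y => AdjC o x y ∧ x ∈ C ∧ y ∈ C) q q' →
        Relation.ReflTransGen (fun x y => AdjC o x y ∧ x ∈ C ∧ y ∈ C) q' q := by
      intro q q' h
      induction h with
      | refl => exact Relation.ReflTransGen.refl
      | tail _ h2 ih =>
        refine Relation.ReflTransGen.head ⟨?_, h2.2.2, h2.2.1⟩ ih
        have := h2.1
        unfold AdjC at this ⊢
        rwa [Set.inter_comm]
    have hr := route hδ hδk hC (K := (Vn δ o C).filter fun v => ¬ RB a b c d v) hx hy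
      (fun q hq v hv h => mem_filter.2 ⟨mem_Vn.2 ⟨q, hq, hv⟩, h⟩) hq
      ((hconn q hq).trans (hsym _ _ (hconn q' hq'))) hqu hu' hqw hw'
    refine hr.mono fun e he => ?_
    unfold outP
    rw [mem_inter]
    refine ⟨kap_mono (filter_subset_filter _ subset_union_left) he, hS ?_⟩
    exact kap_mono (filter_subset _ _) he
  -- the way from `β` to the cells
  have hwalk : ∀ v, Co (kap K ∩ S) β v →
      (v ∈ N' ∧ Co (outP K S a b c d) β v) ∨
      ∃ w ∈ Vn δ o C, ¬ RB a b c d w ∧ Co (outP K S a b c d) β w := by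
    intro v hv
    induction hv with
    | refl => exact Or.inl ⟨hβ, Co.refl _ _⟩
    | @tail x y _ hxy ih =>
      rcases ih with ⟨h1, h2⟩ | h1
      · obtain ⟨h3, h4⟩ := hxy
        obtain ⟨h5, h6⟩ := ends_add h3
        have h7 := (mem_inter.1 h4).1
        rw [mem_kap_iff h5] at h7
        have hyK : y ∈ K := by
          rcases h6 with ⟨h8, h9⟩ | ⟨h8, h9⟩ <;> rw [h8, h9] at h7
          · exact h7.2
          · exact h7.1
        have hxI := hN' x h1
        have h10 := unit_cases h3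
        have hyI : ¬ RB a b c d y := by
          intro h
          apply hxI
          unfold RB at h ⊢
          omega
        have hxI' : ¬ RB a b c d x := by
          intro h
          apply hxI
          unfold RB at h ⊢
          omega
        have hstep : Co (outP K S a b c d) x y := by
          refine Relation.ReflTransGen.single ⟨h3, ?_⟩
          unfold outP
          rw [mem_inter]
          refine ⟨?_, (mem_inter.1 h4).2⟩
          rw [mem_kap_iff h5, mem_filter, mem_filter]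
          have hxK : x ∈ K := mem_union_right _ h1
          rcases h6 with ⟨h8, h9⟩ | ⟨h8, h9⟩ <;> rw [h8, h9]
          · exact ⟨⟨hxK, hxI'⟩, hyK, hyI⟩
          · exact ⟨⟨hyK, hyI⟩, hxK, hxI'⟩
        rcases mem_union.1 hyK with h8 | h8
        · exact Or.inr ⟨y, h8, hyI, h2.trans hstep⟩
        · exact Or.inl ⟨h8, h2.trans hstep⟩
      · exact Or.inr h1
  rcases hwalk w0 hβw with ⟨h1, h2⟩ | ⟨w, h1, h2, h3⟩
  · have h3 : ¬ RB a b c d w0 := by
      intro h
      apply hN' w0 h1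
      unfold RB at h ⊢
      omega
    exact (key u w0 hu hu' hw0 h3).trans h2.symm
  · exact (key u w hu hu' h1 h2).trans h3.symm

/-- A fat cell contains vertices. -/
lemma verts_nonempty {δ : ℝ} (hδ : 0 < δ) {o : ℂ} {k : ℕ} (hδk : δ < mesh (k + 1)) {q : Cell}
    (hq : q.1 ≤ k) : ∃ v, v ∈ verts δ o q := by
  have hmk : mesh (k + 1) ≤ mesh q.1 := by
    rw [mesh_eq (show q.1 ≤ k + 1 by omega)]
    have h1 : (1 : ℝ) ≤ 3 ^ (k + 1 - q.1) := one_le_pow₀ (by norm_num)
    nlinarith [mesh_pos (k + 1)]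
  have hm := mesh_pos q.1
  have h1k : ((-1 : ℤ) : ℝ) + 2 < mesh (k + 1) / δ := by
    rw [lt_div_iff₀ hδ]; push_cast; linarith
  have h1 := side_le hδ (s := o.re + (q.2.1 - 1 / 3) * mesh q.1)
    (t := o.re + (q.2.1 + 4 / 3) * mesh q.1) (ℓ := mesh (k + 1)) (by nlinarith) h1k
  have h2 := side_le hδ (s := o.im + (q.2.2 - 1 / 3) * mesh q.1)
    (t := o.im + (q.2.2 + 4 / 3) * mesh q.1) (ℓ := mesh (k + 1)) (by nlinarith) h1k
  refine ⟨(⌊(o.re + (q.2.1 - 1 / 3) * mesh q.1) / δ⌋ + 1,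
    ⌊(o.im + (q.2.2 - 1 / 3) * mesh q.1) / δ⌋ + 1), mem_verts_iff.2 ⟨le_rfl, ?_, le_rfl, ?_⟩⟩
  · simp only; omega
  · simp only; omega

/-- Faces of the box. -/
lemma face_box {a b c d : ℤ} (x : ℤ × ℤ) (h : RB (a + 1) b (c + 1) d (fi x)) :
    RB a b c d (vx x) := by
  obtain ⟨p, q⟩ := x
  unfold RB fi at h
  unfold RB vx
  simp only at h ⊢
  omega

section

variable {D : Set ℂ} {a b : ℂ} {A₁ A₂ : Set ℂ} {A : Pool.Agent.H81.Q1.Approx D a b A₁ A₂} {r0 : ℝ}
  (B : Base A r0) {k0 n : ℕ} {X : DEnv} {ω : Finset (ℤ × ℤ)}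

/-- **No small crosscut after a step of the chain.** `X` is an environment of the chain which is not
finished, `Y` the next one, also not finished. The box is small and contains neither vertices of the
barrier part `N'` (nor neighbours of them) nor ends of the label of the tip. Then no dual path of free
labels inside the box joins a face next to a tie `T` (free labels inside the box joined to `vx β`) to
the closed side. -/
theorem base_iso (hD : Bornology.IsBounded D) (hδ : 0 < A.δ n) {k M : ℕ} (hk0 : k0 ≤ k)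
    (hδk : A.δ n < mesh (k + 1)) (hQk : ∀ q ∈ B.Q M, q.1 ≤ k) {N' : Finset (ℤ × ℤ)}
    (hN : B.N n = Vn (A.δ n) B.o (B.Q M) ∪ N') (hqb : B.qb ∈ B.Q M)
    (hI : Inv X) (hω : ω ⊆ X.E) (hfin : ¬ B.Fin n X) (hne : X.α ≠ X.β)
    (hβ : vx X.β ∈ B.N n) (hβN : vx X.β ∈ N') (hQE : star (Vn (A.δ n) B.o (B.Q M)) ⊆ X.E)
    (hconn : ∀ u ∈ B.N n, ∀ v ∈ B.N n, Co (kap (B.N n) ∩ (X.E ∪ X.W)) u v)
    (hα : vx X.α ∉ B.F k0 n X.E) (hfinY : ¬ B.Fin n ((B.rules k0 n).nenv X ω))
    {p q r s : ℤ} (hx : ((q - p : ℤ) : ℝ) + 2 < mesh (k + 1) / A.δ n)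
    (hy : ((s - r : ℤ) : ℝ) + 2 < mesh (k + 1) / A.δ n)
    (hN' : ∀ v ∈ N', ¬ RB (p - 1) (q + 1) (r - 1) (s + 1) v)
    (htip : ¬ RB p q r s (eu (lab ((B.rules k0 n).nenv X ω).α)) ∧
      ¬ RB p q r s (ev (lab ((B.rules k0 n).nenv X ω).α)))
    {T : Finset (ℤ × ℤ)} (hT : T ⊆ ((B.rules k0 n).nenv X ω).E)
    (hTI : ∀ t ∈ T, RB p q r s (eu t) ∧ RB p q r s (ev t))
    (hTv : ∀ t ∈ T, Co (T ∪ ((B.rules k0 n).nenv X ω).W) (vx X.β) (eu t)) {z z' f : ℤ × ℤ}
    (hz : IsUnit4 (z' - z)) (hzT : z + z' - (1, 1) ∈ T) (hNz : RB (p + 1) q (r + 1) s z)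
    (hp : CoX (du ((B.rules k0 n).nenv X ω).E ∅) (RB (p + 1) q (r + 1) s) z f)
    (hf : ClJ ((B.rules k0 n).nenv X ω) (fi ((B.rules k0 n).nenv X ω).α) f) : False := by
  classical
  obtain ⟨m, hm, v, hv, h1, h2, hw, h3, h4, -, -, -, ht, h8, -⟩ :=
    B.step_spec (k0 := k0) hfin hω hne hβ hα
  set F := B.F k0 n X.E with hF
  set e := plab (X.cor ω m) with hedef
  have hωE : ω ∩ X.E = ω := inter_eq_left.2 hω
  have ho : (e.1 + e.2) % 2 = 1 := odd_star1 h3
  -- the end `v` of `e` is in a cell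
  have heN : e ∉ star (B.N n) := by
    intro h
    apply hfinY
    unfold Base.Fin
    rw [h8]
    exact h
  have hvU : v ∈ Vn (A.δ n) B.o (Uk D (A.δ n) B.o B.qb k0 X.E) := by
    rcases mem_union.1 hv with h | h
    · exact h
    · exact absurd (star1_sub_star h h3) heN
  have hfree : ∀ c ∈ Uk D (A.δ n) B.o B.qb k0 X.E, c.1 = k0 ∧ Free D (A.δ n) B.o X.E c := fun c hc =>
    ((mem_Uk hD).1 hc).head
  have hstarU : star (Vn (A.δ n) B.o (Uk D (A.δ n) B.o B.qb k0 X.E)) ⊆ X.E := by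
    intro l hl
    obtain ⟨u, hu, h5⟩ := mem_star.1 hl
    obtain ⟨c, hc, h6⟩ := mem_Vn.1 hu
    exact (hfree c hc).2.2 (star1_sub_star h6 h5)
  have heE : e ∈ X.E := hstarU (star1_sub_star hvU h3)
  have hS := succ_of_tau ((B.rules k0 n).ad X) hω hm ht heE (fun j hj h5 => h2 j hj (by
    rw [h5]; exact h1))
  have hnenv : (B.rules k0 n).nenv X ω = X.after ((B.rules k0 n).Q X) ((B.rules k0 n).ad X) ω hω := by
    unfold Rules.nenv
    congr 1
  rw [hnenv] at hT hTv hp hf htip h8 hfinY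
  set Y := X.after ((B.rules k0 n).Q X) ((B.rules k0 n).ad X) ω hω with hY
  set Z := atm X ω hω m with hZ
  have hIZ : Inv Z := hI.after _ hω
  have hIY : Inv Y := hI.after _ hω
  have hZα : Z.α = X.cor ω m := atm_α hω hm.le
  -- labels of `star F` are not met before
  have hstay : ∀ l, l ∈ star F → l ∈ X.E ∪ X.W → l ∈ Z.E ∪ Z.W := by
    intro l h5 h6
    rw [mem_union] at h6 ⊢
    rcases h6 with h6 | h6
    · left
      rw [hZ, mem_atm_E hω hm.le]
      exact ⟨h6, fun j hj h7 => h2 j hj (by rw [h7]; exact h5)⟩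
    · right
      rw [hZ, mem_atm_W hω hm.le]
      exact Or.inl h6
  -- the family of cells
  set C : Finset Cell := Uk D (A.δ n) B.o B.qb k0 X.E ∪ B.Q M with hC
  have hVC : Vn (A.δ n) B.o C = Vn (A.δ n) B.o (Uk D (A.δ n) B.o B.qb k0 X.E) ∪
      Vn (A.δ n) B.o (B.Q M) := Vn_union _ _
  have hVF : Vn (A.δ n) B.o C ∪ N' = F := by
    rw [hVC, hF]
    unfold Base.F
    rw [hN, union_assoc]
  have hCk : ∀ c ∈ C, c.1 ≤ k := by
    intro c hc
    rcases mem_union.1 hc with h5 | h5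
    · rw [(hfree c h5).1]; exact hk0
    · exact hQk c h5
  have hCconn : ∀ c ∈ C, Relation.ReflTransGen (fun x y => AdjC B.o x y ∧ x ∈ C ∧ y ∈ C) c B.qb := by
    intro c hc
    rcases mem_union.1 hc with h5 | h5
    · have h6 := (mem_Uk hD).1 h5
      refine ConnC.induct (P := fun c => Relation.ReflTransGen
        (fun x y => AdjC B.o x y ∧ x ∈ C ∧ y ∈ C) c B.qb) ?_ ?_ h6
      · intro c hc1 hc2 hc3
        exact Relation.ReflTransGen.single ⟨hc3, mem_union_left _ ((mem_Uk hD).2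
          (ConnC.single hc1 hc2 hc3)), mem_union_right _ hqb⟩
      · intro c c' hc1 hc2 hc3 hc4 hc5
        exact Relation.ReflTransGen.head ⟨hc3, mem_union_left _ ((mem_Uk hD).2
          (ConnC.cons hc1 hc2 hc3 hc4)), mem_union_left _ ((mem_Uk hD).2 hc4)⟩ hc5
    · refine Relation.ReflTransGen.mono ?_ _ _ (B.connQ M c h5 B.qb hqb)
      rintro x y ⟨h6, h7, h8⟩
      exact ⟨h6, mem_union_right _ h7, mem_union_right _ h8⟩
  have hkapS : kap (Vn (A.δ n) B.o C) ⊆ Z.E ∪ Z.W := by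
    intro l hl
    have h5 : l ∈ star (Vn (A.δ n) B.o C) := (mem_filter.1 hl).1
    refine hstay l ?_ (mem_union_left _ ?_)
    · rw [← hVF, star_union]; exact mem_union_left _ h5
    · rw [hVC, star_union, mem_union] at h5
      rcases h5 with h5 | h5
      · exact hstarU h5
      · exact hQE h5
  -- a vertex of the barrier in the cells
  obtain ⟨w0, hw0⟩ : ∃ w0, w0 ∈ Vn (A.δ n) B.o (B.Q M) := by
    obtain ⟨w0, h5⟩ := verts_nonempty (o := B.o) hδ hδk (hQk _ hqb)
    exact ⟨w0, mem_Vn.2 ⟨_, hqb, h5⟩⟩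
  have hβw : Co (kap (Vn (A.δ n) B.o C ∪ N') ∩ (Z.E ∪ Z.W)) (vx X.β) w0 := by
    refine (hconn _ hβ w0 (by rw [hN]; exact mem_union_left _ hw0)).mono fun l hl => ?_
    rw [mem_inter] at hl ⊢
    have hNF : B.N n ⊆ F := subset_union_right
    refine ⟨by rw [hVF]; exact kap_mono hNF hl.1, hstay l (star_mono hNF (mem_filter.1 hl.1).1) hl.2⟩
  -- the ends of the label of the tip
  have hends : ¬ RB p q r s v ∧ ¬ RB p q r s (vx (X.cor ω m)) := by
    rw [h8] at htip
    have h5 := (mem_star1_iff ho).1 h3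
    have h6 := (mem_star1_iff ho).1 (plab_star1 (X.cor ω m))
    constructor
    · rcases h5 with h5 | h5 <;> rw [h5]
      · exact htip.1
      · exact htip.2
    · rcases h6 with h6 | h6 <;> rw [h6]
      · exact htip.1
      · exact htip.2
  have hroute := small_route hδ hδk hCk hCconn hkapS hx hy hN' hβN
    (w0 := w0) (by rw [hVC]; exact mem_union_right _ hw0) hβw
    (u := v) (by rw [hVC]; exact mem_union_left _ hvU) hends.1
  have hvpv : vx (pvf Z.α) = v := by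
    have h5 := vx_nxO (pvf Z.α)
    have h6 : nxO (pvf Z.α) = Z.α :=
      (Pool.Agent.H75.TwoArm.StrandAux.nx_pv_aux {plab Z.α} Z.α).1 (mem_singleton_self _)
    rw [h6, (pvf_spec Z.α).2, hZα, ← hedef, h4] at h5
    rw [hZα]
    exact add_right_cancel h5.2
  have hYne : Y.α ≠ Y.β := by
    intro h5
    apply hfinY
    unfold Base.Fin
    rw [h5]
    exact star1_sub_star hβ (lab_star1 _)
  refine step_iso hIZ hIY hS hYne (In := RB p q r s) (N := RB (p + 1) q (r + 1) s)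
    (fun x hx => face_box x hx) (by rw [hZα]; exact hends.2) (P := outP (Vn (A.δ n) B.o C ∪ N')
      (Z.E ∪ Z.W) p q r s) outP_sub (fun l hl => outP_ends hl) (by rw [hvpv]; exact hends.1) ?_ hT
    hTI hTv hz hzT hNz hp hf
  rw [hvpv]
  exact hroute

end

end Pool.Agent.H42.Q1
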