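import Pool.Agent.H42.Q1.OneC
import Pool.Agent.Q1.M3.Asm.BadN
import Pool.Agent.H21.Q1.StE

set_option autoImplicit false
open Finset Filter Topology

/-! # The comparison for the states `j ≥ 1` -/

namespace Pool.Agent.H42.Q1

open Pool.Agent.H75.Perc hiding WL
open Pool.Agent.H75.TwoArm Pool.Agent.H75.Four Pool.Agent.H99.NC
open Pool.Agent.H69.Q1 Pool.Agent.H39.Q1 Pool.Agent.H28.Q1
open Pool.Agent.Q1.M3 hiding denv_ext fat_sub_cfat
open Pool.Agent.Q1.M3.Pg hiding ends_add Gen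
open Pool.Agent.Q1.M3.Asm (Cmp1 StOne Cut Bad)
open Pool.Agent.H81.Q1 (pt Approx IsJordanDomain IsArcs)
open Pool.Agent.H21.Q1 (StD Root per Ev)
open Pool.Agent.Q1.M4 (nextSide)

/-- **[The comparison for one state.]** -/
def StDCmp : Prop := ∃ δ0 : ℝ, 0 < δ0 ∧ δ0 < 1 ∧
  ∀ (d : SD) (o : ℂ) (δ : ℝ) (X Y : DEnv) (Kv τ A : Finset (ℤ × ℤ)) (p0 : ℕ) (p b : ℂ)
    (ρ ρK εN : ℝ) (k : ℕ) (r : ℤ), StD d o δ X Y Kv τ A p0 p b ρ ρK εN k r →
    ∀ j0 t, Root X Kv j0 t → ∀ y m k2, j0 < y → y ≤ per X Kv → m ≤ d.h → Cut d o δ X Kv y m →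
      2 * 4 ^ k2 + 4 ≤ mesh (d.K + 1) / δ →
      |Pr X.E (Ev X Kv j0 t y) - d.gg (LX d.K o.re δ) (LX d.K o.im δ) m| ≤
        εN + 6 * (1 - δ0) ^ k + (d.h + 1) * (1 - δ0) ^ k2

theorem stDCmp : StDCmp := by
  obtain ⟨δ0, h0⟩ := Pool.Agent.H21.Q1.exists_Dcy
  refine ⟨δ0, h0.1, h0.2.1, ?_⟩
  intro d o δ X Y Kv τ A p0 p b ρ ρK εN k r H j0 t hR y m k2 h1 h2 h3 h4 h5
  exact H.cmp h0 hR h1 h2 h3 h4 h5

/-- A walk has at most four sides for each cell. -/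
lemma walk_le {Q : Finset (ℤ × ℤ)} {s : (ℤ × ℤ) × ℤ} {N : ℕ} (hs : Pool.Agent.Q1.M4.IsSide Q s)
    (h : WalkN Q s N) : N ≤ 4 * Q.card := by
  classical
  have h1 : ((range N).image fun n => (((nextSide Q)^[n] s).1, ((nextSide Q)^[n] s).2 % 4)).card =
      N := by
    rw [card_image_of_injOn, card_range]
    intro n hn n' hn' he
    rw [mem_coe, mem_range] at hn hn'
    simp only [Prod.mk.injEq] at he
    exact h.inj n hn n' hn' he.1 (by omega)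
  have h2 : ((range N).image fun n => (((nextSide Q)^[n] s).1, ((nextSide Q)^[n] s).2 % 4)) ⊆
      Q ×ˢ Ico (0 : ℤ) 4 := by
    intro x hx
    obtain ⟨n, -, rfl⟩ := mem_image.1 hx
    rw [mem_product, Finset.mem_Ico]
    exact ⟨(Pool.Agent.Q1.M4.isSide_iter hs n).1, by simp only; omega, by simp only; omega⟩
  have h3 := card_le_card h2
  rw [h1, card_product] at h3
  simp at h3
  omega

lemma h_le {d : SD} (h : d.Ok) : d.h ≤ 4 * d.P.card := by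
  have h1 := walk_le h.side h.mark.walk
  have h2 : d.R.card ≤ d.P.card := card_le_card (SD.R_sub.trans sdiff_subset)
  have h3 := h.mark.le'
  unfold SD.h
  omega

section

variable {D : Set ℂ} {a b : ℂ} {A₁ A₂ : Set ℂ} {A : Approx D a b A₁ A₂} {r0 : ℝ} (B : Base A r0)

/-- The size of the regions is bounded. -/
lemma exists_bd (hDb : Bornology.IsBounded D) (k0 k K M : ℕ) : ∃ Bd : ℕ, ∀ (n : ℕ)
    (E : Finset (ℤ × ℤ)) (C : Finset Cell) (BB : Cell) (z : ℂ) (s : (ℤ × ℤ) × ℤ),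
    C ⊆ Ule D (A.δ n) B.o B.qb k0 k E → (mkSD B K (A.δ n) E C M BB z s).Ok →
    (mkSD B K (A.δ n) E C M BB z s).h ≤ Bd := by
  classical
  refine ⟨4 * ((cells D B.o K ∪ (cellsLe D B.o k0 k ∪ B.Q M)).powerset.sup
    fun G => (fill (flat K G)).card), fun n E C BB z s hC hok => ?_⟩
  refine (h_le hok).trans (Nat.mul_le_mul_left 4 ?_)
  have h1 : Uk D (A.δ n) B.o B.qb K E ∪ (C ∪ B.Q M) ⊆
      cells D B.o K ∪ (cellsLe D B.o k0 k ∪ B.Q M) :=
    union_subset_union (Uk_sub_cells hDb) (union_subset_union (hC.trans (Ule_sub_cellsLe hDb))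
      (subset_refl _))
  exact Finset.le_sup (f := fun G => (fill (flat K G)).card) (mem_powerset.2 h1)

/-- **The comparison for the states `j ≥ 1`.** -/
theorem stOne_of (hCmp : StDCmp) (hD : IsJordanDomain D) (hA : IsArcs D a b A₁ A₂)
    (hr : r0 < dist a b) (k0 : ℕ) : StOne B k0 := by
  classical
  have hDo := hD.1
  have hDb := hD.2.2.1
  obtain ⟨δ0, hδ0, hδ1, hC⟩ := hCmp
  obtain ⟨k1, hk1, hS⟩ := stD_mk B hD hA hr k0
  refine ⟨k1, hk1, ?_⟩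
  intro k hk ρG hρG ε hε
  obtain ⟨ks, hks⟩ := exists_pow_lt_of_lt_one (show (0 : ℝ) < ε / 18 by positivity)
    (by linarith : 1 - δ0 < 1)
  obtain ⟨ρ, hρ, ρK, hρK, r, hr0, hS⟩ := hS k hk ρG hρG (ε / 3) (by positivity) ks
  refine ⟨r, hr0, fun BB hbB hBr => ?_⟩
  filter_upwards [hS BB hbB hBr] with M hS z hz hzq
  obtain ⟨K1, hS⟩ := hS z hz hzq
  refine ⟨K1, fun K hK => ?_⟩
  obtain ⟨Bd, hBd⟩ := exists_bd B hDb k0 k K M
  obtain ⟨k2, hk2⟩ := exists_pow_lt_of_lt_one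
    (show (0 : ℝ) < ε / (3 * (Bd + 1)) by positivity) (by linarith : 1 - δ0 < 1)
  have e1 : ∀ᶠ n in atTop, A.δ n < mesh (K + 1) / (2 * 4 ^ k2 + 4) :=
    A.lim.eventually_lt_const (by have := mesh_pos (K + 1); positivity)
  filter_upwards [hS K hK, e1, Pool.Agent.Q1.M3.Asm.bad_succ B hDo hDb hA hr k0 hε] with n hS h1 h2
    ω hω j hfin hgood C hCU hCl hLv
  obtain ⟨Z, τ, T, p, r', hst⟩ := hS ω hω j hfin hgood C hCU hCl hLv
  have hδ := A.pos n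
  refine ⟨⟨Z, τ, T, 2, hst.td, hst.YW⟩, ?_, ?_⟩
  · intro j0 t hR y m h3 h4 h5 h6
    have h7 : 2 * 4 ^ k2 + 4 ≤ mesh (K + 1) / A.δ n := by
      rw [lt_div_iff₀ (by positivity)] at h1
      rw [le_div_iff₀ hδ]
      linarith
    refine (hC _ _ _ _ _ _ _ _ _ _ _ _ _ _ _ _ hst j0 t hR y m k2 h3 h4 h5 h6 h7).trans ?_
    have h8 := hBd n (B.X k0 n (j + 1) ω).E C BB z _ hCl hst.td.ok
    have h9 := (Nat.cast_le (α := ℝ)).2 h8
    have h10 : (0 : ℝ) < (1 - δ0) ^ k2 := pow_pos (by linarith) _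
    rw [lt_div_iff₀ (by positivity)] at hk2
    have h11 := mul_le_mul_of_nonneg_right (add_le_add_left h9 1) h10.le
    linarith
  · refine h2 j ω hω hfin C ?_
    intro l hl
    obtain ⟨u, hu, h9⟩ := mem_star.1 hl
    obtain ⟨q, hq, h10⟩ := mem_Vn.1 hu
    exact (Ule_free hDb (hCl hq)).2 (star1_sub_star h10 h9)

/-- **The comparison for the states `j ≥ 1`.** -/
theorem stOne (hD : IsJordanDomain D) (hA : IsArcs D a b A₁ A₂) (hr : r0 < dist a b) (k0 : ℕ) :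
    StOne B k0 :=
  stOne_of B stDCmp hD hA hr k0

end

end Pool.Agent.H42.Q1
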