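import Mathlib
import Pool.Agent.Q1.M3.Geo

set_option autoImplicit false
open Set Filter Topology

/-! # Families of fat cells which cover a compact set

`exists_cells` : a compact subset of a connected open set `U` is covered by a connected family of fat
cells of the same level with closures in `U`. -/

namespace Pool.Agent.H42.Q1

open Pool.Agent.Q1.M3

/-- A compact subset of a connected open set is contained in a connected compact subset. -/
lemma exists_connected_compact {U K : Set ℂ} (hU : IsOpen U) (hc : IsPreconnected U)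
    (hK : IsCompact K) (hKU : K ⊆ U) : ∃ K', IsCompact K' ∧ IsPreconnected K' ∧ K ⊆ K' ∧ K' ⊆ U := by
  classical
  rcases K.eq_empty_or_nonempty with rfl | ⟨x0, hx0⟩
  · exact ⟨∅, isCompact_empty, isPreconnected_empty, subset_rfl, empty_subset _⟩
  have hpc : IsPathConnected U := (hU.isConnected_iff_isPathConnected).1 ⟨⟨x0, hKU hx0⟩, hc⟩
  have h1 : ∀ x ∈ U, ∃ r > 0, Metric.closedBall x r ⊆ U := fun x hx =>
    Metric.nhds_basis_closedBall.mem_iff.1 (hU.mem_nhds hx)
  choose! r hr hrU using h1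
  obtain ⟨t, htK, ht⟩ := hK.elim_nhds_subcover (fun x => Metric.ball x (r x))
    (fun x hx => Metric.ball_mem_nhds x (hr x (hKU hx)))
  have h2 : ∀ x ∈ U, JoinedIn U x0 x := fun x hx => hpc.joinedIn x0 (hKU hx0) x hx
  set A : ℂ → Set ℂ := fun x => if h : x ∈ U then
    Metric.closedBall x (r x) ∪ range (h2 x h).somePath else ∅ with hA
  refine ⟨⋃ x ∈ t, A x, ?_, ?_, ?_, ?_⟩
  · refine t.finite_toSet.isCompact_biUnion fun x hx => ?_
    have hxU := hKU (htK x hx)
    simp only [hA, dif_pos hxU]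
    exact (isCompact_closedBall x (r x)).union (isCompact_range (h2 x hxU).somePath.continuous)
  · have : (⋃ x ∈ t, A x) = ⋃₀ (A '' t) := by rw [sUnion_image]; rfl
    rw [this]
    refine isPreconnected_sUnion x0 _ ?_ ?_
    · rintro _ ⟨x, hx, rfl⟩
      have hxU := hKU (htK x hx)
      simp only [hA, dif_pos hxU]
      exact Or.inr ⟨0, (h2 x hxU).somePath.source⟩
    · rintro _ ⟨x, hx, rfl⟩
      have hxU := hKU (htK x hx)
      simp only [hA, dif_pos hxU]
      refine IsPreconnected.union x (Metric.mem_closedBall_self (hr x hxU).le)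
        ⟨1, (h2 x hxU).somePath.target⟩ (convex_closedBall x (r x)).isPreconnected ?_
      exact (isPreconnected_range (h2 x hxU).somePath.continuous)
  · intro z hz
    obtain ⟨x, hx, hzx⟩ := mem_iUnion₂.1 (ht hz)
    have hxU := hKU (htK x hx)
    refine mem_iUnion₂.2 ⟨x, hx, ?_⟩
    simp only [hA, dif_pos hxU]
    exact Or.inl (Metric.ball_subset_closedBall hzx)
  · refine iUnion₂_subset fun x hx => ?_
    have hxU := hKU (htK x hx)
    simp only [hA, dif_pos hxU]
    refine union_subset (hrU x hxU) ?_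
    rintro _ ⟨s, rfl⟩
    exact (h2 x hxU).somePath_mem s

/-- the fat cell is open -/
lemma isOpen_fat (o : ℂ) (q : Cell) : IsOpen (fat o q) := by
  unfold fat
  refine (isOpen_lt continuous_const Complex.continuous_re).inter
    ((isOpen_lt Complex.continuous_re continuous_const).inter
    ((isOpen_lt continuous_const Complex.continuous_im).inter
    (isOpen_lt Complex.continuous_im continuous_const)))

/-- two points of a closed fat cell are close -/
lemma dist_cfat {o : ℂ} {q : Cell} {z w : ℂ} (hz : z ∈ cfat o q) (hw : w ∈ cfat o q) :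
    dist z w ≤ 4 * mesh q.1 := by
  obtain ⟨h1, h2, h3, h4⟩ := hz
  obtain ⟨g1, g2, g3, g4⟩ := hw
  have hm := mesh_pos q.1
  rw [Complex.dist_eq]
  refine (Complex.norm_le_abs_re_add_abs_im _).trans ?_
  have e1 : |(z - w).re| ≤ 5 / 3 * mesh q.1 := by
    rw [Complex.sub_re, abs_le]
    constructor <;> nlinarith
  have e2 : |(z - w).im| ≤ 5 / 3 * mesh q.1 := by
    rw [Complex.sub_im, abs_le]
    constructor <;> nlinarith
  linarith

lemma fat_sub_cfat (o : ℂ) (q : Cell) : fat o q ⊆ cfat o q := by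
  rintro z ⟨h1, h2, h3, h4⟩
  exact ⟨h1.le, h2.le, h3.le, h4.le⟩

/-- every point is in a fat cell of every level -/
lemma exists_fat (o z : ℂ) (k : ℕ) : ∃ q : Cell, q.1 = k ∧ z ∈ fat o q := by
  have hm := mesh_pos k
  refine ⟨(k, ⌊(z.re - o.re) / mesh k⌋, ⌊(z.im - o.im) / mesh k⌋), rfl, ?_⟩
  have e : ∀ x y : ℝ, y + (⌊(x - y) / mesh k⌋ - 1 / 3) * mesh k < x ∧
      x < y + (⌊(x - y) / mesh k⌋ + 4 / 3) * mesh k := by
    intro x y
    have h1 := Int.floor_le ((x - y) / mesh k)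
    have h2 := Int.lt_floor_add_one ((x - y) / mesh k)
    rw [le_div_iff₀ hm] at h1
    rw [div_lt_iff₀ hm] at h2
    constructor <;> nlinarith
  exact ⟨(e z.re o.re).1, (e z.re o.re).2, (e z.im o.im).1, (e z.im o.im).2⟩

lemma AdjC.symm {o : ℂ} {q q' : Cell} (h : AdjC o q q') : AdjC o q' q := by
  unfold AdjC at h ⊢
  rwa [inter_comm]

/-- The cells of level `k` which meet a bounded set are finite in number. -/
lemma finite_meet {K : Set ℂ} (hK : Bornology.IsBounded K) (o : ℂ) (k : ℕ) :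
    {q : Cell | q.1 = k ∧ (fat o q ∩ K).Nonempty}.Finite := by
  have h1 : Bornology.IsBounded (Metric.cthickening (4 * mesh k) K) := hK.cthickening
  refine (cells_finite h1 o k).subset ?_
  rintro q ⟨h2, z, hz, hzK⟩
  refine ⟨h2, fun w hw => ?_⟩
  refine Metric.mem_cthickening_of_dist_le w z _ _ hzK ?_
  rw [← h2]
  exact dist_cfat hw (fat_sub_cfat o q hz)

/-- **Connected families of cells.** -/
theorem exists_cells {U K : Set ℂ} (hU : IsOpen U) (hc : IsPreconnected U) (hK : IsCompact K)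
    (hKU : K ⊆ U) (o : ℂ) : ∃ k1, ∀ k, k1 ≤ k → ∃ C : Finset Cell,
      (∀ q ∈ C, q.1 = k ∧ cfat o q ⊆ U) ∧ (∀ z ∈ K, ∃ q ∈ C, z ∈ fat o q) ∧
      ∀ q ∈ C, ∀ q' ∈ C, Relation.ReflTransGen (fun x y => AdjC o x y ∧ x ∈ C ∧ y ∈ C) q q' := by
  classical
  obtain ⟨K', hK', hc', hKK', hK'U⟩ := exists_connected_compact hU hc hK hKU
  obtain ⟨r, hr, hrU⟩ := hK'.exists_cthickening_subset_open hU hK'U
  obtain ⟨k1, hk1⟩ : ∃ k1 : ℕ, 4 * mesh k1 ≤ r := by
    obtain ⟨k1, hk1⟩ := exists_pow_lt_of_lt_one (show 0 < r / 4 by positivity)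
      (show (1 / 3 : ℝ) < 1 by norm_num)
    exact ⟨k1, by unfold mesh; linarith⟩
  refine ⟨k1, fun k hk => ?_⟩
  have hmk : mesh k ≤ mesh k1 := by
    unfold mesh
    exact pow_le_pow_of_le_one (by norm_num) (by norm_num) hk
  have hfin := finite_meet hK'.isBounded o k
  set C : Finset Cell := hfin.toFinset with hC
  have hmem : ∀ q, q ∈ C ↔ q.1 = k ∧ (fat o q ∩ K').Nonempty := fun q => by
    rw [hC, Set.Finite.mem_toFinset]; rfl
  refine ⟨C, ?_, ?_, ?_⟩
  · intro q hq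
    obtain ⟨h1, z, hz, hzK⟩ := (hmem q).1 hq
    refine ⟨h1, fun w hw => hrU ?_⟩
    refine Metric.mem_cthickening_of_dist_le w z _ _ hzK ?_
    refine (dist_cfat hw (fat_sub_cfat o q hz)).trans ?_
    rw [h1]
    linarith
  · intro z hz
    obtain ⟨q, h1, h2⟩ := exists_fat o z k
    exact ⟨q, (hmem q).2 ⟨h1, z, h2, hKK' hz⟩, h2⟩
  · intro q hq
    by_contra hcon
    push Not at hcon
    obtain ⟨q', hq', hnot⟩ := hcon
    set R : Cell → Cell → Prop := fun x y => AdjC o x y ∧ x ∈ C ∧ y ∈ C with hR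
    set U1 : Set ℂ := ⋃ x ∈ {x | x ∈ C ∧ Relation.ReflTransGen R q x}, fat o x with hU1
    set U2 : Set ℂ := ⋃ x ∈ {x | x ∈ C ∧ ¬ Relation.ReflTransGen R q x}, fat o x with hU2
    have hU1o : IsOpen U1 := isOpen_biUnion fun x _ => isOpen_fat o x
    have hU2o : IsOpen U2 := isOpen_biUnion fun x _ => isOpen_fat o x
    have hcov : K' ⊆ U1 ∪ U2 := by
      intro z hz
      obtain ⟨x, h1, h2⟩ := exists_fat o z k
      have hx : x ∈ C := (hmem x).2 ⟨h1, z, h2, hz⟩
      by_cases h3 : Relation.ReflTransGen R q x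
      · exact Or.inl (mem_iUnion₂.2 ⟨x, ⟨hx, h3⟩, h2⟩)
      · exact Or.inr (mem_iUnion₂.2 ⟨x, ⟨hx, h3⟩, h2⟩)
    have h1 : (K' ∩ U1).Nonempty := by
      obtain ⟨-, z, hz, hzK⟩ := (hmem q).1 hq
      exact ⟨z, hzK, mem_iUnion₂.2 ⟨q, ⟨hq, Relation.ReflTransGen.refl⟩, hz⟩⟩
    have h2 : (K' ∩ U2).Nonempty := by
      obtain ⟨-, z, hz, hzK⟩ := (hmem q').1 hq'
      exact ⟨z, hzK, mem_iUnion₂.2 ⟨q', ⟨hq', hnot⟩, hz⟩⟩
    obtain ⟨z, hzK, hz1, hz2⟩ := hc' U1 U2 hU1o hU2o hcov h1 h2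
    obtain ⟨x, ⟨hx, hx'⟩, hzx⟩ := mem_iUnion₂.1 hz1
    obtain ⟨y, ⟨hy, hy'⟩, hzy⟩ := mem_iUnion₂.1 hz2
    exact hy' (hx'.tail ⟨⟨z, hzx, hzy⟩, hx, hy⟩)

end Pool.Agent.H42.Q1
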