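import Pool.Agent.H42.Q1.TipM
import Pool.Agent.H5.M7.FillD
import Pool.Agent.Q1.M3.Pg.FreeD

set_option autoImplicit false
open Finset Filter Topology

/-! # The ties of the states of the chain, for large `n`

`sol_state` : the target is solid in a state. `tied_mk` : regularity and ties of the data of the state
`j + 1` for all coarse families. -/

namespace Pool.Agent.H42.Q1

open Pool.Agent.H75.Perc Pool.Agent.H75.TwoArm Pool.Agent.H75.Four Pool.Agent.H99.NC
open Pool.Agent.H69.Q1 Pool.Agent.H39.Q1 Pool.Agent.H28.Q1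
open Pool.Agent.Q1.M3 hiding denv_ext fat_sub_cfat
open Pool.Agent.Q1.M3.Pg hiding ends_add Gen
open Pool.Agent.H81.Q1 (pt Approx IsJordanDomain IsArcs)
open Pool.Agent.H5.M7 (box_bounds adj_of_fc)

/-- The tip side of a state with exit edge at the vertex with unit box `x`, direction `d`. -/
def tsd (x d : ℤ × ℤ) : (ℤ × ℤ) × ℤ :=
  (x - (2 : ℤ) • d, if d = (0, -1) then 0 else if d = (1, 0) then 1 else if d = (0, 1) then 2 else 3)

lemma tsd_dir {x d : ℤ × ℤ} (hd : d ∈ dirs) : dir ((tsd x d).2 - 1) = d := by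
  unfold dirs at hd
  simp only [mem_insert, mem_singleton] at hd
  rcases hd with rfl | rfl | rfl | rfl
  · have e : (tsd x (1, 0)).2 = 1 := by unfold tsd; dsimp only; decide
    rw [e]
    rcases dir_cases (1 - 1) with ⟨h, e'⟩ | ⟨h, e'⟩ | ⟨h, e'⟩ | ⟨h, e'⟩ <;>
      first | exact e' | (exfalso; omega)
  · have e : (tsd x (0, 1)).2 = 2 := by unfold tsd; dsimp only; decide
    rw [e]
    rcases dir_cases (2 - 1) with ⟨h, e'⟩ | ⟨h, e'⟩ | ⟨h, e'⟩ | ⟨h, e'⟩ <;>
      first | exact e' | (exfalso; omega)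
  · have e : (tsd x (-1, 0)).2 = 3 := by unfold tsd; dsimp only; decide
    rw [e]
    rcases dir_cases (3 - 1) with ⟨h, e'⟩ | ⟨h, e'⟩ | ⟨h, e'⟩ | ⟨h, e'⟩ <;>
      first | exact e' | (exfalso; omega)
  · have e : (tsd x (0, -1)).2 = 0 := by unfold tsd; dsimp only; decide
    rw [e]
    rcases dir_cases (0 - 1) with ⟨h, e'⟩ | ⟨h, e'⟩ | ⟨h, e'⟩ | ⟨h, e'⟩ <;>
      first | exact e' | (exfalso; omega)

/-- Vertices with near boxes are near. -/
lemma dist_of_NB {K : ℕ} {o : ℂ} {δ : ℝ} (hg : Gen2 K o δ) {r : ℤ} {u v : ℤ × ℤ}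
    (h : NB r (box δ o K v) (box δ o K u)) :
    dist (pt δ u) (pt δ v) ≤ 2 * (r + 1) * mesh (K + 1) := by
  obtain ⟨⟨a1, a2⟩, a3, a4⟩ := box_bounds hg v
  obtain ⟨⟨b1, b2⟩, b3, b4⟩ := box_bounds hg u
  obtain ⟨h1, h2⟩ := h
  have hη := mesh_pos (K + 1)
  have key : ∀ (a x y : ℝ) (c z : ℤ), gx K a c < x → x < gx K a (c + 1) → gx K a z < y →
      y < gx K a (z + 1) → |z - c| ≤ r → |y - x| ≤ (r + 1) * mesh (K + 1) := by
    intro a x y c z g1 g2 g3 g4 g5
    rw [abs_le] at g5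
    have g6 : ((z - c : ℤ) : ℝ) ≤ r := by exact_mod_cast g5.2
    have g7 : (-(r : ℝ)) ≤ ((z - c : ℤ) : ℝ) := by exact_mod_cast g5.1
    push_cast at g6 g7
    unfold gx at g1 g2 g3 g4
    push_cast at g1 g2 g3 g4
    rw [abs_le]
    constructor <;> nlinarith
  have k1 := key _ _ _ _ _ a1 a2 b1 b2 h1
  have k2 := key _ _ _ _ _ a3 a4 b3 b4 h2
  rw [Complex.dist_eq]
  refine (Complex.norm_le_abs_re_add_abs_im _).trans ?_
  rw [Complex.sub_re, Complex.sub_im]
  linarith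

section

variable {D : Set ℂ} {a b : ℂ} {A₁ A₂ : Set ℂ} {A : Approx D a b A₁ A₂} {r0 : ℝ} (B : Base A r0)
  {k0 n : ℕ} {ω : Finset (ℤ × ℤ)}

/-- **The target is solid in a state which is not finished.** -/
theorem sol_state (hDb : Bornology.IsBounded D) (hω : ω ⊆ (X0 A n).E) {j : ℕ}
    (hfin : ¬ B.Fin n (B.X k0 n j ω))
    (hconn : ∀ u ∈ B.N n, ∀ v ∈ B.N n, Co (kap (B.N n) ∩ ((X0 A n).E ∪ (X0 A n).W)) u v)
    (hqbE : star (verts (A.δ n) B.o B.qb) ⊆ (X0 A n).E)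
    (hqbN : verts (A.δ n) B.o B.qb ⊆ B.N n) {C : Finset Cell} {k K : ℕ}
    (hC : C ⊆ Ule D (A.δ n) B.o B.qb k0 k (B.X k0 n j ω).E) (hL : Lev B.o B.qb C)
    (hk : k ≤ K) (hqK : B.qb.1 ≤ K) (hm : 5 * A.δ n ≤ mesh (K + 1)) :
    ∀ u ∈ Vn (A.δ n) B.o C ∪ B.N n, ∀ w ∈ Vn (A.δ n) B.o C ∪ B.N n,
      Co (kap (Vn (A.δ n) B.o C ∪ B.N n) ∩ ((B.X k0 n j ω).E ∪ (B.X k0 n j ω).W)) u w := by
  classical
  have hδ := A.pos n
  set X := B.X k0 n j ω with hX
  have hqbX : star (verts (A.δ n) B.o B.qb) ⊆ X.E := by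
    intro l hl
    refine mem_E_of B hω j (hqbE hl) fun u hu h => ?_
    refine chain_N B hω j hfin u hu ?_
    rw [h]; exact star_mono hqbN hl
  have hmK : mesh (K + 1) ≤ mesh (B.qb.1 + 1) := by
    rw [Pool.Agent.H42.Q1.mesh_eq (show B.qb.1 + 1 ≤ K + 1 by omega)]
    have h8 : (1 : ℝ) ≤ 3 ^ (K + 1 - (B.qb.1 + 1)) := one_le_pow₀ (by norm_num)
    nlinarith [mesh_pos (K + 1)]
  obtain ⟨v0, hv0⟩ := verts_nonempty (o := B.o) hδ
    (show A.δ n < mesh (B.qb.1 + 1) by linarith [mesh_pos (K + 1)]) (le_refl B.qb.1)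
  have hv0N := hqbN hv0
  set L := kap (Vn (A.δ n) B.o C ∪ B.N n) ∩ (X.E ∪ X.W) with hL'
  -- all vertices are joined to `v0`
  have key : ∀ u ∈ Vn (A.δ n) B.o C ∪ B.N n, Co L u v0 := by
    intro u hu
    rcases mem_union.1 hu with h | h
    · obtain ⟨q, hq, huq⟩ := mem_Vn.1 h
      have h1 := reach_of_conn (F := insert B.qb C) (mem_insert_self _ _)
        (fun x hx => mem_insert_of_mem hx.head.2) (hL q hq)
      have h2 := co_cells hδ (k := K) (by linarith [mesh_pos (K + 1)]) (C := insert B.qb C)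
        (fun p hp => by
          rcases mem_insert.1 hp with h | h
          · rw [h]; exact hqK
          · exact ((mem_Ule hDb).1 (hC h)).2.1.trans hk)
        (mem_insert_of_mem hq) h1 huq hv0
      refine h2.mono ?_
      intro l hl
      have hsub : Vn (A.δ n) B.o (insert B.qb C) ⊆ Vn (A.δ n) B.o C ∪ B.N n := by
        intro x hx
        obtain ⟨p, hp, hxp⟩ := mem_Vn.1 hx
        rcases mem_insert.1 hp with h | h
        · exact mem_union_right _ (hqbN (h ▸ hxp))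
        · exact mem_union_left _ (mem_Vn.2 ⟨p, h, hxp⟩)
      rw [hL', mem_inter]
      refine ⟨kap_mono hsub hl, mem_union_left _ ?_⟩
      obtain ⟨x, hx, h3⟩ := mem_star.1 (mem_filter.1 hl).1
      obtain ⟨p, hp, hxp⟩ := mem_Vn.1 hx
      rcases mem_insert.1 hp with h | h
      · exact hqbX (star1_sub_star (h ▸ hxp) h3)
      · exact (Ule_free hDb (hC h)).2 (star1_sub_star hxp h3)
    · refine (hconn u h v0 hv0N).mono ?_
      intro l hl
      have h3 := kapN_sub B hω j hfin hl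
      rw [mem_inter] at h3
      rw [hL', mem_inter]
      exact ⟨kap_mono subset_union_right h3.1, h3.2⟩
  intro u hu w hw
  exact (key u hu).trans (key w hw).symm

/-- **The data of the state `j + 1` are regular and tied.** -/
theorem tied_mk (hD : IsJordanDomain D) (hA : IsArcs D a b A₁ A₂) (hr : r0 < dist a b) (k0 : ℕ) :
    ∃ s0 > 0, ∃ k1, k0 ≤ k1 ∧ ∀ k, k1 ≤ k → ∀ ρ > 0, ∀ (M : ℕ) (BB : Cell) (z : ℂ),
      b ∈ fat B.o BB → cfat B.o BB ⊆ Metric.ball b s0 → Metric.ball b (B.r M) ⊆ fat B.o BB →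
      z ∈ fat B.o BB → (∃ q ∈ B.Q M, z ∈ fat B.o q) →
      ∃ K1, ∀ K, K1 ≤ K → ∀ᶠ n in atTop, ∀ ω, ω ⊆ (X0 A n).E → ∀ j,
        ¬ B.Fin n (B.X k0 n (j + 1) ω) → B.Good k n ρ (B.X k0 n (j + 1) ω) →
        ∀ C : Finset Cell, C ⊆ Ule D (A.δ n) B.o B.qb k0 k (B.X k0 n (j + 1) ω).E →
          Lev B.o B.qb C →
        ∀ v dd, v = tipv (B.F k0 n (B.X k0 n j ω).E) (lab (B.X k0 n (j + 1) ω).α) →
          dd = tipd (B.F k0 n (B.X k0 n j ω).E) (lab (B.X k0 n (j + 1) ω).α) →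
        ∃ Z τ T, StepD B k0 n (B.X k0 n j ω) Z (B.X k0 n (j + 1) ω) v ∧
          Tied (mkSD B K (A.δ n) (B.X k0 n (j + 1) ω).E C M BB z
            (tsd (box (A.δ n) B.o K v) dd)) B.o (A.δ n) (B.X k0 n (j + 1) ω) Z
            (Vn (A.δ n) B.o C ∪ B.N n) τ T 2 ∧
          (∀ u, Vl τ u → NB 3 (box (A.δ n) B.o K v) (box (A.δ n) B.o K u)) ∧
          (∀ e ∈ T, NB 3 (box (A.δ n) B.o K v) (box (A.δ n) B.o K (eu e)) ∧
            NB 3 (box (A.δ n) B.o K v) (box (A.δ n) B.o K (ev e))) ∧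
          Z.W ⊆ (B.X k0 n (j + 1) ω).W ∧ dd ∈ dirs ∧ v + dd = vx Z.α ∧
          (∀ g, Pool.Agent.H21.Q1.Mn Z (Vn (A.δ n) B.o C ∪ B.N n) g →
            Pool.Agent.H21.Q1.Mn (B.X k0 n (j + 1) ω) (Vn (A.δ n) B.o C ∪ B.N n) g) := by
  classical
  have hDo := hD.1
  have hDb := hD.2.2.1
  obtain ⟨haD, hbD⟩ := Pool.Agent.H14.NB.not_mem_of_arcs hDo hA
  have hbF : b ∈ frontier D := by
    rw [← hA.union]
    left
    have : b ∈ A₁ ∩ A₂ := by rw [hA.inter]; simp
    exact this.1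
  -- distance of the cells from `b`
  set C0 : Finset Cell := insert B.qb (cells D B.o k0) with hC0
  have hCD : ∀ q ∈ C0, cfat B.o q ⊆ D := by
    intro q hq
    rcases mem_insert.1 hq with h | h
    · rw [h]; exact (B.subQ 0 _ B.qb_mem).trans Set.inter_subset_left
    · exact ((mem_cells hDb).1 h).2
  obtain ⟨s, hs0, hs⟩ := exists_dist C0 hCD hbD
  obtain ⟨M0, hM0⟩ := (B.rlim.eventually_lt_const (show 0 < s / 2 by positivity)).exists
  refine ⟨s / 2, by positivity, max k0 ((B.Q M0).sup (fun q => q.1)), le_max_left _ _, ?_⟩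
  intro k hk ρ hρ M BB z hbB hBs hball hz hzq
  have hk0 : k0 ≤ k := (le_max_left _ _).trans hk
  have hQk : ∀ q ∈ B.Q M0, q.1 ≤ k := fun q hq =>
    (Finset.le_sup (f := fun q : Cell => q.1) hq).trans ((le_max_right _ _).trans hk)
  obtain ⟨K0, hok⟩ := mkSD_ok B hD hbF hz hzq hbB
  obtain ⟨L, hLM⟩ := exists_lev B M
  obtain ⟨K2, hK2⟩ : ∃ K2 : ℕ, ∀ K, K2 ≤ K → 21 * mesh (K + 1) ≤ ρ ∧ 20 * mesh (K + 1) < s := by
    obtain ⟨K2, h2⟩ := exists_pow_lt_of_lt_one (show 0 < min (ρ / 21) (s / 20) by positivity)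
      (show (1 / 3 : ℝ) < 1 by norm_num)
    refine ⟨K2, fun K hK => ?_⟩
    have h3 : mesh (K + 1) ≤ (1 / 3 : ℝ) ^ K2 := by
      unfold mesh
      exact pow_le_pow_of_le_one (by norm_num) (by norm_num) (by omega)
    have h4 := h2.trans_le (min_le_left _ _)
    have h5 := h2.trans_le (min_le_right _ _)
    constructor
    · linarith
    · linarith
  refine ⟨K0 + L + (BB.1 + 1) + (k + 3) + (B.qb.1 + 3) + K2, fun K hK => ?_⟩
  obtain ⟨hKρ, hKs⟩ := hK2 K (by omega)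
  have hη := mesh_pos (K + 1)
  have hQMK : ∀ q ∈ B.Q M, q.1 < K := fun q hq => by have := hLM q hq; omega
  have e1 : ∀ᶠ n in atTop, A.δ n < mesh (K + 1) / 5 :=
    A.lim.eventually_lt_const (by positivity)
  have e2 := star_free hDo hDb hA A B.o (C := {B.qb}) (fun q hq => by
    rw [mem_singleton.1 hq]; exact hCD _ (mem_insert_self _ _))
  filter_upwards [e1, e2, B.hN 0, B.hN M0, B.conn, B.beta, B.reg_eventually hDb haD hr k0 k0,
    Pool.Agent.Q1.M3.Pg.free_state B hDo hDb hA K M (fun q hq => (hQMK q hq).le)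
      (show BB.1 ≤ K by omega) hball] with n h1 h2 h3 h4 h5 h6 hR h8 ω hω j hfin hgood C hC hLv v dd
      hv hdd
  have hδ := A.pos n
  have hm : 5 * A.δ n ≤ mesh (K + 1) := by linarith
  obtain ⟨N0, hN0, -⟩ := h3
  obtain ⟨N', hN', hN'b⟩ := h4
  have hVq : Vn (A.δ n) B.o {B.qb} = verts (A.δ n) B.o B.qb := by
    unfold Vn; rw [singleton_biUnion]
  rw [hVq] at h2
  have hqbN : verts (A.δ n) B.o B.qb ⊆ B.N n := by
    rw [hN0, ← hVq]
    refine subset_trans (Vn_mono ?_) subset_union_left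
    exact singleton_subset_iff.2 B.qb_mem
  obtain ⟨Z, hZ⟩ := exists_stepD B hDb hω hfin hR
  rw [← hv] at hZ
  obtain ⟨q0, q1, hF⟩ := chain_state B hDb hω hfin h2 hqbN hZ
  set Y := B.X k0 n (j + 1) ω with hY
  have hgen : Gen2 K B.o (A.δ n) := Pool.Agent.H53.Q1.Base_gen2 B K n
  -- the direction
  have htd : vx Z.α - v = dd := by rw [hdd, (tip_v B hZ).2]
  have hdirs : dd ∈ dirs := by
    rw [← htd]
    have h9 := (pvf_step Z.α).1
    rw [hZ.vpv] at h9
    unfold IsUnit4 at h9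
    unfold dirs
    simp only [mem_insert, mem_singleton]
    rcases h9 with h | h | h | h <;> rw [h] <;> simp
  have hdir : dir ((tsd (box (A.δ n) B.o K v) dd).2 - 1) = dd := tsd_dir hdirs
  have hs1 : (tsd (box (A.δ n) B.o K v) dd).1 = box (A.δ n) B.o K v -
      (2 : ℤ) • dir ((tsd (box (A.δ n) B.o K v) dd).2 - 1) := by rw [hdir]; rfl
  have hs2 : dir ((tsd (box (A.δ n) B.o K v) dd).2 - 1) = vx Z.α - v := by rw [hdir, htd]
  -- the families
  have hClev : ∀ q ∈ C, q.1 ≤ k := fun q hq => ((mem_Ule hDb).1 (hC hq)).2.1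
  have hCK : ∀ q ∈ C, q.1 ≤ K := fun q hq => (hClev q hq).trans (by omega)
  have hCfree : ∀ q ∈ C, Free D (A.δ n) B.o Y.E q := fun q hq => Ule_free hDb (hC hq)
  have hCE : star (Vn (A.δ n) B.o C) ⊆ Y.E := by
    intro l hl
    obtain ⟨u, hu, h9⟩ := mem_star.1 hl
    obtain ⟨q, hq, h10⟩ := mem_Vn.1 hu
    exact (hCfree q hq).2 (star1_sub_star h10 h9)
  obtain ⟨f1, f2, f3, f4, f5⟩ := h8 k0 (j + 1) ω hω hfin C hCK hCE z
    (tsd (box (A.δ n) B.o K v) dd) Y (subset_refl _)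
  have heY : plab Z.α ∉ Y.E := by rw [hZ.succ.E]; exact notMem_erase _ _
  -- the tip is far from `b`
  have hvb : s ≤ dist (pt (A.δ n) v) b := by
    refine hs q0 ?_ _ (fat_sub_cfat _ _ ((mem_verts hδ).1 hF.v0))
    rcases hF.Cl q0 (Or.inl rfl) with h | h
    · rw [h]; exact mem_insert_self _ _
    · exact mem_insert_of_mem h
  have hnear : ∀ u ∈ Vn (A.δ n) B.o C ∪ B.N n,
      NB 4 (box (A.δ n) B.o K v) (box (A.δ n) B.o K u) →
      ∃ q : Cell, q.1 ≤ k ∧ u ∈ verts (A.δ n) B.o q ∧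
        plab Z.α ∉ star (verts (A.δ n) B.o q) := by
    intro u hu hnb
    rcases mem_union.1 hu with h | h
    · obtain ⟨q, hq, huq⟩ := mem_Vn.1 h
      exact ⟨q, hClev q hq, huq, fun h9 => heY ((hCfree q hq).2 h9)⟩
    · rw [hN'] at h
      rcases mem_union.1 h with h | h
      · obtain ⟨q, hq, huq⟩ := mem_Vn.1 h
        refine ⟨q, hQk q hq, huq, fun h9 => hZ.notN (star_mono ?_ h9)⟩
        intro x hx
        rw [hN']
        exact mem_union_left _ (mem_Vn.2 ⟨q, hq, hx⟩)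
      · exfalso
        have h9 := Metric.mem_ball.1 (hN'b u h)
        have h10 := dist_of_NB hgen hnb
        have h11 := dist_triangle (pt (A.δ n) v) (pt (A.δ n) u) b
        rw [dist_comm (pt (A.δ n) v) (pt (A.δ n) u)] at h11
        push_cast at h10
        linarith
  -- the tip cells
  obtain ⟨p1, p2⟩ := tipP_state B hDb hZ hF hm hk0 (by omega) (by omega) hKρ hgood hs2
  have hfar := far_tip B hZ hm hKρ hgood
  have hq0k : q0.1 ≤ k := by rw [hF.lev0]; exact hk0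
  have hc0 : box (A.δ n) B.o K v ∈ fc K q0 :=
    (Pg.mem_verts_iff hδ hgen (show q0.1 ≤ K by omega)).1 hF.v0
  have hwv : vx Z.α = v + dd := by rw [← htd]; abel
  have hboxw : box (A.δ n) B.o K (vx Z.α) = box (A.δ n) B.o K v + dd := by
    rcases Pool.Agent.H5.M7.box_step hδ (by linarith) hgen (v := v) hdirs with h9 | h9
    · exfalso
      apply hF.w0
      rw [Pg.mem_verts_iff hδ hgen (show q0.1 ≤ K by omega), hwv, h9]
      exact hc0
    · rw [hwv]; exact h9
  have hcd0 : box (A.δ n) B.o K v + dd ∉ fc K q0 := by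
    rw [← hboxw]
    intro h9
    exact hF.w0 ((Pg.mem_verts_iff hδ hgen (show q0.1 ≤ K by omega)).2 h9)
  have hBBq : ∀ q, q = B.qb ∨ q ∈ cells D B.o k0 → ¬ AdjC B.o q BB := by
    rintro q hq ⟨x, hx1, hx2⟩
    have h9 : q ∈ C0 := by
      rcases hq with h | h
      · rw [h]; exact mem_insert_self _ _
      · exact mem_insert_of_mem h
    have h10 := hs q h9 x (fat_sub_cfat _ _ hx1)
    have h11 := Metric.mem_ball.1 (hBs (fat_sub_cfat _ _ hx2))
    linarith
  set d := mkSD B K (A.δ n) Y.E C M BB z (tsd (box (A.δ n) B.o K v) dd) with hd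
  have hlevCM : ∀ q ∈ C ∪ B.Q M, q.1 < K := by
    intro q hq
    rcases mem_union.1 hq with h | h
    · have := hClev q h; omega
    · exact hQMK q h
  have hok' : d.Ok := by
    refine hok K (by omega) (A.δ n) Y.E C (fun q hq => ⟨by have := hClev q hq; omega,
      (hCfree q hq).1⟩) hLv _ ?_ ?_ ?_
    · rw [hs1]
      exact flat_sub_PP subset_union_left p1
    · intro h9
      rw [hs1] at h9
      have h9' : box (A.δ n) B.o K v - (2 : ℤ) • dir ((tsd (box (A.δ n) B.o K v) dd).2 - 1) ∈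
        flat K (C ∪ B.Q M) ∪ (fc K BB ∩ PP K (Uk D (A.δ n) B.o B.qb K Y.E) (C ∪ B.Q M)) := h9
      rcases mem_union.1 h9' with h | h
      · -- a vertex in this box
        obtain ⟨x, hx⟩ := exists_col (o := B.o.re) hδ (show 3 * A.δ n ≤ mesh (K + 1) by linarith)
          (box (A.δ n) B.o K v - (2 : ℤ) • dir ((tsd (box (A.δ n) B.o K v) dd).2 - 1)).1
        obtain ⟨y, hy⟩ := exists_col (o := B.o.im) hδ (show 3 * A.δ n ≤ mesh (K + 1) by linarith)
          (box (A.δ n) B.o K v - (2 : ℤ) • dir ((tsd (box (A.δ n) B.o K v) dd).2 - 1)).2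
        have hu : box (A.δ n) B.o K (x, y) = box (A.δ n) B.o K v -
            (2 : ℤ) • dir ((tsd (box (A.δ n) B.o K v) dd).2 - 1) := by rw [box_eq, hx, hy]
        have huK : (x, y) ∈ Vn (A.δ n) B.o C ∪ B.N n := f4 _ (by rw [hu]; exact h)
        have hadj : Pool.Agent.Q1.M4.Adj4 (box (A.δ n) B.o K v - dd)
            (box (A.δ n) B.o K (x, y)) := by
          rw [hu, hdir]
          have h12 := adj4_symm (⟨(tsd (box (A.δ n) B.o K v) dd).2 - 1, rfl⟩ :
            Pool.Agent.Q1.M4.Adj4 (box (A.δ n) B.o K v - (2 : ℤ) • dd)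
            (box (A.δ n) B.o K v - (2 : ℤ) • dd +
              dir ((tsd (box (A.δ n) B.o K v) dd).2 - 1)))
          rw [hdir] at h12
          have h13 : box (A.δ n) B.o K v - (2 : ℤ) • dd + dd = box (A.δ n) B.o K v - dd := by
            rw [two_zsmul]; abel
          rw [h13] at h12
          exact h12
        have hnb : NB 4 (box (A.δ n) B.o K v) (box (A.δ n) B.o K (x, y)) := by
          have h10 : NB 1 (box (A.δ n) B.o K v) (box (A.δ n) B.o K v - dd) := by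
            refine (NB.of_adj ⟨(tsd (box (A.δ n) B.o K v) dd).2 - 1, ?_⟩).symm
            rw [hdir, sub_add_cancel]
          exact (h10.trans (NB.of_adj hadj)).mono (by norm_num)
        obtain ⟨q, hq, huq, heq⟩ := hnear _ huK hnb
        have hqK : q.1 ≤ K := hq.trans (by omega)
        have g1 : box (A.δ n) B.o K v ∉ fc K q := fun h =>
          heq (star1_sub_star ((Pg.mem_verts_iff hδ hgen hqK).2 h) hZ.mem1)
        have g2 : box (A.δ n) B.o K v + dd ∉ fc K q := fun h =>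
          heq (star1_sub_star ((Pg.mem_verts_iff hδ hgen hqK).2 (by rw [hboxw]; exact h)) hZ.mem2)
        refine notMem_fc_near (κ := (tsd (box (A.δ n) B.o K v) dd).2 - 1) hgen
          (show k < K by omega) (fun m => by have := hfar m; linarith) hq0k hq hc0
          (by rw [hdir]; exact hcd0) g1 (by rw [hdir]; exact g2)
          (z' := box (A.δ n) B.o K v - dd) (Or.inr (Or.inr (by rw [hdir]))) (Or.inr hadj)
          ((Pg.mem_verts_iff hδ hgen hqK).1 huq)
      · exact hBBq q0 (hF.Cl q0 (Or.inl rfl)) (adj_of_fc B.o (show q0.1 ≤ K by omega)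
          (show BB.1 ≤ K by omega) p2 (mem_inter.1 h).1)
    · have h9 : outc (tsd (box (A.δ n) B.o K v) dd) = box (A.δ n) B.o K v - dd := by
        unfold outc
        rw [hdir]
        change box (A.δ n) B.o K v - (2 : ℤ) • dd + dd = _
        rw [two_zsmul]; abel
      rw [h9]
      refine Pool.Agent.H5.M7.tip_out hδ (by linarith) hgen (show q0.1 < K by omega) hdirs
        hF.v0 (by rw [← hwv]; exact hF.w0) (fun p hp => ((mem_Uk hDb).1 hp).head.1) hlevCM ?_
      exact tip_notMem B hDb hω hm (fun q hq => (hlevCM q hq).le) f5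
        (fun h => heY (h hZ.mem1))
  obtain ⟨τ, T, t1, t2, t3⟩ := tied_state B hDb hω hZ hF (d := d) hok' hm rfl f5 hs1 hs2 hk0
    (show k + 3 ≤ K by omega) (show B.qb.1 + 3 ≤ K by omega) hKρ hgood hBBq
    (mem_union_right _ (qb_mem_Q B M)) (Kv := Vn (A.δ n) B.o C ∪ B.N n) f3 f4
    (sol_state B hDb hω hfin h5 h2 hqbN hC hLv (show k ≤ K by omega) (show B.qb.1 ≤ K by omega)
      hm) (mem_union_right _ h6) hnear
  refine ⟨Z, τ, T, hZ, t1, t2, t3, ?_, hdirs, hwv.symm, ?_⟩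
  · rcases hZ.succ.st with ⟨h9, -⟩ | ⟨h9, -⟩
    · rw [h9]; exact subset_insert _ _
    · rw [h9]
  · have hvE : star1 v ⊆ Z.E := fun l hl => hF.E0 l (star1_sub_star hF.v0 hl)
    refine fun g hg => mn_succ hZ.succ hZ.mem1 hvE ?_ t1.kp hg
    intro h
    rcases mem_union.1 h with h | h
    · exact heY (hCE (star1_sub_star h hZ.mem1))
    · exact hZ.notN (star1_sub_star h hZ.mem1)

end

end Pool.Agent.H42.Q1
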