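import Pool.Agent.H5.M7.Tip
import Pool.Agent.Q1.M3.Pg.Chan
import Pool.Agent.Q1.M3.Pg.SDC

set_option autoImplicit false
open Finset

/-! # The channel from the tip to the coarse family

`run_of_chain` : a side of the region at the target, from a chain of free cells which starts at the
cell of the tip. -/

namespace Pool.Agent.H42.Q1

open Pool.Agent.H75.Perc (dir dir_cases)
open Pool.Agent.H81.Q1 (pt)
open Pool.Agent.Q1.M3
open Pool.Agent.Q1.M3.Pg hiding Gen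
open Pool.Agent.Q1.M4 (Adj4 Conn4 rect nextSide)
open Pool.Agent.H53.Q1
open Pool.Agent.H5.M7 (free_of_sub adj_of_fc tip_row coreT row_comp)

section

variable {K : ℕ} {o : ℂ}

/-- the unit cells whose lower left corner is in the core -/
noncomputable def cq (K : ℕ) (q : Cell) : Finset (ℤ × ℤ) :=
  Ico (lo (K - q.1) q.2.1 + 6) (hi (K - q.1) q.2.1 - 5) ×ˢ
  Ico (lo (K - q.1) q.2.2 + 6) (hi (K - q.1) q.2.2 - 5)

lemma mem_cq {q : Cell} {c : ℤ × ℤ} : c ∈ cq K q ↔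
    (lo (K - q.1) q.2.1 + 6 ≤ c.1 ∧ c.1 < hi (K - q.1) q.2.1 - 5) ∧
    (lo (K - q.1) q.2.2 + 6 ≤ c.2 ∧ c.2 < hi (K - q.1) q.2.2 - 5) := by
  unfold cq; rw [mem_product, mem_Ico, mem_Ico]

lemma cq_sub {q : Cell} : cq K q ⊆ fc K q := by
  intro c hc
  rw [mem_cq] at hc
  rw [mem_fc]
  omega

/-- the corner of a unit cell -/
noncomputable def cor0 (K : ℕ) (o : ℂ) (c : ℤ × ℤ) : ℂ := ⟨gx K o.re c.1, gx K o.im c.2⟩

lemma cor0_core {q : Cell} {c : ℤ × ℤ} (h : c ∈ cq K q) : cor0 K o c ∈ core o K q := by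
  rw [mem_cq] at h
  refine ⟨⟨(gx_mono K _).monotone h.1.1, (gx_mono K _).monotone ?_⟩,
    (gx_mono K _).monotone h.2.1, (gx_mono K _).monotone ?_⟩ <;> omega

lemma cor0_rect (c : ℤ × ℤ) : cor0 K o c ∈ rect (gx K o.re) (gx K o.im) c :=
  ⟨⟨le_rfl, (gx_mono K _).monotone (by omega)⟩, le_rfl, (gx_mono K _).monotone (by omega)⟩

/-- the unit cell of a point of the core -/
lemma exists_cq {z : ℂ} : ∃ c : ℤ × ℤ, ∀ q : Cell, z ∈ core o K q → c ∈ cq K q := by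
  have hm := mesh_pos (K + 1)
  have e : ∀ x y : ℝ, gx K y ⌊(x - y) / mesh (K + 1)⌋ ≤ x ∧
      x < gx K y (⌊(x - y) / mesh (K + 1)⌋ + 1) := by
    intro x y
    have h1 := Int.floor_le ((x - y) / mesh (K + 1))
    have h2 := Int.lt_floor_add_one ((x - y) / mesh (K + 1))
    rw [le_div_iff₀ hm] at h1
    rw [div_lt_iff₀ hm] at h2
    unfold gx
    push_cast
    constructor <;> nlinarith
  refine ⟨(⌊(z.re - o.re) / mesh (K + 1)⌋, ⌊(z.im - o.im) / mesh (K + 1)⌋), fun q hq => ?_⟩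
  obtain ⟨⟨a1, a2⟩, a3, a4⟩ := hq
  obtain ⟨b1, b2⟩ := e z.re o.re
  obtain ⟨b3, b4⟩ := e z.im o.im
  have c1 := (gx_mono K o.re).lt_iff_lt.1 (a1.trans_lt b2)
  have c2 := (gx_mono K o.re).le_iff_le.1 (b1.trans a2)
  have c3 := (gx_mono K o.im).lt_iff_lt.1 (a3.trans_lt b4)
  have c4 := (gx_mono K o.im).le_iff_le.1 (b3.trans a4)
  rw [mem_cq]
  simp only
  omega

lemma cq_conn (q : Cell) : Conn4 (cq K q : Set (ℤ × ℤ)) := rect_conn4

/-- a cell of level `K` inside the open coarse cell -/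
lemma fc_inside {q p : Cell} (hq : q.1 ≤ K) (hp : p.1 ≤ K) (h : cfat o p ⊆ fat o q) :
    lo (K - q.1) q.2.1 < lo (K - p.1) p.2.1 ∧ hi (K - p.1) p.2.1 < hi (K - q.1) q.2.1 ∧
    lo (K - q.1) q.2.2 < lo (K - p.1) p.2.2 ∧ hi (K - p.1) p.2.2 < hi (K - q.1) q.2.2 := by
  have m1 : (⟨gx K o.re (lo (K - p.1) p.2.1), gx K o.im (lo (K - p.1) p.2.2)⟩ : ℂ) ∈
      cfat o p := by
    rw [cfat_eq o hp]
    exact ⟨⟨le_rfl, (gx_mono K _).monotone (lo_lt_hi _ _).le⟩, le_rfl,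
      (gx_mono K _).monotone (lo_lt_hi _ _).le⟩
  have m2 : (⟨gx K o.re (hi (K - p.1) p.2.1), gx K o.im (hi (K - p.1) p.2.2)⟩ : ℂ) ∈
      cfat o p := by
    rw [cfat_eq o hp]
    exact ⟨⟨(gx_mono K _).monotone (lo_lt_hi _ _).le, le_rfl⟩,
      (gx_mono K _).monotone (lo_lt_hi _ _).le, le_rfl⟩
  have m1' := (fat_eq o hq _).1 (h m1)
  have m2' := (fat_eq o hq _).1 (h m2)
  simp only at m1' m2'
  exact ⟨(gx_mono K _).lt_iff_lt.1 m1'.1.1, (gx_mono K _).lt_iff_lt.1 m2'.1.2,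
    (gx_mono K _).lt_iff_lt.1 m1'.2.1, (gx_mono K _).lt_iff_lt.1 m2'.2.2⟩

end

section

variable {D : Set ℂ} {δ : ℝ} {o : ℂ} {qb : Cell} {E : Finset (ℤ × ℤ)} {C : Finset Cell}
  {q0 q1 : Cell} {v dd : ℤ × ℤ} {K : ℕ}

/-- The cells of level `K` which meet the core of the cell of the tip are free. -/
lemma free_q0 (hδ : 0 < δ) (hm3 : 3 * δ ≤ mesh (K + 1)) (hg : Gen2 K o δ) (hK : q0.1 < K)
    (hqD : cfat o q0 ⊆ D) (hd : dd ∈ dirs) (hv : v ∈ verts δ o q0)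
    (hvd : v + dd ∉ verts δ o q0) (hE : ∀ e ∈ star (verts δ o q0), e ≠ v + (v + dd) → e ∈ E)
    {p : Cell} (hp : p.1 = K) {z : ℂ} (hz : z ∈ core o K q0) (hzp : z ∈ fat o p) :
    Free D δ o E p := by
  have h1 := core_cell hK.le hp hz hzp
  obtain ⟨a1, a2, a3, a4⟩ := fc_inside (K := K) hK.le hp.le h1
  refine free_of_sub hδ hg hK.le hqD hvd hE hd hp ?_ ?_
  · intro c hc
    rw [mem_fc] at hc ⊢
    omega
  · intro h2
    have hc : box δ o K v ∈ fc K q0 := (Pg.mem_verts_iff hδ hg hK.le).1 hv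
    have hcd : box δ o K v + dd ∉ fc K q0 := by
      intro h
      rcases Pool.Agent.H5.M7.box_step hδ hm3 hg (v := v) hd with h4 | h4
      · exact hvd ((Pg.mem_verts_iff hδ hg hK.le).2 (h4 ▸ hc))
      · exact hvd ((Pg.mem_verts_iff hδ hg hK.le).2 (h4 ▸ h))
    rw [mem_fc] at h2 hcd
    generalize box δ o K v = c at h2 hcd
    obtain ⟨x, y⟩ := c
    unfold dirs at hd
    simp only [mem_insert, mem_singleton] at hd
    rcases hd with rfl | rfl | rfl | rfl <;> simp only [Prod.mk_add_mk] at h2 hcd <;> omega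

/-- **All cells of level `K` which meet the core of a cell of the chain are visible.** -/
theorem vis_chain (hD : Bornology.IsBounded D) (hδ : 0 < δ) (hm3 : 3 * δ ≤ mesh (K + 1))
    (hg : Gen2 K o δ) (h0K : q0.1 + 3 ≤ K)
    (hqD : cfat o q0 ⊆ D) (hd : dd ∈ dirs) (hv : v ∈ verts δ o q0)
    (hvd : v + dd ∉ verts δ o q0) (hE : ∀ e ∈ star (verts δ o q0), e ≠ v + (v + dd) → e ∈ E)
    (hlev : ∀ q ∈ C, q.1 + 3 ≤ K) (hCD : ∀ q ∈ C, cfat o q ⊆ D)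
    (hCE : star (Vn δ o C) ⊆ E) (hqb : qb ∈ C)
    (hconn : ∀ q ∈ C, ∀ q' ∈ C,
      Relation.ReflTransGen (fun x y => AdjC o x y ∧ x ∈ C ∧ y ∈ C) q q')
    (hq1 : q1 ∈ C) (h01 : AdjC o q0 q1) {p : Cell} (hp : p.1 = K) {q : Cell}
    (hq : q = q0 ∨ q ∈ C) {z : ℂ} (hz : z ∈ core o K q) (hzp : z ∈ fat o p) :
    p ∈ Uk D δ o qb K E := by
  by_cases hcase : q ∈ C
  · exact start_mem hD hδ hlev hCD hCE hqb hconn hcase hp
      (core_cell (by have := hlev q hcase; omega) hp hz hzp)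
  have hq0 : q = q0 := hq.resolve_right hcase
  subst hq0
  refine vis_all (K := K) (T := core o K q) hD (convex_core o K q).isPreconnected ?_ ?_ p hp
    ⟨z, hzp, hz⟩
  · rintro r hr ⟨y, hyr, hy⟩
    exact free_q0 hδ hm3 hg (by omega) hqD hd hv hvd hE hr hy hyr
  · obtain ⟨y, hy, hy'⟩ := core_adj h0K (hlev q1 hq1) h01
    obtain ⟨r, hr, hyr⟩ := Pool.Agent.H42.Q1.exists_fat o y K
    exact ⟨r, start_mem hD hδ hlev hCD hCE hqb hconn hq1 hr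
      (core_cell (by have := hlev q1 hq1; omega) hr hy' hyr), y, hyr, hy⟩

/-- **The cell behind the notch is visible.** -/
theorem tipP_of_chain (hD : Bornology.IsBounded D) (hδ : 0 < δ) (hm3 : 3 * δ ≤ mesh (K + 1))
    (hg : Gen2 K o δ) (h0K : q0.1 + 3 ≤ K)
    (hqD : cfat o q0 ⊆ D) (hd : dd ∈ dirs) (hv : v ∈ verts δ o q0)
    (hvd : v + dd ∉ verts δ o q0) (hE : ∀ e ∈ star (verts δ o q0), e ≠ v + (v + dd) → e ∈ E)
    (hlev : ∀ q ∈ C, q.1 + 3 ≤ K) (hCD : ∀ q ∈ C, cfat o q ⊆ D)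
    (hCE : star (Vn δ o C) ⊆ E) (hqb : qb ∈ C)
    (hconn : ∀ q ∈ C, ∀ q' ∈ C,
      Relation.ReflTransGen (fun x y => AdjC o x y ∧ x ∈ C ∧ y ∈ C) q q')
    (hq1 : q1 ∈ C) (h01 : AdjC o q0 q1)
    (hgood : ∀ m, 20 * mesh (K + 1) < dist (pt δ v) (gpt o q0.1 m)) :
    box δ o K v - (2 : ℤ) • dd ∈ flat K (Uk D δ o qb K E) ∧
      box δ o K v - (2 : ℤ) • dd ∈ fc K q0 := by
  have hη := mesh_pos (K + 1)
  have hmq : 81 * mesh (K + 1) ≤ mesh q0.1 := by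
    rw [Pool.Agent.H53.Q1.mesh_eq (show q0.1 ≤ K by omega)]
    have h1 : (3 : ℝ) ^ 3 ≤ 3 ^ (K - q0.1) := pow_le_pow_right₀ (by norm_num) (by omega)
    nlinarith
  obtain ⟨x, r, t0, hx, -, hr, hxr, ht0, hxc, hrow, hvisr⟩ := tip_row (qb := qb) (E := E) hD hδ hm3
    hg (show q0.1 < K by omega) hqD hd hv hvd hE (m := 10 * mesh (K + 1)) le_rfl
    (by linarith) (fun k => by have := hgood k; linarith)
  have hxcore : x ∈ core o K q0 := by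
    obtain ⟨a1, a2, a3, a4⟩ := hx
    have e1 : ∀ a : ℝ, ∀ N : ℤ, gx K a (N + 6) = gx K a N + 6 * mesh (K + 1) := by
      intro a N; rw [gx_add]; push_cast; ring
    have e2 : ∀ a : ℝ, ∀ N : ℤ, gx K a (N - 6) = gx K a N - 6 * mesh (K + 1) := by
      intro a N; rw [sub_eq_add_neg, gx_add]; push_cast; ring
    refine ⟨⟨?_, ?_⟩, ?_, ?_⟩
    · rw [e1, gx_lo (by omega)]; linarith
    · rw [e2, gx_hi (by omega)]; linarith
    · rw [e1, gx_lo (by omega)]; linarith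
    · rw [e2, gx_hi (by omega)]; linarith
  have hrU : r ∈ Uk D δ o qb K E := vis_chain hD hδ hm3 hg h0K hqD hd hv hvd hE hlev hCD hCE hqb
    hconn hq1 h01 hr (Or.inl rfl) hxcore hxr
  exact ⟨hvisr hrU 2 le_rfl ht0, (hrow 2 le_rfl ht0).1⟩

end

section

variable {D : Set ℂ} {δ : ℝ} {o : ℂ} {qb : Cell} {E : Finset (ℤ × ℤ)} {C : Finset Cell}
  {q0 q1 : Cell} {v : ℤ × ℤ} {d : SD}

lemma dir_dirs (κ : ℤ) : dir κ ∈ dirs := by
  rcases dir_cases κ with ⟨-, e⟩ | ⟨-, e⟩ | ⟨-, e⟩ | ⟨-, e⟩ <;> rw [e] <;> decide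

/-- **The channel.** -/
theorem channel_of_chain (hD : Bornology.IsBounded D) (ok : d.Ok) (hf : d.Fine o δ)
    (hU : d.U = Uk D δ o qb d.K E)
    (s1 : d.s.1 = box δ o d.K v - (2 : ℤ) • dir (d.s.2 - 1)) (h0K : q0.1 + 3 ≤ d.K)
    (hqD : cfat o q0 ⊆ D) (hv : v ∈ verts δ o q0)
    (hvd : v + dir (d.s.2 - 1) ∉ verts δ o q0)
    (hE : ∀ e ∈ star (verts δ o q0), e ≠ v + (v + dir (d.s.2 - 1)) → e ∈ E)
    (hlev : ∀ q ∈ C, q.1 + 3 ≤ d.K) (hCD : ∀ q ∈ C, cfat o q ⊆ D)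
    (hCE : star (Vn δ o C) ⊆ E) (hqb : qb ∈ C)
    (hconn : ∀ q ∈ C, ∀ q' ∈ C,
      Relation.ReflTransGen (fun x y => AdjC o x y ∧ x ∈ C ∧ y ∈ C) q q')
    (hq1 : q1 ∈ C) (h01 : AdjC o q0 q1)
    (hgood : ∀ m, 20 * mesh (d.K + 1) < dist (pt δ v) (gpt o q0.1 m))
    (hBB : ∀ q, (q = q0 ∨ q ∈ C) → ¬ AdjC o q d.B) (hqbC : qb ∈ d.C) :
    ∃ (S : Set (ℤ × ℤ)) (n : ℕ), d.n1 ≤ n ∧ n < d.n2 ∧ d.oc' n ∈ flat d.K d.C ∧ d.s.1 ∈ S ∧
      J4 (S ∩ (d.R : Set (ℤ × ℤ))) d.s.1 (d.sid n).1 ∧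
      ∀ c ∈ S, ∃ q, (q = q0 ∨ q ∈ C) ∧ c ∈ fc d.K q := by
  have hδ := hf.hδ
  have hm3 := hf.hm3
  have hg := hf.gen
  have hη := mesh_pos (d.K + 1)
  have hd := dir_dirs (d.s.2 - 1)
  have hlev' : ∀ q, (q = q0 ∨ q ∈ C) → q.1 + 3 ≤ d.K := fun q hq => by
    rcases hq with h | h
    · rw [h]; exact h0K
    · exact hlev q h
  have hvis : ∀ p : Cell, p.1 = d.K → ∀ q, (q = q0 ∨ q ∈ C) → ∀ z ∈ core o d.K q, z ∈ fat o p →
      p ∈ Uk D δ o qb d.K E := fun p hp q hq z hz hzp =>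
    vis_chain hD hδ hm3 hg h0K hqD hd hv hvd hE hlev hCD hCE hqb hconn hq1 h01 hp hq hz hzp
  set S : Set (ℤ × ℤ) := {c | c ∈ flat d.K (Uk D δ o qb d.K E) ∧ ∃ q, (q = q0 ∨ q ∈ C) ∧
    c ∈ fc d.K q} with hS
  have hcq : ∀ q, (q = q0 ∨ q ∈ C) → (cq d.K q : Set (ℤ × ℤ)) ⊆ S := by
    intro q hq c hc
    rw [mem_coe] at hc
    refine ⟨?_, q, hq, cq_sub hc⟩
    refine fc_subset_flat (hvis (cellOf d.K c) rfl q hq _ (cor0_core hc) ?_)
      (mem_fc_cellOf d.K c)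
    exact rect_sub_fat d.K o c (cor0_rect c)
  have hSP : ∀ c ∈ S, c ∈ d.P ∧ c ∉ fc d.K d.B := by
    rintro c ⟨h1, q, hq, h2⟩
    constructor
    · unfold SD.P
      rw [hU]
      exact flat_sub_PP subset_union_left h1
    · intro h3
      exact hBB q hq (adj_of_fc o (by have := hlev' q hq; omega) ok.lev.hB.le h2 h3)
  -- the row
  have hmq : 81 * mesh (d.K + 1) ≤ mesh q0.1 := by
    rw [Pool.Agent.H53.Q1.mesh_eq (show q0.1 ≤ d.K by omega)]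
    have h1 : (3 : ℝ) ^ 3 ≤ 3 ^ (d.K - q0.1) := pow_le_pow_right₀ (by norm_num) (by omega)
    nlinarith
  obtain ⟨x, r, t0, hx, -, hr, hxr, ht0, hxc, hrow, hvisr⟩ := tip_row (qb := qb) (E := E) hD hδ hm3
    hg (show q0.1 < d.K by omega) hqD hd hv hvd hE (m := 10 * mesh (d.K + 1)) le_rfl
    (by linarith) (fun k => by have := hgood k; linarith)
  have hxcore : x ∈ core o d.K q0 := by
    obtain ⟨a1, a2, a3, a4⟩ := hx
    have e1 : ∀ a : ℝ, ∀ N : ℤ, gx d.K a (N + 6) = gx d.K a N + 6 * mesh (d.K + 1) := by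
      intro a N; rw [gx_add]; push_cast; ring
    have e2 : ∀ a : ℝ, ∀ N : ℤ, gx d.K a (N - 6) = gx d.K a N - 6 * mesh (d.K + 1) := by
      intro a N; rw [sub_eq_add_neg, gx_add]; push_cast; ring
    refine ⟨⟨?_, ?_⟩, ?_, ?_⟩
    · rw [e1, gx_lo (by omega)]; linarith
    · rw [e2, gx_hi (by omega)]; linarith
    · rw [e1, gx_lo (by omega)]; linarith
    · rw [e2, gx_hi (by omega)]; linarith
  have hrU : r ∈ Uk D δ o qb d.K E := hvis r hr q0 (Or.inl rfl) x hxcore hxr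
  have hrowS : ∀ t : ℤ, 2 ≤ t → t ≤ t0 → box δ o d.K v - t • dir (d.s.2 - 1) ∈ S :=
    fun t h1 h2 => ⟨hvisr hrU t h1 h2, q0, Or.inl rfl, (hrow t h1 h2).1⟩
  have hsS : d.s.1 ∈ S := by rw [s1]; exact hrowS 2 le_rfl ht0
  have hJ1 : J4 S d.s.1 (box δ o d.K v - t0 • dir (d.s.2 - 1)) := by
    classical
    set A : Finset (ℤ × ℤ) := (Finset.Icc 2 t0).image
      (fun t : ℤ => box δ o d.K v - t • dir (d.s.2 - 1)) with hA
    have hAS : (A : Set (ℤ × ℤ)) ⊆ S := by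
      intro c hc
      rw [mem_coe, hA, mem_image] at hc
      obtain ⟨t, ht, rfl⟩ := hc
      rw [Finset.mem_Icc] at ht
      exact hrowS t ht.1 ht.2
    have h1 := row_comp (A := A) (c := box δ o d.K v) hd ht0 (fun t h1 h2 => by
      rw [hA]; exact mem_image_of_mem _ (Finset.mem_Icc.2 ⟨h1, h2⟩))
    have h2 := (mem_comp.1 h1).2
    have h3 := J4.mono hAS h2
    rw [s1]
    exact h3.symm (hrowS t0 ht0 le_rfl)
  -- the end of the row is in the core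
  have hend : box δ o d.K v - t0 • dir (d.s.2 - 1) ∈ cq d.K q0 := by
    generalize hc : box δ o d.K v - t0 • dir (d.s.2 - 1) = c at hxc
    obtain ⟨a1, a2, a3, a4⟩ := hx
    obtain ⟨⟨b1, b2⟩, b3, b4⟩ := hxc
    have e1 : ∀ a : ℝ, ∀ N M : ℤ, gx d.K a (N + M) = gx d.K a N + M * mesh (d.K + 1) :=
      fun a N M => gx_add d.K a N M
    have f1 : gx d.K o.re (lo (d.K - q0.1) q0.2.1 + 10) ≤ gx d.K o.re (c.1 + 1) := by
      rw [e1 _ _ 10, gx_lo (by omega)]; push_cast; linarith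
    have f2 : gx d.K o.re c.1 ≤ gx d.K o.re (hi (d.K - q0.1) q0.2.1 + -10) := by
      rw [e1 _ _ (-10), gx_hi (by omega)]; push_cast; linarith
    have f3 : gx d.K o.im (lo (d.K - q0.1) q0.2.2 + 10) ≤ gx d.K o.im (c.2 + 1) := by
      rw [e1 _ _ 10, gx_lo (by omega)]; push_cast; linarith
    have f4 : gx d.K o.im c.2 ≤ gx d.K o.im (hi (d.K - q0.1) q0.2.2 + -10) := by
      rw [e1 _ _ (-10), gx_hi (by omega)]; push_cast; linarith
    have g1 := (gx_mono d.K o.re).le_iff_le.1 f1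
    have g2 := (gx_mono d.K o.re).le_iff_le.1 f2
    have g3 := (gx_mono d.K o.im).le_iff_le.1 f3
    have g4 := (gx_mono d.K o.im).le_iff_le.1 f4
    rw [mem_cq]
    omega
  -- along the chain
  have hstep : ∀ q q', (q = q0 ∨ q ∈ C) → (q' = q0 ∨ q' ∈ C) → AdjC o q q' →
      (∀ z ∈ cq d.K q, J4 S d.s.1 z) → ∀ z ∈ cq d.K q', J4 S d.s.1 z := by
    intro q q' hq hq' hadj h z hz
    obtain ⟨y, hy, hy'⟩ := core_adj (hlev' q hq) (hlev' q' hq') hadj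
    obtain ⟨c, hc⟩ := exists_cq (K := d.K) (o := o) (z := y)
    exact (h c (hc q hy)).trans (J4.mono (hcq q' hq')
      (cq_conn q' c (by exact_mod_cast hc q' hy') z (by exact_mod_cast hz)))
  have h0 : ∀ z ∈ cq d.K q0, J4 S d.s.1 z := fun z hz =>
    hJ1.trans (J4.mono (hcq q0 (Or.inl rfl))
      (cq_conn q0 _ (by exact_mod_cast hend) z (by exact_mod_cast hz)))
  have h1 : ∀ z ∈ cq d.K q1, J4 S d.s.1 z := hstep q0 q1 (Or.inl rfl) (Or.inr hq1) h01 h0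
  have h2' : ∀ q, Relation.ReflTransGen (fun x y => AdjC o x y ∧ x ∈ C ∧ y ∈ C) q1 q →
      ∀ z ∈ cq d.K q, J4 S d.s.1 z := by
    intro q h3
    induction h3 with
    | refl => exact h1
    | tail _ hbc ih => exact hstep _ _ (Or.inr hbc.2.1) (Or.inr hbc.2.2) hbc.1 ih
  have h2 := h2' qb (hconn q1 hq1 qb hqb)
  obtain ⟨y, hy, -⟩ := core_adj (o := o) (hlev qb hqb) (hlev qb hqb)
    ⟨_, center_fat o qb, center_fat o qb⟩
  obtain ⟨c, hc⟩ := exists_cq (K := d.K) (o := o) (z := y)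
  obtain ⟨n, hn1, hn2, hn3, -, -, hJ⟩ := SD.channel ok (S := S) hSP hsS (h2 c (hc qb hy))
    (fc_subset_flat hqbC (cq_sub (hc qb hy)))
  exact ⟨S, n, hn1, hn2, hn3, hsS, hJ, fun c hc => hc.2⟩

/-- A side of the run. -/
theorem run_of_chain (hD : Bornology.IsBounded D) (ok : d.Ok) (hf : d.Fine o δ)
    (hU : d.U = Uk D δ o qb d.K E)
    (s1 : d.s.1 = box δ o d.K v - (2 : ℤ) • dir (d.s.2 - 1)) (h0K : q0.1 + 3 ≤ d.K)
    (hqD : cfat o q0 ⊆ D) (hv : v ∈ verts δ o q0)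
    (hvd : v + dir (d.s.2 - 1) ∉ verts δ o q0)
    (hE : ∀ e ∈ star (verts δ o q0), e ≠ v + (v + dir (d.s.2 - 1)) → e ∈ E)
    (hlev : ∀ q ∈ C, q.1 + 3 ≤ d.K) (hCD : ∀ q ∈ C, cfat o q ⊆ D)
    (hCE : star (Vn δ o C) ⊆ E) (hqb : qb ∈ C)
    (hconn : ∀ q ∈ C, ∀ q' ∈ C,
      Relation.ReflTransGen (fun x y => AdjC o x y ∧ x ∈ C ∧ y ∈ C) q q')
    (hq1 : q1 ∈ C) (h01 : AdjC o q0 q1)
    (hgood : ∀ m, 20 * mesh (d.K + 1) < dist (pt δ v) (gpt o q0.1 m))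
    (hBB : ∀ q, (q = q0 ∨ q ∈ C) → ¬ AdjC o q d.B) (hqbC : qb ∈ d.C) :
    ∃ n, d.n1 ≤ n ∧ n < d.n2 ∧ d.oc' n ∈ flat d.K d.C := by
  obtain ⟨-, n, h1, h2, h3, -⟩ := channel_of_chain hD ok hf hU s1 h0K hqD hv hvd hE hlev hCD hCE
    hqb hconn hq1 h01 hgood hBB hqbC
  exact ⟨n, h1, h2, h3⟩

end

end Pool.Agent.H42.Q1
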