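import Pool.Agent.H42.Q1.TipC
import Pool.Agent.H42.Q1.TipR
import Pool.Agent.H14.NB.InvL0
import Pool.Agent.H53.Q1.J20.Expl

set_option autoImplicit false
open Finset

/-! # The ties of the states of the chain

`tied_state` : the data `Tied` of the state `j + 1`. -/

namespace Pool.Agent.H42.Q1

open Pool.Agent.H75.Perc Pool.Agent.H75.TwoArm Pool.Agent.H75.Four Pool.Agent.H99.NC
open Pool.Agent.H69.Q1 Pool.Agent.H39.Q1 Pool.Agent.H28.Q1
open Pool.Agent.Q1.M3 hiding denv_ext fat_sub_cfat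
open Pool.Agent.Q1.M3.Pg hiding ends_add Gen
open Pool.Agent.H81.Q1 (pt Approx IsJordanDomain IsArcs)
open Pool.Agent.H21.Q1 (Sol Wt InvL co_Wt Wt_sub)

section

variable {D : Set ℂ} {a b : ℂ} {A₁ A₂ : Set ℂ} {A : Approx D a b A₁ A₂} {r0 : ℝ} (B : Base A r0)
  {k0 n : ℕ} {ω : Finset (ℤ × ℤ)}

/-- Labels of a state which are not met. -/
lemma mem_E_of (hω : ω ⊆ (X0 A n).E) (j : ℕ) {l : ℤ × ℤ} (hl : l ∈ (X0 A n).E)
    (hm : ∀ u < B.T k0 n j ω, plab ((X0 A n).cor ω u) ≠ l) : l ∈ (B.X k0 n j ω).E := by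
  unfold Base.X
  rw [Rules.st_E _ hω, Finset.mem_sdiff, Rules.mem_metE]
  refine ⟨hl, ?_⟩
  rintro ⟨-, u, hu, h1⟩
  exact hm u hu h1

/-- The states of the chain satisfy `InvL`. -/
lemma invL_X (j : ℕ) (ω : Finset (ℤ × ℤ)) : InvL (B.X k0 n j ω) := by
  induction j with
  | zero => exact Pool.Agent.H14.NB.invL0 A n
  | succ j ih =>
    rw [B.X_succ]
    exact ih.after _ inter_subset_right

/-- The cell of the tip and the next cell of the chain. -/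
lemma exists_chain (hD : Bornology.IsBounded D) {X Z Y : DEnv} {v : ℤ × ℤ}
    (hZ : StepD B k0 n X Z Y v) :
    ∃ q0 q1 : Cell, q0 ∈ Uk D (A.δ n) B.o B.qb k0 X.E ∧ v ∈ verts (A.δ n) B.o q0 ∧
      q1 ∈ insert B.qb (Uk D (A.δ n) B.o B.qb k0 Y.E) ∧ AdjC B.o q0 q1 := by
  classical
  have hee : plab Z.α ∉ Y.E := by rw [hZ.succ.E]; exact notMem_erase _ _
  have hstar : ∀ c, c ∈ Uk D (A.δ n) B.o B.qb k0 X.E → Free D (A.δ n) B.o X.E c →
      v ∉ verts (A.δ n) B.o c → Free D (A.δ n) B.o Y.E c := by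
    intro c hcU hc hvc
    refine ⟨hc.1, fun l hl => ?_⟩
    rw [hZ.succ.E, mem_erase]
    refine ⟨?_, hZ.stayE l (star_mono ?_ hl) (hc.2 hl)⟩
    · intro h1
      rw [h1] at hl
      obtain ⟨u, hu, h2⟩ := mem_star.1 hl
      have ho := odd_star1 h2
      have e1 := (mem_star1_iff ho).1 h2
      have e2 := (mem_star1_iff ho).1 hZ.mem1
      have e3 := (mem_star1_iff ho).1 hZ.mem2
      have hcF : verts (A.δ n) B.o c ⊆ B.F k0 n X.E := fun x hx =>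
        mem_union_left _ (mem_Vn.2 ⟨c, hcU, hx⟩)
      have hne : v ≠ vx Z.α := fun h3 => hZ.tip (by
        rw [← h3]; exact mem_union_left _ hZ.vU)
      have huv : u ≠ v := fun h3 => hvc (h3 ▸ hu)
      have huw : u ≠ vx Z.α := fun h3 => hZ.tip (h3 ▸ hcF hu)
      rcases e1 with e1 | e1 <;> rcases e2 with e2 | e2 <;> rcases e3 with e3 | e3
      · exact huv (e1.trans e2.symm)
      · exact huv (e1.trans e2.symm)
      · exact huw (e1.trans e3.symm)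
      · exact hne (e2.trans e3.symm)
      · exact hne (e2.trans e3.symm)
      · exact huw (e1.trans e3.symm)
      · exact huv (e1.trans e2.symm)
      · exact huv (e1.trans e2.symm)
    · exact fun x hx => mem_union_left _ (mem_Vn.2 ⟨c, hcU, hx⟩)
  have key : ∀ c, ConnC B.o (Free D (A.δ n) B.o X.E) B.qb k0 c →
      c ∈ Uk D (A.δ n) B.o B.qb k0 Y.E ∨
      ∃ q0 q1 : Cell, q0 ∈ Uk D (A.δ n) B.o B.qb k0 X.E ∧ v ∈ verts (A.δ n) B.o q0 ∧
        q1 ∈ insert B.qb (Uk D (A.δ n) B.o B.qb k0 Y.E) ∧ AdjC B.o q0 q1 := by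
    intro c hc
    refine ConnC.induct (P := fun c => c ∈ Uk D (A.δ n) B.o B.qb k0 Y.E ∨
      ∃ q0 q1 : Cell, q0 ∈ Uk D (A.δ n) B.o B.qb k0 X.E ∧ v ∈ verts (A.δ n) B.o q0 ∧
        q1 ∈ insert B.qb (Uk D (A.δ n) B.o B.qb k0 Y.E) ∧ AdjC B.o q0 q1) ?_ ?_ hc
    · intro c hc1 hc2 hc3
      have hcU : c ∈ Uk D (A.δ n) B.o B.qb k0 X.E := (mem_Uk hD).2 (ConnC.single hc1 hc2 hc3)
      by_cases hv : v ∈ verts (A.δ n) B.o c
      · exact Or.inr ⟨c, B.qb, hcU, hv, mem_insert_self _ _, hc3⟩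
      · exact Or.inl ((mem_Uk hD).2 (ConnC.single hc1 (hstar c hcU hc2 hv) hc3))
    · intro c c' hc1 hc2 hc3 hc4 hc5
      rcases hc5 with h | h
      · have hcU : c ∈ Uk D (A.δ n) B.o B.qb k0 X.E :=
          (mem_Uk hD).2 (ConnC.cons hc1 hc2 hc3 hc4)
        by_cases hv : v ∈ verts (A.δ n) B.o c
        · exact Or.inr ⟨c, c', hcU, hv, mem_insert_of_mem h, hc3⟩
        · exact Or.inl ((mem_Uk hD).2 (ConnC.cons hc1 (hstar c hcU hc2 hv) hc3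
            ((mem_Uk hD).1 h)))
      · exact Or.inr h
  obtain ⟨p, hp, hvp⟩ := mem_Vn.1 hZ.vU
  rcases key p ((mem_Uk hD).1 hp) with h | h
  · exfalso
    exact hee (((mem_Uk hD).1 h).head.2.2 (star1_sub_star hvp hZ.mem1))
  · exact h

lemma tip_v {X Z Y : DEnv} {v : ℤ × ℤ} (hZ : StepD B k0 n X Z Y v) :
    tipv (B.F k0 n X.E) (lab Y.α) = v ∧ tipd (B.F k0 n X.E) (lab Y.α) = vx Z.α - v := by
  have hv : v ∈ B.F k0 n X.E := mem_union_left _ hZ.vU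
  have hw := hZ.tip
  have h4 := (pvf_step Z.α).1
  rw [hZ.vpv] at h4
  obtain ⟨-, h5⟩ := ends_add h4
  rw [← hZ.eq] at h5
  rw [hZ.labY]
  unfold tipv tipd
  rcases h5 with ⟨h5, h6⟩ | ⟨h5, h6⟩
  · rw [h5, h6, if_pos hv, if_pos hv]
    exact ⟨rfl, rfl⟩
  · rw [h5, h6, if_neg hw, if_neg hw]
    exact ⟨rfl, rfl⟩

/-- Facts on the chain of free cells which starts at the cell of the tip. -/
structure ChainF (k0 n : ℕ) (Y Z : DEnv) (v : ℤ × ℤ) (q0 q1 : Cell) : Prop where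
  lev0 : q0.1 = k0
  D0 : cfat B.o q0 ⊆ D
  v0 : v ∈ verts (A.δ n) B.o q0
  w0 : vx Z.α ∉ verts (A.δ n) B.o q0
  E0 : ∀ l ∈ star (verts (A.δ n) B.o q0), l ∈ Z.E
  q1C : q1 ∈ insert B.qb (Uk D (A.δ n) B.o B.qb k0 Y.E)
  adj : AdjC B.o q0 q1
  CD : ∀ q ∈ insert B.qb (Uk D (A.δ n) B.o B.qb k0 Y.E), cfat B.o q ⊆ D
  CE : star (Vn (A.δ n) B.o (insert B.qb (Uk D (A.δ n) B.o B.qb k0 Y.E))) ⊆ Y.E
  conn : ∀ q ∈ insert B.qb (Uk D (A.δ n) B.o B.qb k0 Y.E),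
    ∀ q' ∈ insert B.qb (Uk D (A.δ n) B.o B.qb k0 Y.E),
      Relation.ReflTransGen (fun x y => AdjC B.o x y ∧
        x ∈ insert B.qb (Uk D (A.δ n) B.o B.qb k0 Y.E) ∧
        y ∈ insert B.qb (Uk D (A.δ n) B.o B.qb k0 Y.E)) q q'
  Cl : ∀ q, (q = q0 ∨ q ∈ insert B.qb (Uk D (A.δ n) B.o B.qb k0 Y.E)) →
    q = B.qb ∨ q ∈ cells D B.o k0

/-- The last label before the state `j + 1`. -/
theorem exists_stepD (hDb : Bornology.IsBounded D) (hω : ω ⊆ (X0 A n).E) {j : ℕ}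
    (hfin : ¬ B.Fin n (B.X k0 n (j + 1) ω)) (hR : B.Reg k0 k0 n) :
    ∃ Z, StepD B k0 n (B.X k0 n j ω) Z (B.X k0 n (j + 1) ω)
      (tipv (B.F k0 n (B.X k0 n j ω).E) (lab (B.X k0 n (j + 1) ω).α)) := by
  have hst : B.X k0 n (j + 1) ω =
      (B.rules k0 n).nenv (B.X k0 n j ω) ((B.rules k0 n).cf j (X0 A n) ω) := B.X_succ j
  have hfin0 : ¬ B.Fin n (B.X k0 n j ω) := fun g => hfin (B.Fin_succ g)
  obtain ⟨g1, g2, g3⟩ := B.spec_state hDb le_rfl hR hω j hfin0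
  have hcf := (B.rules k0 n).cf_sub hω j
  obtain ⟨Z, v', hZ⟩ : ∃ Z v', StepD B k0 n (B.X k0 n j ω) Z (B.X k0 n (j + 1) ω) v' := by
    rw [hst] at hfin ⊢
    exact step_env B hDb (inv_X B j ω) hcf hfin0 g1 g2 g3 hfin
  obtain ⟨t1, -⟩ := tip_v B hZ
  exact ⟨Z, by rw [t1]; exact hZ⟩

/-- **The chain of the state `j + 1`.** -/
theorem chain_state (hDb : Bornology.IsBounded D) (hω : ω ⊆ (X0 A n).E) {j : ℕ}
    (hfin : ¬ B.Fin n (B.X k0 n (j + 1) ω))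
    (hqbE : star (verts (A.δ n) B.o B.qb) ⊆ (X0 A n).E)
    (hqbN : verts (A.δ n) B.o B.qb ⊆ B.N n) {Z : DEnv} {v : ℤ × ℤ}
    (hZ : StepD B k0 n (B.X k0 n j ω) Z (B.X k0 n (j + 1) ω) v) :
    ∃ q0 q1, ChainF B k0 n (B.X k0 n (j + 1) ω) Z v q0 q1 := by
  classical
  set X := B.X k0 n j ω with hX
  set Y := B.X k0 n (j + 1) ω with hY
  obtain ⟨q0, q1, hq0, hvq0, hq1, h01⟩ := exists_chain B hDb hZ
  have hq0F := ((mem_Uk hDb).1 hq0).head
  have hq0sub : verts (A.δ n) B.o q0 ⊆ B.F k0 n X.E := fun x hx =>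
    mem_union_left _ (mem_Vn.2 ⟨q0, hq0, hx⟩)
  -- the base cell in the state
  have hqbY : star (verts (A.δ n) B.o B.qb) ⊆ Y.E := by
    intro l hl
    refine mem_E_of B hω (j + 1) (hqbE hl) fun u hu h => ?_
    refine chain_N B hω (j + 1) hfin u hu ?_
    rw [h]; exact star_mono hqbN hl
  have hqbD : cfat B.o B.qb ⊆ D := (B.subQ 0 _ B.qb_mem).trans Set.inter_subset_left
  refine ⟨q0, q1, hq0F.1, hq0F.2.1, hvq0, fun h => hZ.tip (hq0sub h), fun l hl =>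
    hZ.stayE l (star_mono hq0sub hl) (hq0F.2.2 hl), hq1, h01, ?_, ?_, ?_, ?_⟩
  · intro q hq
    rcases mem_insert.1 hq with h | h
    · rw [h]; exact hqbD
    · exact ((mem_Uk hDb).1 h).head.2.1
  · intro l hl
    obtain ⟨u, hu, h1⟩ := mem_star.1 hl
    obtain ⟨q, hq, h2⟩ := mem_Vn.1 hu
    rcases mem_insert.1 hq with h | h
    · rw [h] at h2; exact hqbY (star1_sub_star h2 h1)
    · exact ((mem_Uk hDb).1 h).head.2.2 (star1_sub_star h2 h1)
  · set C' := insert B.qb (Uk D (A.δ n) B.o B.qb k0 Y.E) with hC'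
    have hto : ∀ q ∈ C', Relation.ReflTransGen (fun x y => AdjC B.o x y ∧ x ∈ C' ∧ y ∈ C') q
        B.qb := by
      intro q hq
      rcases mem_insert.1 hq with h | h
      · rw [h]
      · refine ConnC.induct (P := fun c => Relation.ReflTransGen
          (fun x y => AdjC B.o x y ∧ x ∈ C' ∧ y ∈ C') c B.qb) ?_ ?_ ((mem_Uk hDb).1 h)
        · intro c hc1 hc2 hc3
          exact Relation.ReflTransGen.single ⟨hc3, mem_insert_of_mem ((mem_Uk hDb).2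
            (ConnC.single hc1 hc2 hc3)), mem_insert_self _ _⟩
        · intro c c' hc1 hc2 hc3 hc4 hc5
          exact Relation.ReflTransGen.head ⟨hc3, mem_insert_of_mem ((mem_Uk hDb).2
            (ConnC.cons hc1 hc2 hc3 hc4)), mem_insert_of_mem ((mem_Uk hDb).2 hc4)⟩ hc5
    have hsymm : ∀ q q', Relation.ReflTransGen
        (fun x y => AdjC B.o x y ∧ x ∈ C' ∧ y ∈ C') q q' →
        Relation.ReflTransGen (fun x y => AdjC B.o x y ∧ x ∈ C' ∧ y ∈ C') q' q := by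
      intro q q' h
      induction h with
      | refl => exact Relation.ReflTransGen.refl
      | tail _ h1 ih =>
        exact Relation.ReflTransGen.head ⟨AdjC.symm h1.1, h1.2.2, h1.2.1⟩ ih
    intro q hq q' hq'
    exact (hto q hq).trans (hsymm _ _ (hto q' hq'))
  · intro q hq
    rcases hq with h | h
    · right; rw [h, mem_cells hDb]; exact ⟨hq0F.1, hq0F.2.1⟩
    · rcases mem_insert.1 h with h | h
      · exact Or.inl h
      · right
        exact Uk_sub_cells hDb h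

lemma gpt_lvl (o : ℂ) {k : ℕ} (h0k : k0 ≤ k) (m : ℤ × ℤ) :
    gpt o k ((3 : ℤ) ^ (k - k0) * m.1, (3 : ℤ) ^ (k - k0) * m.2) = gpt o k0 m := by
  unfold gpt
  rw [mesh_lvl h0k]
  push_cast
  simp only [Complex.mk.injEq]
  constructor <;> ring

/-- the tip vertex is far from the grid vertices -/
lemma far_tip {X Z Y : DEnv} {v : ℤ × ℤ} (hZ : StepD B k0 n X Z Y v) {K k : ℕ}
    (hm : 5 * A.δ n ≤ mesh (K + 1)) {ρ : ℝ} (hρ : 21 * mesh (K + 1) ≤ ρ)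
    (hgood : B.Good k n ρ Y) (m : ℤ × ℤ) :
    20 * mesh (K + 1) < dist (pt (A.δ n) v) (gpt B.o k m) := by
  have hδ := A.pos n
  have hvY : dist (pt (A.δ n) v) (pt (A.δ n) (vx Y.α)) ≤ A.δ n := by
    refine dist_of_star1 hδ hZ.mem1 ?_
    rw [← hZ.labY]; exact lab_star1 _
  have h1 := hgood m
  have h2 := dist_triangle (pt (A.δ n) (vx Y.α)) (pt (A.δ n) v) (gpt B.o k m)
  have h3 := dist_comm (pt (A.δ n) (vx Y.α)) (pt (A.δ n) v)
  linarith

/-- the two ends of the last label are not in `P` -/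
lemma tip_notMem (hDb : Bornology.IsBounded D) (hω : ω ⊆ (X0 A n).E) {j : ℕ} {K : ℕ}
    {C : Finset Cell} (hm : 5 * A.δ n ≤ mesh (K + 1)) (hC : ∀ q ∈ C, q.1 ≤ K)
    (hCE : star (Vn (A.δ n) B.o C) ⊆ (B.X k0 n (j + 1) ω).E) {u : ℤ × ℤ}
    (hu : ¬ star1 u ⊆ (B.X k0 n (j + 1) ω).E) :
    box (A.δ n) B.o K u ∉ PP K (Uk D (A.δ n) B.o B.qb K (B.X k0 n (j + 1) ω).E) C := by
  have hEt := Pool.Agent.H53.Q1.Base_E_eq B (k0 := k0) hω (j + 1)
  rw [hEt] at hu hCE ⊢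
  exact Pool.Agent.H53.Q1.Base_notMem_P B hDb (by have := A.pos n; linarith) hC hCE hu

/-- **The ties of the state `j + 1`.** -/
theorem tied_state (hDb : Bornology.IsBounded D) (hω : ω ⊆ (X0 A n).E) {j k : ℕ}
    {Z : DEnv} {v : ℤ × ℤ}
    (hZ : StepD B k0 n (B.X k0 n j ω) Z (B.X k0 n (j + 1) ω) v) {q0 q1 : Cell}
    (hF : ChainF B k0 n (B.X k0 n (j + 1) ω) Z v q0 q1) {d : SD} (ok : d.Ok)
    (hm : 5 * A.δ n ≤ mesh (d.K + 1))
    (hU : d.U = Uk D (A.δ n) B.o B.qb d.K (B.X k0 n (j + 1) ω).E)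
    (hCE : star (Vn (A.δ n) B.o d.C) ⊆ (B.X k0 n (j + 1) ω).E)
    (hs1 : d.s.1 = box (A.δ n) B.o d.K v - (2 : ℤ) • dir (d.s.2 - 1))
    (hs2 : dir (d.s.2 - 1) = vx Z.α - v)
    (h0k : k0 ≤ k) (hkK : k + 3 ≤ d.K) (hqbK : B.qb.1 + 3 ≤ d.K) {ρ : ℝ}
    (hρ : 21 * mesh (d.K + 1) ≤ ρ) (hgood : B.Good k n ρ (B.X k0 n (j + 1) ω))
    (hBB : ∀ q, q = B.qb ∨ q ∈ cells D B.o k0 → ¬ AdjC B.o q d.B) (hqbC : B.qb ∈ d.C)
    {Kv : Finset (ℤ × ℤ)}
    (hKv : ∀ u ∈ Kv, box (A.δ n) B.o d.K u ∈ flat d.K d.C ∨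
      box (A.δ n) B.o d.K u ∈ fc d.K d.B)
    (hCK : ∀ u, box (A.δ n) B.o d.K u ∈ flat d.K d.C → u ∈ Kv)
    (hconn : ∀ u ∈ Kv, ∀ w ∈ Kv,
      Co (kap Kv ∩ ((B.X k0 n (j + 1) ω).E ∪ (B.X k0 n (j + 1) ω).W)) u w)
    (hβ : vx (X0 A n).β ∈ Kv)
    (hnear : ∀ u ∈ Kv, NB 4 (box (A.δ n) B.o d.K v) (box (A.δ n) B.o d.K u) →
      ∃ q : Cell, q.1 ≤ k ∧ u ∈ verts (A.δ n) B.o q ∧
        plab Z.α ∉ star (verts (A.δ n) B.o q)) :
    ∃ τ T, Tied d B.o (A.δ n) (B.X k0 n (j + 1) ω) Z Kv τ T 2 ∧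
      (∀ u, Vl τ u → NB 3 (box (A.δ n) B.o d.K v) (box (A.δ n) B.o d.K u)) ∧
      ∀ e ∈ T, NB 3 (box (A.δ n) B.o d.K v) (box (A.δ n) B.o d.K (eu e)) ∧
        NB 3 (box (A.δ n) B.o d.K v) (box (A.δ n) B.o d.K (ev e)) := by
  classical
  have hδ := A.pos n
  have hη := mesh_pos (d.K + 1)
  set X := B.X k0 n j ω with hX
  set Y := B.X k0 n (j + 1) ω with hY
  have hw : vx Z.α = v + dir (d.s.2 - 1) := by rw [hs2]; abel
  have hX0E : X.E ⊆ (X0 A n).E := B.X_E hω j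
  have hgen : Gen2 d.K B.o (A.δ n) := Pool.Agent.H53.Q1.Base_gen2 B d.K n
  have hfine : d.Fine B.o (A.δ n) := ⟨hδ, hm, hgen⟩
  have hq0lev := hF.lev0
  have hC'lev : ∀ q, q = B.qb ∨ q ∈ cells D B.o k0 → q.1 + 3 ≤ d.K := by
    intro q hq
    rcases hq with h | h
    · rw [h]; exact hqbK
    · rw [((mem_cells hDb).1 h).1]; omega
  -- distances of the tip
  have hfar := far_tip B hZ hm hρ hgood
  have hrun : ∃ n', d.n1 ≤ n' ∧ n' < d.n2 ∧ d.oc' n' ∈ flat d.K d.C := by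
    refine run_of_chain (E := Y.E) (qb := B.qb) (q0 := q0) (q1 := q1) (v := v)
      (C := insert B.qb (Uk D (A.δ n) B.o B.qb k0 Y.E)) hDb ok hfine hU hs1
      (by rw [hq0lev]; omega) hF.D0 hF.v0 (by rw [← hw]; exact hF.w0) ?_
      (fun q hq => hC'lev q (hF.Cl q (Or.inr hq))) hF.CD hF.CE
      (mem_insert_self _ _) hF.conn hF.q1C hF.adj ?_ ?_ hqbC
    · intro l hl hne
      rw [hZ.succ.E, mem_erase]
      refine ⟨?_, hF.E0 l hl⟩
      rw [hZ.eq, hw]; exact hne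
    · intro m
      rw [hq0lev, ← gpt_lvl B.o h0k]
      exact hfar _
    · intro q hq
      exact hBB q (hF.Cl q hq)
  have ht : TipD d B.o (A.δ n) Y Z Kv v q0 k :=
    { ok := ok
      fine := hfine
      succ := hZ.succ
      inv := hZ.inv
      invL := by
        obtain ⟨Q, hQ, ω', hω', h⟩ := hZ.aft
        rw [h]
        exact (invL_X B j ω).after hQ hω'
      odd := fun e he => Pool.Agent.H28.Q1.odd_toDEnv (A.X n) e (hX0E (hZ.EX he))
      vpv := hZ.vpv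
      w := hw
      s1 := hs1
      vq := hF.v0
      wq := hF.w0
      stay := fun l hl => mem_union_left _ (hF.E0 l hl)
      NF := by
        intro u hu
        unfold SD.P
        rw [hU]
        exact tip_notMem B hDb hω hm (fun q hq => (ok.lev.hC q hq).le) hCE hu
      KR := by
        intro u hu hR
        have h1 := Finset.mem_sdiff.1 (SD.R_sub hR)
        apply h1.2
        rcases hKv u hu with h | h
        · exact mem_union_left _ h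
        · exact mem_union_right _ (mem_inter.2 ⟨h, h1.1⟩)
      conn := hconn
      beta := by rw [hZ.β, hX, B.X_beta]; exact hβ
      near := hnear
      q0k := by rw [hq0lev]; exact h0k
      kK := by omega
      good := fun m => by have := hfar m; linarith
      run := by
        obtain ⟨n', h1, h2, h3⟩ := hrun
        exact ⟨n', h1, h2, fun u hu => hCK u (by rw [hu]; exact h3)⟩ }
  exact ht.tied

/-- **The cells at the tip**: `s.1` is visible, it is in the cell `q0`. -/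
theorem tipP_state (hDb : Bornology.IsBounded D) {j k : ℕ}
    {Z : DEnv} {v : ℤ × ℤ}
    (hZ : StepD B k0 n (B.X k0 n j ω) Z (B.X k0 n (j + 1) ω) v) {q0 q1 : Cell}
    (hF : ChainF B k0 n (B.X k0 n (j + 1) ω) Z v q0 q1) {K : ℕ}
    (hm : 5 * A.δ n ≤ mesh (K + 1))
    (h0k : k0 ≤ k) (hkK : k + 3 ≤ K) (hqbK : B.qb.1 + 3 ≤ K) {ρ : ℝ}
    (hρ : 21 * mesh (K + 1) ≤ ρ) (hgood : B.Good k n ρ (B.X k0 n (j + 1) ω)) {κ : ℤ}
    (hs2 : dir κ = vx Z.α - v) :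
    box (A.δ n) B.o K v - (2 : ℤ) • dir κ ∈
      flat K (Uk D (A.δ n) B.o B.qb K (B.X k0 n (j + 1) ω).E) ∧
    box (A.δ n) B.o K v - (2 : ℤ) • dir κ ∈ fc K q0 := by
  have hδ := A.pos n
  have hη := mesh_pos (K + 1)
  have hw : vx Z.α = v + dir κ := by rw [hs2]; abel
  have hq0lev := hF.lev0
  have hC'lev : ∀ q, q = B.qb ∨ q ∈ cells D B.o k0 → q.1 + 3 ≤ K := by
    intro q hq
    rcases hq with h | h
    · rw [h]; exact hqbK
    · rw [((mem_cells hDb).1 h).1]; omega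
  have hfar := far_tip B hZ hm hρ hgood
  refine tipP_of_chain (q1 := q1)
    (C := insert B.qb (Uk D (A.δ n) B.o B.qb k0 (B.X k0 n (j + 1) ω).E)) hDb hδ (by linarith)
    (Pool.Agent.H53.Q1.Base_gen2 B K n) (by rw [hq0lev]; omega) hF.D0 (dir_dirs κ) hF.v0
    (by rw [← hw]; exact hF.w0) ?_
    (fun q hq => hC'lev q (hF.Cl q (Or.inr hq))) hF.CD hF.CE
    (mem_insert_self _ _) hF.conn hF.q1C hF.adj ?_
  · intro l hl hne
    rw [hZ.succ.E, mem_erase]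
    refine ⟨?_, hF.E0 l hl⟩
    rw [hZ.eq, hw]; exact hne
  · intro m
    rw [hq0lev, ← gpt_lvl B.o h0k]
    exact hfar _

end

end Pool.Agent.H42.Q1
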