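import Mathlib
import Pool.Agent.H14.NB.NLem0
import Pool.Agent.Q1.M3.Count
import Pool.Agent.H28.Q1.Asm

set_option autoImplicit false
open Finset Filter Topology

/-! # N-lemma for the states of the chain

* `Pr_succ` : one step of the exploration costs a factor two.
* `StepD`, `step_env` : the environment `Z` before the last label of a step of the chain.
* `nlem_succ` : the exploration from a state of the chain does not come close to `b` before it meets the
  barrier. -/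

namespace Pool.Agent.H42.Q1

open Pool.Agent.H75.Perc Pool.Agent.H75.TwoArm Pool.Agent.H75.Four Pool.Agent.H99.NC
open Pool.Agent.H69.Q1 Pool.Agent.H39.Q1 Pool.Agent.H28.Q1
open Pool.Agent.Q1.M3 hiding denv_ext fat_sub_cfat
open Pool.Agent.H81.Q1 (pt Approx IsJordanDomain IsArcs)

/-! ### One step costs a factor two -/

lemma Pr_insert_le {E : Finset (ℤ × ℤ)} {e : ℤ × ℤ} (he : e ∉ E) (s : Prop)
    {S S' : Finset (ℤ × ℤ) → Prop}
    (h : ∀ η ⊆ E, S η → (s → S' (insert e η)) ∧ (¬ s → S' η)) :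
    Pr E S ≤ 2 * Pr (insert e E) S' := by
  classical
  unfold Pr
  rw [card_insert_of_notMem he, pow_succ]
  have h1 : (E.powerset.filter S).card ≤ ((insert e E).powerset.filter S').card := by
    by_cases hs : s
    · refine card_le_card_of_injOn (fun η => insert e η) ?_ ?_
      · intro η hη
        rw [mem_coe, mem_filter, mem_powerset] at hη
        rw [mem_coe, mem_filter, mem_powerset]
        exact ⟨insert_subset_insert _ hη.1, (h η hη.1 hη.2).1 hs⟩
      · intro η hη η' hη' heq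
        rw [mem_coe, mem_filter, mem_powerset] at hη hη'
        have h2 : e ∉ η := fun h3 => he (hη.1 h3)
        have h3 : e ∉ η' := fun h3 => he (hη'.1 h3)
        have h4 := congrArg (fun s => s.erase e) heq
        simp only [erase_insert h2, erase_insert h3] at h4
        exact h4
    · refine card_le_card ?_
      intro η hη
      rw [mem_filter, mem_powerset] at hη ⊢
      exact ⟨hη.1.trans (subset_insert _ _), (h η hη.1 hη.2).2 hs⟩
  have h2 : ((E.powerset.filter S).card : ℝ) ≤ ((insert e E).powerset.filter S').card := by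
    exact_mod_cast h1
  rw [div_le_iff₀ (by positivity)]
  have h3 : (0 : ℝ) < 2 ^ E.card := by positivity
  calc ((E.powerset.filter S).card : ℝ) ≤ ((insert e E).powerset.filter S').card := h2
    _ = 2 * (((insert e E).powerset.filter S').card / (2 ^ E.card * 2)) * 2 ^ E.card := by
      field_simp

section

variable {X Y : DEnv}

lemma Succ.insert_E (h : Succ X Y) : insert (plab X.α) Y.E = X.E := by
  rw [h.E, insert_erase h.mem]

lemma Succ.cor_open (_h : Succ X Y) (h1 : Y.W = insert (plab X.α) X.W ∧ Y.α = pvf X.α)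
    (η : Finset (ℤ × ℤ)) (i : ℕ) : X.cor (insert (plab X.α) η) (i + 1) = Y.cor η i := by
  have h2 : insert (plab X.α) η ∪ X.W = η ∪ Y.W := by
    rw [h1.1]; ext x; simp only [mem_union, mem_insert]; tauto
  unfold DEnv.cor
  rw [Function.iterate_succ_apply, h2, h1.2]
  congr 1
  exact pvf_eq (by rw [h1.1, mem_union, mem_insert]; exact Or.inr (Or.inl rfl))

lemma Succ.cor_closed (h : Succ X Y) (h1 : Y.W = X.W ∧ Y.α = pv ∅ X.α)
    {η : Finset (ℤ × ℤ)} (hη : η ⊆ Y.E) (i : ℕ) : X.cor η (i + 1) = Y.cor η i := by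
  unfold DEnv.cor
  rw [Function.iterate_succ_apply, h1.1, h1.2]
  congr 1
  refine pv_eq_of ?_
  constructor
  · intro h2
    rcases mem_union.1 h2 with h3 | h3
    · have := hη h3
      rw [h.E, mem_erase] at this
      exact absurd rfl this.1
    · exact absurd h3 (fun h4 => disjoint_left.1 X.disj h.mem h4)
  · intro h2; exact absurd h2 (notMem_empty _)

/-- **One step of the exploration costs a factor two.** -/
theorem Pr_succ (h : Succ X Y) {S S' : Finset (ℤ × ℤ) → Prop}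
    (hS : ∀ η ⊆ Y.E, S η → ∀ η' ⊆ X.E, (∀ i, X.cor η' (i + 1) = Y.cor η i) → S' η') :
    Pr Y.E S ≤ 2 * Pr X.E S' := by
  have he : plab X.α ∉ Y.E := by rw [h.E]; exact notMem_erase _ _
  rw [← h.insert_E]
  refine Pr_insert_le he (Y.W = insert (plab X.α) X.W ∧ Y.α = pvf X.α) fun η hη h1 => ⟨?_, ?_⟩
  · intro h2
    refine hS η hη h1 _ ?_ (h.cor_open h2 η)
    rw [← h.insert_E]
    exact insert_subset_insert _ hη
  · intro h2
    have h3 := h.st.resolve_left h2
    refine hS η hη h1 _ ?_ (h.cor_closed h3 hη)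
    rw [← h.insert_E]
    exact hη.trans (subset_insert _ _)

end

/-! ### The environment before the last label of a step -/

section

variable {D : Set ℂ} {a b : ℂ} {A₁ A₂ : Set ℂ} {A : Approx D a b A₁ A₂} {r0 : ℝ}
  (B : Base A r0) {k0 n : ℕ}

/-- Labels of a state. -/
lemma mem_EW_of {ω : Finset (ℤ × ℤ)} (hω : ω ⊆ (X0 A n).E) (j : ℕ) {l : ℤ × ℤ}
    (hl : l ∈ (X0 A n).E ∪ (X0 A n).W)
    (hm : ∀ u < B.T k0 n j ω, plab ((X0 A n).cor ω u) ≠ l) :
    l ∈ (B.X k0 n j ω).E ∪ (B.X k0 n j ω).W := by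
  unfold Base.X
  rw [mem_union, Rules.st_E _ hω, Rules.st_W _ hω]
  rcases mem_union.1 hl with h | h
  · left
    rw [Finset.mem_sdiff, Rules.mem_metE]
    refine ⟨h, ?_⟩
    rintro ⟨-, u, hu, h1⟩
    exact hm u hu h1
  · right
    rw [mem_union]
    exact Or.inl h

/-- Labels of the barrier at an unfinished state. -/
lemma kapN_sub {ω : Finset (ℤ × ℤ)} (hω : ω ⊆ (X0 A n).E) (j : ℕ)
    (hfin : ¬ B.Fin n (B.X k0 n j ω)) :
    kap (B.N n) ∩ ((X0 A n).E ∪ (X0 A n).W) ⊆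
      kap (B.N n) ∩ ((B.X k0 n j ω).E ∪ (B.X k0 n j ω).W) := by
  intro l hl
  rw [mem_inter] at hl ⊢
  refine ⟨hl.1, mem_EW_of B hω j hl.2 fun u hu h => ?_⟩
  refine chain_N B hω j hfin u hu ?_
  rw [h]
  exact (mem_filter.1 hl.1).1

/-- The data of the last label of a step: `Z` is the environment before the label `plab Z.α`. -/
structure StepD (k0 n : ℕ) (X Z Y : DEnv) (v : ℤ × ℤ) : Prop where
  inv : Inv Z
  succ : Succ Z Y
  β : Z.β = X.β
  EX : Z.E ⊆ X.E
  stay : ∀ l ∈ star (B.F k0 n X.E), l ∈ X.E ∪ X.W → l ∈ Z.E ∪ Z.W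
  tip : vx Z.α ∉ B.F k0 n X.E
  vU : v ∈ Vn (A.δ n) B.o (Uk D (A.δ n) B.o B.qb k0 X.E)
  vpv : vx (pvf Z.α) = v
  mem1 : plab Z.α ∈ star1 v
  mem2 : plab Z.α ∈ star1 (vx Z.α)
  eq : plab Z.α = v + vx Z.α
  notN : plab Z.α ∉ star (B.N n)
  labY : lab Y.α = plab Z.α
  aft : ∃ (Q : ℕ → (ℕ → ℤ × ℤ) → Prop) (hQ : DEnv.Adapted Q) (ω' : Finset (ℤ × ℤ))
    (hω' : ω' ⊆ X.E), Z = X.after Q hQ ω' hω'
  stayE : ∀ l ∈ star (B.F k0 n X.E), l ∈ X.E → l ∈ Z.E

/-- **The environment before the last label of a step.** -/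
theorem step_env (hD : Bornology.IsBounded D) {X : DEnv} {ω : Finset (ℤ × ℤ)} (hI : Inv X)
    (hω : ω ⊆ X.E) (hfin : ¬ B.Fin n X) (hne : X.α ≠ X.β) (hβ : vx X.β ∈ B.N n)
    (hα : vx X.α ∉ B.F k0 n X.E) (hfinY : ¬ B.Fin n ((B.rules k0 n).nenv X ω)) :
    ∃ Z v, StepD B k0 n X Z ((B.rules k0 n).nenv X ω) v := by
  classical
  obtain ⟨m, hm, v, hv, h1, h2, hw, h3, h4, -, -, -, ht, h8, -⟩ :=
    B.step_spec (k0 := k0) hfin hω hne hβ hα
  set F := B.F k0 n X.E with hF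
  set e := plab (X.cor ω m) with hedef
  have ho : (e.1 + e.2) % 2 = 1 := odd_star1 h3
  have heN : e ∉ star (B.N n) := by
    intro h
    apply hfinY
    unfold Base.Fin
    rw [h8]
    exact h
  have hvU : v ∈ Vn (A.δ n) B.o (Uk D (A.δ n) B.o B.qb k0 X.E) := by
    rcases mem_union.1 hv with h | h
    · exact h
    · exact absurd (star1_sub_star h h3) heN
  have hfree : ∀ c ∈ Uk D (A.δ n) B.o B.qb k0 X.E, c.1 = k0 ∧ Free D (A.δ n) B.o X.E c := fun c hc =>
    ((mem_Uk hD).1 hc).head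
  have hstarU : star (Vn (A.δ n) B.o (Uk D (A.δ n) B.o B.qb k0 X.E)) ⊆ X.E := by
    intro l hl
    obtain ⟨u, hu, h5⟩ := mem_star.1 hl
    obtain ⟨c, hc, h6⟩ := mem_Vn.1 hu
    exact (hfree c hc).2.2 (star1_sub_star h6 h5)
  have heE : e ∈ X.E := hstarU (star1_sub_star hvU h3)
  have hS := succ_of_tau ((B.rules k0 n).ad X) hω hm ht heE (fun j hj h5 => h2 j hj (by
    rw [h5]; exact h1))
  have hnenv : (B.rules k0 n).nenv X ω = X.after ((B.rules k0 n).Q X) ((B.rules k0 n).ad X) ω hω := by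
    unfold Rules.nenv
    congr 1
    exact inter_eq_left.2 hω
  rw [hnenv] at h8 ⊢
  set Y := X.after ((B.rules k0 n).Q X) ((B.rules k0 n).ad X) ω hω with hY
  set Z := atm X ω hω m with hZ
  have hIZ : Inv Z := hI.after _ hω
  have hZα : Z.α = X.cor ω m := atm_α hω hm.le
  have hvpv : vx (pvf Z.α) = v := by
    have h5 := vx_nxO (pvf Z.α)
    have h6 : nxO (pvf Z.α) = Z.α :=
      (Pool.Agent.H75.TwoArm.StrandAux.nx_pv_aux {plab Z.α} Z.α).1 (mem_singleton_self _)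
    rw [h6, (pvf_spec Z.α).2, hZα, ← hedef, h4] at h5
    rw [hZα]
    exact add_right_cancel h5.2
  refine ⟨Z, v, ⟨hIZ, hS, atm_β hω m, ?_, ?_, by rw [hZα]; exact hw, hvU, hvpv,
    by rw [hZα]; exact h3, plab_star1 _, by rw [hZα]; exact h4, by rw [hZα]; exact heN,
    by rw [h8, hZα], ⟨_, _, ω, hω, rfl⟩, fun l h5 h6 => by
      rw [hZ, mem_atm_E hω hm.le]
      exact ⟨h6, fun j hj h7 => h2 j hj (by rw [h7]; exact h5)⟩⟩⟩
  · intro l hl
    rw [hZ, mem_atm_E hω hm.le] at hl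
    exact hl.1
  · intro l h5 h6
    rw [mem_union] at h6 ⊢
    rcases h6 with h6 | h6
    · left
      rw [hZ, mem_atm_E hω hm.le]
      exact ⟨h6, fun j hj h7 => h2 j hj (by rw [h7]; exact h5)⟩
    · right
      rw [hZ, mem_atm_W hω hm.le]
      exact Or.inl h6

end


section

variable {D : Set ℂ} {a b : ℂ} {A₁ A₂ : Set ℂ} {A : Approx D a b A₁ A₂} {r0 : ℝ}

/-- the vertices of connected fat cells are joined -/
lemma co_cells {δ : ℝ} (hδ : 0 < δ) {o : ℂ} {k : ℕ} (hδk : 2 * δ < mesh (k + 1)) {C : Finset Cell}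
    (hC : ∀ q ∈ C, q.1 ≤ k) {q q' : Cell} (hqC : q ∈ C)
    (hqq : Relation.ReflTransGen (fun x y => AdjC o x y ∧ x ∈ C ∧ y ∈ C) q q')
    {u w : ℤ × ℤ} (hu : u ∈ verts δ o q) (hw : w ∈ verts δ o q') :
    Co (kap (Vn δ o C)) u w := by
  have h1 : (((-1 : ℤ) - 0 : ℤ) : ℝ) + 2 < mesh (k + 1) / δ := by
    rw [lt_div_iff₀ hδ]; push_cast; linarith [mesh_pos (k + 1)]
  have hno : ∀ v : ℤ × ℤ, ¬ RB 0 (-1) 0 (-1) v := by
    rintro v ⟨h2, h3, -, -⟩
    omega
  exact route hδ (by linarith [mesh_pos (k + 1)]) hC h1 h1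
    (fun q hq v hv _ => mem_Vn.2 ⟨q, hq, hv⟩) hqC hqq hu (hno _) hw (hno _)

/-- The states of the chain satisfy the invariants. -/
lemma inv_X (B : Base A r0) {k0 n : ℕ} (j : ℕ) (ω : Finset (ℤ × ℤ)) : Inv (B.X k0 n j ω) := by
  induction j with
  | zero => exact Pool.Agent.H28.Q1.inv_toDEnv _
  | succ j ih =>
    rw [B.X_succ]
    exact ih.after _ inter_subset_right

/-- **N-lemma for the states of the chain** (`j ≥ 1`). -/
theorem nlem_succ (hDo : IsOpen D) (hDb : Bornology.IsBounded D) (hA : IsArcs D a b A₁ A₂)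
    (B : Base A r0) (hr : r0 < dist a b) (k0 : ℕ) {ε : ℝ} (hε : 0 < ε) :
    ∃ r' > 0, ∀ᶠ n in atTop, ∀ (j : ℕ) (ω : Finset (ℤ × ℤ)), ω ⊆ (X0 A n).E →
      ¬ B.Fin n (B.X k0 n (j + 1) ω) →
      Pr (B.X k0 n (j + 1) ω).E (fun η => ∃ i,
        (∀ l < i, plab ((B.X k0 n (j + 1) ω).cor η l) ∉ star (B.N n)) ∧
        dist (pt (A.δ n) (vx ((B.X k0 n (j + 1) ω).cor η i))) b < r') ≤ ε := by
  classical
  obtain ⟨haD, hbD⟩ := Pool.Agent.H14.NB.not_mem_of_arcs hDo hA
  -- distance of the cells from `b`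
  set C : Finset Cell := insert B.qb (cells D B.o k0) with hC
  have hCD : ∀ q ∈ C, cfat B.o q ⊆ D := by
    intro q hq
    rcases mem_insert.1 hq with h | h
    · rw [h]; exact (B.subQ 0 _ B.qb_mem).trans Set.inter_subset_left
    · exact ((mem_cells hDb).1 h).2
  obtain ⟨s, hs0, hs⟩ := exists_dist C hCD hbD
  obtain ⟨δ0, hDec⟩ := Pool.Agent.H65.Dom.dec_half
  have hδ0 := (hDec 0).2.1
  have hδ1 := (hDec 0).2.2.1
  obtain ⟨k, hk⟩ : ∃ k : ℕ, 2 * (2 * (1 - δ0) ^ k) ≤ ε := by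
    obtain ⟨k, hk⟩ := exists_pow_lt_of_lt_one (show (0 : ℝ) < ε / 4 by positivity)
      (by linarith : 1 - δ0 < 1)
    exact ⟨k, by linarith⟩
  have h4k : (1 : ℝ) ≤ 4 ^ k := one_le_pow₀ (by norm_num)
  set d := s / 2 with hd
  have hd0 : 0 < d := by positivity
  set r' := d / (1000 * 4 ^ k) / 2 with hr'
  have hr'0 : 0 < r' := by positivity
  refine ⟨r', hr'0, ?_⟩
  set K := max k0 B.qb.1 with hK
  have e1 : ∀ᶠ n in atTop, A.δ n < d / (10000 * 4 ^ k) := A.lim.eventually_lt_const (by positivity)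
  have e2 : ∀ᶠ n in atTop, A.δ n < d / 8 := A.lim.eventually_lt_const (by positivity)
  have e3 : ∀ᶠ n in atTop, A.δ n < r' / 4 := A.lim.eventually_lt_const (by positivity)
  have e4 : ∀ᶠ n in atTop, A.δ n < mesh (K + 1) / 4 :=
    A.lim.eventually_lt_const (by have := mesh_pos (K + 1); positivity)
  have e5 := star_free hDo hDb hA A B.o (C := {B.qb}) (fun q hq => by
    rw [mem_singleton.1 hq]; exact hCD _ (mem_insert_self _ _))
  filter_upwards [e1, e2, e3, e4, B.hN 0, B.conn, B.beta, B.reg_eventually hDb haD hr k0 k0, e5]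
    with n h1 h2 h3 h4 h5 h6 h7 hR hfree j ω hω hfin
  have hδ := A.pos n
  have hst : B.X k0 n (j + 1) ω =
      (B.rules k0 n).nenv (B.X k0 n j ω) ((B.rules k0 n).cf j (X0 A n) ω) := B.X_succ j
  have hfin0 : ¬ B.Fin n (B.X k0 n j ω) := fun g => hfin (B.Fin_succ g)
  obtain ⟨g1, g2, g3⟩ := B.spec_state hDb le_rfl hR hω j hfin0
  have hcf := (B.rules k0 n).cf_sub hω j
  have hIj : Inv (B.X k0 n j ω) := inv_X B j ω
  rw [hst] at hfin
  obtain ⟨Z, v, hZ⟩ := step_env B hDb hIj hcf hfin0 g1 g2 g3 hfin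
  rw [hst]
  set Y := (B.rules k0 n).nenv (B.X k0 n j ω) ((B.rules k0 n).cf j (X0 A n) ω) with hY
  have hX0E : (B.X k0 n j ω).E ⊆ (X0 A n).E := B.X_E hω j
  have hodd : ∀ e ∈ Z.E, (e.1 + e.2) % 2 = 1 := fun e he =>
    Pool.Agent.H28.Q1.odd_toDEnv (A.X n) e (hX0E (hZ.EX he))
  -- vertices of the cells are far from `b`
  have hvfar : ∀ u : ℤ × ℤ, ∀ q ∈ C, u ∈ verts (A.δ n) B.o q → s ≤ dist (pt (A.δ n) u) b := by
    intro u q hq hu
    exact hs q hq _ (fat_sub_cfat B.o q ((mem_verts hδ).1 hu))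
  set U := Uk D (A.δ n) B.o B.qb k0 (B.X k0 n j ω).E with hU
  have hUC : U ⊆ C := (Uk_sub_cells hDb).trans (subset_insert _ _)
  obtain ⟨q1, hq1, hvq1⟩ := mem_Vn.1 hZ.vU
  have hvs : s ≤ dist (pt (A.δ n) v) b := hvfar v q1 (hUC hq1) hvq1
  have hwv : dist (pt (A.δ n) (vx Z.α)) (pt (A.δ n) v) ≤ A.δ n :=
    dist_of_star1 hδ hZ.mem2 hZ.mem1
  have hws : s - A.δ n ≤ dist (pt (A.δ n) (vx Z.α)) b := by
    have := dist_triangle (pt (A.δ n) v) (pt (A.δ n) (vx Z.α)) b
    rw [dist_comm (pt (A.δ n) v) (pt (A.δ n) (vx Z.α))] at this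
    linarith
  -- the route
  obtain ⟨N', hN', -⟩ := h5
  have hqbN : Vn (A.δ n) B.o {B.qb} ⊆ B.N n := by
    rw [hN']
    refine subset_trans (Vn_mono ?_) subset_union_left
    exact singleton_subset_iff.2 B.qb_mem
  set C' : Finset Cell := insert B.qb U with hC'
  have hC'C : C' ⊆ C := insert_subset (mem_insert_self _ _) hUC
  have hC'F : Vn (A.δ n) B.o C' ⊆ B.F k0 n (B.X k0 n j ω).E := by
    intro u hu
    obtain ⟨q, hq, hu'⟩ := mem_Vn.1 hu
    rcases mem_insert.1 hq with h | h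
    · exact mem_union_right _ (hqbN (mem_Vn.2 ⟨q, by rw [h]; exact mem_singleton_self _, hu'⟩))
    · exact mem_union_left _ (mem_Vn.2 ⟨q, h, hu'⟩)
  have hfree' : ∀ c ∈ U, c.1 = k0 ∧ Free D (A.δ n) B.o (B.X k0 n j ω).E c := fun c hc =>
    ((mem_Uk hDb).1 hc).head
  have hkap : kap (Vn (A.δ n) B.o C') ⊆ Z.E ∪ Z.W := by
    intro l hl
    have h8 : l ∈ star (Vn (A.δ n) B.o C') := (mem_filter.1 hl).1
    refine hZ.stay l (star_mono hC'F h8) ?_
    obtain ⟨u, hu, h9⟩ := mem_star.1 h8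
    obtain ⟨q, hq, hu'⟩ := mem_Vn.1 hu
    rcases mem_insert.1 hq with h | h
    · have h10 : l ∈ star (Vn (A.δ n) B.o {B.qb}) :=
        star1_sub_star (mem_Vn.2 ⟨q, by rw [h]; exact mem_singleton_self _, hu'⟩) h9
      refine mem_EW_of B hω j (mem_union_left _ (hfree h10)) fun t ht h11 => ?_
      refine chain_N B hω j hfin0 t ht ?_
      rw [h11]
      exact star_mono hqbN h10
    · exact mem_union_left _ ((hfree' q h).2.2 (star1_sub_star hu' h9))
  have hCconn : Relation.ReflTransGen (fun x y => AdjC B.o x y ∧ x ∈ C' ∧ y ∈ C') q1 B.qb := by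
    have h8 := (mem_Uk hDb).1 hq1
    refine ConnC.induct (P := fun c => Relation.ReflTransGen
      (fun x y => AdjC B.o x y ∧ x ∈ C' ∧ y ∈ C') c B.qb) ?_ ?_ h8
    · intro c hc1 hc2 hc3
      exact Relation.ReflTransGen.single ⟨hc3, mem_insert_of_mem ((mem_Uk hDb).2
        (ConnC.single hc1 hc2 hc3)), mem_insert_self _ _⟩
    · intro c c' hc1 hc2 hc3 hc4 hc5
      exact Relation.ReflTransGen.head ⟨hc3, mem_insert_of_mem ((mem_Uk hDb).2
        (ConnC.cons hc1 hc2 hc3 hc4)), mem_insert_of_mem ((mem_Uk hDb).2 hc4)⟩ hc5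
  have hmK : mesh (K + 1) ≤ mesh (B.qb.1 + 1) := by
    rw [mesh_eq (show B.qb.1 + 1 ≤ K + 1 by rw [hK]; omega)]
    have h8 : (1 : ℝ) ≤ 3 ^ (K + 1 - (B.qb.1 + 1)) := one_le_pow₀ (by norm_num)
    nlinarith [mesh_pos (K + 1)]
  obtain ⟨v0, hv0⟩ := verts_nonempty (o := B.o) hδ
    (show A.δ n < mesh (B.qb.1 + 1) by linarith [mesh_pos (K + 1)]) (le_refl B.qb.1)
  have hv0N : v0 ∈ B.N n := hqbN (mem_Vn.2 ⟨_, mem_singleton_self _, hv0⟩)
  have hroute := co_cells hδ (k := K) (by linarith [mesh_pos (K + 1)]) (C := C') (fun q hq => by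
    rcases mem_insert.1 hq with h | h
    · rw [h, hK]; exact le_max_right _ _
    · rw [(hfree' q h).1, hK]; exact le_max_left _ _) (mem_insert_of_mem hq1) hCconn hvq1 hv0
  set P : Finset (ℤ × ℤ) := insert (plab Z.α) (kap (Vn (A.δ n) B.o C')) with hP
  have hcfar : ∀ u ∈ Vn (A.δ n) B.o C', s ≤ dist (pt (A.δ n) u) b := by
    intro u hu
    obtain ⟨q, hq, hu'⟩ := mem_Vn.1 hu
    exact hvfar u q (hC'C hq) hu'
  have hoZ : ((plab Z.α).1 + (plab Z.α).2) % 2 = 1 := odd_star1 hZ.mem2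
  have hunit : IsUnit4 (v - vx Z.α) := by
    rw [← hZ.vpv]
    have h5 := vx_nxO (pvf Z.α)
    have h6 : nxO (pvf Z.α) = Z.α :=
      (Pool.Agent.H75.TwoArm.StrandAux.nx_pv_aux {plab Z.α} Z.α).1 (mem_singleton_self _)
    rw [h6] at h5
    exact unit_symm h5.1
  have hbound := Pool.Agent.H14.NB.nlem_gen hZ.inv hodd hDec hδ b (d := d) (k := k) (by
    rw [lt_div_iff₀ (by positivity)] at h1; linarith) (K := B.N n) (P := P) ?_ ?_ ?_ ?_ ?_
  · refine le_trans (Pr_succ hZ.succ ?_) ((mul_le_mul_of_nonneg_left hbound (by norm_num)).trans hk)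
    rintro η - ⟨i, hi1, hi2⟩ η' hη' hcor
    refine ⟨i, ?_, ?_⟩
    · intro l hl
      rcases Nat.eq_zero_or_pos l with h | h
      · rw [h, DEnv.cor_zero]; exact hZ.notN
      · obtain ⟨l', rfl⟩ : ∃ l', l = l' + 1 := ⟨l - 1, by omega⟩
        rw [hcor]
        exact hi1 l' (by omega)
    · have h8 := dist_cor_succ Z hδ η' i
      rw [hcor] at h8
      have h9 := dist_triangle (pt (A.δ n) (vx (Z.cor η' i))) (pt (A.δ n) (vx (Y.cor η i))) b
      have h10 : 2 * r' = d / (1000 * 4 ^ k) := by rw [hr']; ring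
      linarith
  · intro l hl
    rcases mem_insert.1 hl with h | h
    · rw [h]; exact mem_union_left _ hZ.succ.mem
    · exact hkap h
  · intro e he
    rcases mem_insert.1 he with h | h
    · have h8 := (mem_star1_iff hoZ).1 hZ.mem1
      have h9 := (mem_star1_iff hoZ).1 hZ.mem2
      have h10 : ∀ u : ℤ × ℤ, plab Z.α ∈ star1 u → d + 2 * A.δ n < dist (pt (A.δ n) u) b := by
        intro u hu
        have h11 := dist_of_star1 hδ hu hZ.mem1
        have h12 := dist_triangle (pt (A.δ n) v) (pt (A.δ n) u) b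
        rw [dist_comm (pt (A.δ n) v) (pt (A.δ n) u)] at h12
        linarith
      rw [h]
      exact ⟨h10 _ ((mem_star1_iff hoZ).2 (Or.inl rfl)), h10 _ ((mem_star1_iff hoZ).2 (Or.inr rfl))⟩
    · have h8 := Pool.Agent.H14.NB.kap_ends h
      have h9 := hcfar _ h8.1
      have h10 := hcfar _ h8.2
      constructor <;> linarith
  · rw [hZ.β, B.X_beta]
    refine Co.trans (v := v) ?_ (Co.trans (v := v0) (hroute.mono ?_) ?_)
    · refine Relation.ReflTransGen.single ⟨hunit, ?_⟩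
      rw [add_comm, ← hZ.eq]
      exact mem_union_left _ (mem_insert_self _ _)
    · exact (subset_insert _ _).trans subset_union_left
    · refine (h6 v0 hv0N _ h7).mono fun l hl => mem_union_right _ ?_
      have h8 := kapN_sub B hω j hfin0 hl
      rw [mem_inter] at h8 ⊢
      refine ⟨h8.1, hZ.stay l ?_ h8.2⟩
      exact star_mono subset_union_right (mem_filter.1 h8.1).1
  · rw [hZ.β, B.X_beta]; exact h7
  · linarith

end

end Pool.Agent.H42.Q1
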