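import Pool.Agent.H42.Q1.TipE
import Pool.Agent.H21.Q1.StD
import Pool.Agent.Q1.M3.Asm.Fin

set_option autoImplicit false
open Finset Filter Topology

/-! # Fields of the comparison for the states `j ≥ 1`

`kp_state` : the solid set is far from the tip. `side_nb`, `tip_side`, `fr_state` : sides. -/

namespace Pool.Agent.H42.Q1

open Pool.Agent.H75.Perc hiding WL
open Pool.Agent.H75.TwoArm Pool.Agent.H75.Four Pool.Agent.H99.NC
open Pool.Agent.H69.Q1 Pool.Agent.H39.Q1 Pool.Agent.H28.Q1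
open Pool.Agent.Q1.M3 hiding denv_ext fat_sub_cfat
open Pool.Agent.Q1.M3.Pg hiding ends_add Gen
open Pool.Agent.H81.Q1 (pt Approx IsJordanDomain IsArcs)
open Pool.Agent.H5.M7 (box_bounds adj_of_fc)
open Pool.Agent.Q1.M4 (Adj4)

/-- Near vertices have near boxes. -/
lemma NB_of_dist {K : ℕ} {o : ℂ} {δ : ℝ} {u v : ℤ × ℤ}
    (h : dist (pt δ u) (pt δ v) < mesh (K + 1)) : NB 1 (box δ o K v) (box δ o K u) := by
  have hm := mesh_pos (K + 1)
  have h1 := Complex.abs_re_le_norm (pt δ u - pt δ v)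
  have h2 := Complex.abs_im_le_norm (pt δ u - pt δ v)
  rw [← Complex.dist_eq] at h1 h2
  rw [Complex.sub_re] at h1
  rw [Complex.sub_im] at h2
  have key : ∀ x y a : ℝ, |x - y| < mesh (K + 1) →
      |⌊(x - a) / mesh (K + 1)⌋ - ⌊(y - a) / mesh (K + 1)⌋| ≤ 1 := by
    intro x y a h
    rw [abs_lt] at h
    have e : (x - a) / mesh (K + 1) - (y - a) / mesh (K + 1) = (x - y) / mesh (K + 1) := by ring
    have e1 : (x - y) / mesh (K + 1) < 1 := by rw [div_lt_one hm]; exact h.2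
    have e2 : -1 < (x - y) / mesh (K + 1) := by rw [lt_div_iff₀ hm]; linarith
    have f1 := Int.floor_le ((x - a) / mesh (K + 1))
    have f2 := Int.lt_floor_add_one ((x - a) / mesh (K + 1))
    have f3 := Int.floor_le ((y - a) / mesh (K + 1))
    have f4 := Int.lt_floor_add_one ((y - a) / mesh (K + 1))
    have g1 : ((⌊(x - a) / mesh (K + 1)⌋ - ⌊(y - a) / mesh (K + 1)⌋ : ℤ) : ℝ) < 2 := by
      push_cast; linarith
    have g2 : (-2 : ℝ) < ((⌊(x - a) / mesh (K + 1)⌋ - ⌊(y - a) / mesh (K + 1)⌋ : ℤ) : ℝ) := by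
      push_cast; linarith
    have g3 : ⌊(x - a) / mesh (K + 1)⌋ - ⌊(y - a) / mesh (K + 1)⌋ < 2 := by exact_mod_cast g1
    have g4 : -2 < ⌊(x - a) / mesh (K + 1)⌋ - ⌊(y - a) / mesh (K + 1)⌋ := by exact_mod_cast g2
    rw [abs_le]
    omega
  exact ⟨key _ _ _ (h1.trans_lt h), key _ _ _ (h2.trans_lt h)⟩

/-- **The coarse cells which do not touch the last label are far from the tip.** -/
theorem far_cell {K k : ℕ} {o : ℂ} {δ : ℝ} {v u : ℤ × ℤ} (hδ : 0 < δ)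
    (hm : 3 * δ ≤ mesh (K + 1)) (hg : Gen2 K o δ) (hkK : k < K)
    (hgood : ∀ m, 3 * mesh (K + 1) ≤ dist (pt δ v) (gpt o k m)) {q0 q : Cell}
    (h0 : q0.1 ≤ k) (hq : q.1 ≤ k) {κ : ℤ} (hv0 : v ∈ verts δ o q0)
    (hw0 : v + dir κ ∉ verts δ o q0) (hv : v ∉ verts δ o q) (hw : v + dir κ ∉ verts δ o q)
    (hu : u ∈ verts δ o q) : mesh (K + 1) ≤ dist (pt δ u) (pt δ v) := by
  by_contra hcon
  push Not at hcon
  obtain ⟨n1, n2⟩ := NB_of_dist (o := o) hcon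
  rw [Pg.mem_verts_iff hδ hg (show q.1 ≤ K by omega)] at hu hv hw
  rw [Pg.mem_verts_iff hδ hg (show q0.1 ≤ K by omega)] at hv0 hw0
  have hbw : box δ o K (v + dir κ) = box δ o K v + dir κ := by
    rcases Pool.Agent.H5.M7.box_step hδ hm hg (v := v) (dir_dirs κ) with h | h
    · exact absurd (h ▸ hv0) hw0
    · exact h
  rw [hbw] at hw hw0
  rw [abs_le] at n1 n2
  have key : ∀ z' z : ℤ × ℤ, (z' = box δ o K v ∨ z' = box δ o K v + dir κ ∨
      z' = box δ o K v - dir κ) → (z = z' ∨ Adj4 z' z) → z ∉ fc K q := fun z' z =>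
    notMem_fc_near hg hkK hgood h0 hq hv0 hw0 hv hw
  refine absurd hu ?_
  generalize box δ o K u = c' at n1 n2 ⊢
  generalize box δ o K v = c at n1 n2 key
  obtain ⟨x, y⟩ := c
  obtain ⟨x', y'⟩ := c'
  simp only at n1 n2
  have hadj : ∀ a b a' b' : ℤ, (a' = a ∧ (b' = b + 1 ∨ b' = b - 1)) ∨
      (b' = b ∧ (a' = a + 1 ∨ a' = a - 1)) → Adj4 (a, b) (a', b') := by
    intro a b a' b' h
    rcases h with ⟨rfl, h | h⟩ | ⟨rfl, h | h⟩
    · exact ⟨1, by rw [h]; simp [dir]⟩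
    · exact ⟨3, by rw [h]; simp [dir, sub_eq_add_neg]⟩
    · exact ⟨0, by rw [h]; simp [dir]⟩
    · exact ⟨2, by rw [h]; simp [dir, sub_eq_add_neg]⟩
  rcases dir_cases κ with ⟨-, e⟩ | ⟨-, e⟩ | ⟨-, e⟩ | ⟨-, e⟩ <;> rw [e] at key <;>
    simp only [Prod.mk_add_mk, Prod.mk_sub_mk, add_zero, sub_zero, sub_neg_eq_add] at key
  · refine key (x', y) (x', y') ?_ ?_
    · simp only [Prod.mk.injEq, and_true]; omega
    · by_cases h : y' = y
      · left; rw [h]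
      · right; exact hadj _ _ _ _ (Or.inl ⟨rfl, by omega⟩)
  · refine key (x, y') (x', y') ?_ ?_
    · simp only [Prod.mk.injEq, true_and]; omega
    · by_cases h : x' = x
      · left; rw [h]
      · right; exact hadj _ _ _ _ (Or.inr ⟨rfl, by omega⟩)
  · refine key (x', y) (x', y') ?_ ?_
    · simp only [Prod.mk.injEq, and_true]; omega
    · by_cases h : y' = y
      · left; rw [h]
      · right; exact hadj _ _ _ _ (Or.inl ⟨rfl, by omega⟩)
  · refine key (x, y') (x', y') ?_ ?_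
    · simp only [Prod.mk.injEq, true_and]; omega
    · by_cases h : x' = x
      · left; rw [h]
      · right; exact hadj _ _ _ _ (Or.inr ⟨rfl, by omega⟩)

section

variable {D : Set ℂ} {a b : ℂ} {A₁ A₂ : Set ℂ} {A : Approx D a b A₁ A₂} {r0 : ℝ} (B : Base A r0)
  {k0 n : ℕ} {ω : Finset (ℤ × ℤ)}

/-- **The solid set is far from the tip.** -/
theorem kp_state (hDb : Bornology.IsBounded D) {j k : ℕ} {Z : DEnv} {v : ℤ × ℤ}
    (hZ : StepD B k0 n (B.X k0 n j ω) Z (B.X k0 n (j + 1) ω) v) {q0 q1 : Cell}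
    (hF : ChainF B k0 n (B.X k0 n (j + 1) ω) Z v q0 q1) (h0k : k0 ≤ k) {ρ : ℝ}
    (hgood : B.Good k n ρ (B.X k0 n (j + 1) ω)) {K : ℕ} (hkK : k < K)
    (hm : 3 * A.δ n ≤ mesh (K + 1)) (hρ : 4 * mesh (K + 1) ≤ ρ) {s : ℝ}
    (hs : ∀ q ∈ insert B.qb (cells D B.o k0), ∀ x ∈ cfat B.o q, s ≤ dist x b) {M0 : ℕ}
    (hQk : ∀ q ∈ B.Q M0, q.1 ≤ k) {N' : Finset (ℤ × ℤ)}
    (hN : B.N n = Vn (A.δ n) B.o (B.Q M0) ∪ N') {r : ℝ}
    (hN' : ∀ u ∈ N', pt (A.δ n) u ∈ Metric.ball b r) (hr : mesh (K + 1) + r ≤ s)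
    {C : Finset Cell} (hC : C ⊆ Ule D (A.δ n) B.o B.qb k0 k (B.X k0 n (j + 1) ω).E) :
    ∀ u ∈ Vn (A.δ n) B.o C ∪ B.N n, mesh (K + 1) ≤ dist (pt (A.δ n) u) (pt (A.δ n) v) := by
  classical
  have hδ := A.pos n
  have hgen : Gen2 K B.o (A.δ n) := Pool.Agent.H53.Q1.Base_gen2 B K n
  set Y := B.X k0 n (j + 1) ω with hY
  obtain ⟨κ, hκ⟩ : ∃ κ : ℤ, vx Z.α = v + dir κ := by
    have h9 := (pvf_step Z.α).1
    rw [hZ.vpv] at h9
    have h10 := sub_add_cancel (vx Z.α) v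
    rw [add_comm] at h10
    unfold IsUnit4 at h9
    rcases h9 with h | h | h | h
    · exact ⟨0, by rw [← h10, h]; simp [dir]⟩
    · exact ⟨1, by rw [← h10, h]; simp [dir]⟩
    · exact ⟨2, by rw [← h10, h]; simp [dir]⟩
    · exact ⟨3, by rw [← h10, h]; simp [dir]⟩
  have hfar : ∀ m, 3 * mesh (K + 1) ≤ dist (pt (A.δ n) v) (gpt B.o k m) := by
    intro m
    have hvY : dist (pt (A.δ n) v) (pt (A.δ n) (vx Y.α)) ≤ A.δ n := by
      refine dist_of_star1 hδ hZ.mem1 ?_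
      rw [← hZ.labY]; exact lab_star1 _
    have h1 := hgood m
    have h2 := dist_triangle (pt (A.δ n) (vx Y.α)) (pt (A.δ n) v) (gpt B.o k m)
    have h3 := dist_comm (pt (A.δ n) (vx Y.α)) (pt (A.δ n) v)
    have h4 := mesh_pos (K + 1)
    linarith
  have hvb : s ≤ dist (pt (A.δ n) v) b := by
    refine hs q0 ?_ _ (fat_sub_cfat _ _ ((mem_verts hδ).1 hF.v0))
    rcases hF.Cl q0 (Or.inl rfl) with h | h
    · rw [h]; exact mem_insert_self _ _
    · exact mem_insert_of_mem h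
  have key : ∀ q : Cell, q.1 ≤ k → plab Z.α ∉ star (verts (A.δ n) B.o q) →
      ∀ u ∈ verts (A.δ n) B.o q, mesh (K + 1) ≤ dist (pt (A.δ n) u) (pt (A.δ n) v) := by
    intro q hq he u hu
    refine far_cell (k := k) hδ hm hgen hkK hfar (by rw [hF.lev0]; exact h0k) hq hF.v0
      (by rw [← hκ]; exact hF.w0) (fun h => he (star1_sub_star h hZ.mem1)) (fun h => ?_) hu
    rw [← hκ] at h
    exact he (star1_sub_star h hZ.mem2)
  have heY : plab Z.α ∉ Y.E := by rw [hZ.succ.E]; exact notMem_erase _ _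
  intro u hu
  rcases mem_union.1 hu with h | h
  · obtain ⟨q, hq, huq⟩ := mem_Vn.1 h
    have h1 := (mem_Ule hDb).1 (hC hq)
    exact key q h1.2.1 (fun h9 => heY ((Ule_free hDb (hC hq)).2 h9)) u huq
  · rw [hN] at h
    rcases mem_union.1 h with h | h
    · obtain ⟨q, hq, huq⟩ := mem_Vn.1 h
      refine key q (hQk q hq) (fun h9 => hZ.notN (star_mono ?_ h9)) u huq
      intro x hx
      rw [hN]
      exact mem_union_left _ (mem_Vn.2 ⟨q, hq, hx⟩)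
    · have h9 := Metric.mem_ball.1 (hN' u h)
      have h11 := dist_triangle (pt (A.δ n) v) (pt (A.δ n) u) b
      rw [dist_comm (pt (A.δ n) v) (pt (A.δ n) u)] at h11
      linarith

end

/-! ### Sides -/

section

variable {d : SD} {o : ℂ} {δ : ℝ}

/-- The points of a side are near the outer cell. -/
lemma side_nb (h : d.Ok) (hf : d.Fine o δ) {s j : ℕ} (hj : j ≤ d.ln o δ s) :
    NB 1 (d.sid s).1 (box δ o d.K (d.pt' o δ s j)) ∧
      NB 2 (d.oc' s) (box δ o d.K (d.pt' o δ s j)) := by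
  have h3 := SD.three_ln hf s
  have h1 : NB 1 (d.sid s).1 (box δ o d.K (d.pt' o δ s j)) := by
    by_cases h0 : j = 0
    · have e1 := (SD.side_box' h hf (n := s) (j := 1) one_pos (by omega)).1
      have e2 := Pool.Agent.Q1.M3.Asm.pt_succ (d := d) (o := o) (δ := δ) s 0
      rw [← e1, h0]
      refine NB.symm (NB.box_step hf.hδ hf.hm3 hf.gen ?_)
      rw [zero_add] at e2
      rw [e2, add_sub_cancel_left]
      exact isUnit4_dir _
    by_cases h2 : j = d.ln o δ s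
    · obtain ⟨m, hm⟩ : ∃ m, d.ln o δ s = m + 1 := ⟨d.ln o δ s - 1, by omega⟩
      have e1 := (SD.side_box' h hf (n := s) (j := m) (by omega) (by omega)).1
      have e2 := Pool.Agent.Q1.M3.Asm.pt_succ (d := d) (o := o) (δ := δ) s m
      rw [← e1, h2, hm]
      refine NB.box_step hf.hδ hf.hm3 hf.gen ?_
      rw [e2, add_sub_cancel_left]
      exact isUnit4_dir _
    · rw [(SD.side_box' h hf (n := s) (j := j) (by omega) (by omega)).1]
      exact NB.refl (by norm_num) _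
  refine ⟨h1, ?_⟩
  have h4 : NB 1 (d.oc' s) (d.sid s).1 :=
    (NB.of_adj (⟨(d.sid s).2 - 1, rfl⟩ : Adj4 (d.sid s).1 (d.oc' s))).symm
  exact (h4.trans h1).mono (by norm_num)

/-- The tip side is near the tip. -/
lemma tip_side (h : d.Ok) (hf : d.Fine o δ) {v : ℤ × ℤ} {κ : ℤ}
    (hs1 : d.s.1 = box δ o d.K v - (2 : ℤ) • dir κ) {ρ : ℝ} (hρ : 8 * mesh (d.K + 1) < ρ) {j : ℕ}
    (hj : j ≤ d.ln o δ 0) : dist (pt δ (d.pt' o δ 0 j)) (pt δ v) < ρ := by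
  have h1 := (side_nb h hf hj).1
  have h2 : NB 2 (box δ o d.K v) (d.sid 0).1 := by
    change NB 2 (box δ o d.K v) d.s.1
    rw [hs1]
    unfold NB
    rcases dir_cases κ with ⟨-, e⟩ | ⟨-, e⟩ | ⟨-, e⟩ | ⟨-, e⟩ <;> rw [e] <;> simp
  have h3 := dist_of_NB hf.gen (h2.trans h1)
  push_cast at h3
  linarith

/-- **The sides outside the run.** -/
theorem fr_of (h : d.Ok) (hf : d.Fine o δ) {Kv τ T E : Finset (ℤ × ℤ)} {v : ℤ × ℤ}
    (hτ : ∀ u, Vl τ u → NB 3 (box δ o d.K v) (box δ o d.K u))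
    (hT : ∀ e ∈ T, NB 3 (box δ o d.K v) (box δ o d.K (eu e)) ∧
      NB 3 (box δ o d.K v) (box δ o d.K (ev e)))
    (hKv : ∀ u ∈ Kv, box δ o d.K u ∈ flat d.K d.C ∨ box δ o d.K u ∈ fc d.K d.B) {b : ℂ} {ρ : ℝ}
    (hBB : ∀ x ∈ fat o d.B, dist x b < ρ / 2) (hρ : 56 * mesh (d.K + 1) < ρ)
    (hdead : ∀ i, d.oc' i ∉ d.P → DeadAt d.K o δ d.P E (d.oc' i)) {s j : ℕ} (hs : s < d.N)
    (hrun : ¬ (d.n1 ≤ s ∧ s < d.n2)) (hj : j ≤ d.ln o δ s)
    (h1 : ρ ≤ dist (pt δ (d.pt' o δ s j)) (pt δ v)) (h2 : ρ ≤ dist (pt δ (d.pt' o δ s j)) b) :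
    Fr d.K o δ d.P Kv τ T E (d.oc' s) := by
  have hm := mesh_pos (d.K + 1)
  have hnb := (side_nb h hf hj).2
  -- boxes near the tip
  have hfar : ∀ u, NB 3 (box δ o d.K v) (box δ o d.K u) → ¬ NB 8 (d.oc' s) (box δ o d.K u) := by
    intro u h3 h4
    have h5 := dist_of_NB hf.gen ((h3.trans h4.symm).trans hnb)
    push_cast at h5
    linarith
  -- boxes near `b`
  have hbox : ∀ u, NB 8 (d.oc' s) (box δ o d.K u) → box δ o d.K u ∉ fc d.K d.B := by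
    intro u h3 h4
    have h5 := dist_of_NB hf.gen (h3.symm.trans hnb)
    have h6 := hBB _ ((mem_verts hf.hδ).1 ((Pg.mem_verts_iff hf.hδ hf.gen h.lev.hB.le).2 h4))
    have h7 := dist_triangle (pt δ (d.pt' o δ s j)) (pt δ u) b
    push_cast at h5
    linarith
  refine ⟨fun u hu h3 => ?_, fun u hu => hfar u (hτ u hu), fun e he => ⟨hfar _ (hT e he).1,
    hfar _ (hT e he).2⟩, hdead s ?_⟩
  · rcases hKv u hu with h4 | h4
    · exact flat_sub_PP subset_union_right h4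
    · exact absurd h4 (hbox u h3)
  · rcases h.mark.out h hs hrun with h3 | h3
    · exact h3
    · exfalso
      have h4 := SD.three_ln hf s
      have h5 := (SD.side_box' h hf (n := s) (j := 1) one_pos (by omega)).2
      refine hbox (d.pt' o δ s 1 + dir ((d.sid s).2 - 1)) ?_ ?_
      · rw [h5]; exact NB.refl (by norm_num) _
      · rw [h5]; exact h3.2

end

/-! ### The channel -/

section

variable {D : Set ℂ} {a b : ℂ} {A₁ A₂ : Set ℂ} {A : Approx D a b A₁ A₂} {r0 : ℝ} (B : Base A r0)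
  {k0 n : ℕ} {ω : Finset (ℤ × ℤ)}

/-- **The channel from the tip to the run is far from `b`.** -/
theorem ch_state (hDb : Bornology.IsBounded D) {j k : ℕ}
    {Z : DEnv} {v : ℤ × ℤ}
    (hZ : StepD B k0 n (B.X k0 n j ω) Z (B.X k0 n (j + 1) ω) v) {q0 q1 : Cell}
    (hF : ChainF B k0 n (B.X k0 n (j + 1) ω) Z v q0 q1) {d : SD} (ok : d.Ok)
    (hm : 5 * A.δ n ≤ mesh (d.K + 1))
    (hU : d.U = Uk D (A.δ n) B.o B.qb d.K (B.X k0 n (j + 1) ω).E)
    (hs1 : d.s.1 = box (A.δ n) B.o d.K v - (2 : ℤ) • dir (d.s.2 - 1))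
    (hs2 : dir (d.s.2 - 1) = vx Z.α - v)
    (h0k : k0 ≤ k) (hkK : k + 3 ≤ d.K) (hqbK : B.qb.1 + 3 ≤ d.K) {ρ : ℝ}
    (hρ : 21 * mesh (d.K + 1) ≤ ρ) (hgood : B.Good k n ρ (B.X k0 n (j + 1) ω))
    (hBB : ∀ q, q = B.qb ∨ q ∈ cells D B.o k0 → ¬ AdjC B.o q d.B) (hqbC : B.qb ∈ d.C) {s : ℝ}
    (hs : ∀ q ∈ insert B.qb (cells D B.o k0), ∀ x ∈ cfat B.o q, s ≤ dist x b) {r : ℝ}
    (hr : r + 8 * mesh (d.K + 1) ≤ s) :
    ∃ (S : Set (ℤ × ℤ)) (n' : ℕ), d.n1 ≤ n' ∧ n' < d.n2 ∧ d.s.1 ∈ S ∧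
      J4 (S ∩ (d.R : Set (ℤ × ℤ))) d.s.1 (d.sid n').1 ∧
      ∀ u, (∃ q ∈ S, |(box (A.δ n) B.o d.K u).1 - q.1| ≤ 3 ∧
        |(box (A.δ n) B.o d.K u).2 - q.2| ≤ 3) → r ≤ dist (pt (A.δ n) u) b := by
  classical
  have hδ := A.pos n
  set Y := B.X k0 n (j + 1) ω with hY
  have hw : vx Z.α = v + dir (d.s.2 - 1) := by rw [hs2]; abel
  have hgen : Gen2 d.K B.o (A.δ n) := Pool.Agent.H53.Q1.Base_gen2 B d.K n
  have hfine : d.Fine B.o (A.δ n) := ⟨hδ, hm, hgen⟩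
  have hq0lev := hF.lev0
  have hC'lev : ∀ q, q = B.qb ∨ q ∈ cells D B.o k0 → q.1 + 3 ≤ d.K := by
    intro q hq
    rcases hq with h | h
    · rw [h]; exact hqbK
    · rw [((mem_cells hDb).1 h).1]; omega
  have hfar := far_tip B hZ hm hρ hgood
  obtain ⟨S, n', h1, h2, -, h4, h5, h6⟩ := channel_of_chain (E := Y.E) (qb := B.qb) (q0 := q0)
      (q1 := q1) (v := v)
      (C := insert B.qb (Uk D (A.δ n) B.o B.qb k0 Y.E)) hDb ok hfine hU hs1
      (by rw [hq0lev]; omega) hF.D0 hF.v0 (by rw [← hw]; exact hF.w0) (by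
        intro l hl hne
        rw [hZ.succ.E, mem_erase]
        refine ⟨?_, hF.E0 l hl⟩
        rw [hZ.eq, hw]; exact hne)
      (fun q hq => hC'lev q (hF.Cl q (Or.inr hq))) hF.CD hF.CE
      (mem_insert_self _ _) hF.conn hF.q1C hF.adj (by
        intro m
        rw [hq0lev, ← gpt_lvl B.o h0k]
        exact hfar _) (fun q hq => hBB q (hF.Cl q hq)) hqbC
  refine ⟨S, n', h1, h2, h4, h5, ?_⟩
  rintro u ⟨c, hc, h7, h8⟩
  obtain ⟨q, hq, hcq⟩ := h6 c hc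
  have hqC := hF.Cl q hq
  obtain ⟨x, hx⟩ := exists_col (o := B.o.re) hδ hfine.hm3 c.1
  obtain ⟨y, hy⟩ := exists_col (o := B.o.im) hδ hfine.hm3 c.2
  have hu : box (A.δ n) B.o d.K (x, y) = c := by rw [box_eq, hx, hy]
  have hqK : q.1 ≤ d.K := by have := hC'lev q hqC; omega
  have h9 : s ≤ dist (pt (A.δ n) (x, y)) b := by
    refine hs q ?_ _ (fat_sub_cfat _ _ ((mem_verts hδ).1
      ((Pg.mem_verts_iff hδ hgen hqK).2 (by rw [hu]; exact hcq))))
    rcases hqC with h | h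
    · rw [h]; exact mem_insert_self _ _
    · exact mem_insert_of_mem h
  have h10 : NB 3 (box (A.δ n) B.o d.K (x, y)) (box (A.δ n) B.o d.K u) := by
    rw [hu]; exact ⟨h7, h8⟩
  have h11 := dist_of_NB hgen h10
  have h12 := dist_triangle (pt (A.δ n) (x, y)) (pt (A.δ n) u) b
  rw [dist_comm (pt (A.δ n) (x, y)) (pt (A.δ n) u)] at h12
  push_cast at h11
  linarith

end

end Pool.Agent.H42.Q1
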