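import Pool.Agent.H42.Q1.OneA

set_option autoImplicit false
open Finset Filter Topology

/-! # No small crosscuts in the states `j ≥ 1` -/

namespace Pool.Agent.H42.Q1

open Pool.Agent.H75.Perc hiding WL
open Pool.Agent.H75.TwoArm Pool.Agent.H75.Four Pool.Agent.H99.NC
open Pool.Agent.H69.Q1 Pool.Agent.H39.Q1 Pool.Agent.H28.Q1
open Pool.Agent.Q1.M3 hiding denv_ext fat_sub_cfat
open Pool.Agent.H81.Q1 (pt Approx IsJordanDomain IsArcs)
open Pool.Agent.H21.Q1 (NoCut)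

section

variable {D : Set ℂ} {a b : ℂ} {A₁ A₂ : Set ℂ} {A : Approx D a b A₁ A₂} {r0 : ℝ} (B : Base A r0)
  {k0 n : ℕ} {ω : Finset (ℤ × ℤ)}

/-- **No small crosscuts in a state.** -/
theorem cut_state (hDb : Bornology.IsBounded D) (hω : ω ⊆ (X0 A n).E) {j : ℕ}
    (hfin : ¬ B.Fin n (B.X k0 n (j + 1) ω)) (hR : B.Reg k0 k0 n) {k M : ℕ} (hk0 : k0 ≤ k)
    (hδk : A.δ n < mesh (k + 1)) (hQk : ∀ q ∈ B.Q M, q.1 ≤ k) {N' : Finset (ℤ × ℤ)}
    (hN : B.N n = Vn (A.δ n) B.o (B.Q M) ∪ N') (hqb : B.qb ∈ B.Q M)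
    (hβN : vx (X0 A n).β ∈ N') (hQE : star (Vn (A.δ n) B.o (B.Q M)) ⊆ (X0 A n).E)
    (hconn : ∀ u ∈ B.N n, ∀ v ∈ B.N n, Co (kap (B.N n) ∩ ((X0 A n).E ∪ (X0 A n).W)) u v)
    {p q r s : ℤ} (hx : ((q - p : ℤ) : ℝ) + 2 < mesh (k + 1) / A.δ n)
    (hy : ((s - r : ℤ) : ℝ) + 2 < mesh (k + 1) / A.δ n)
    (hN' : ∀ v ∈ N', ¬ RB (p - 1) (q + 1) (r - 1) (s + 1) v)
    (htip : ¬ RB p q r s (eu (lab (B.X k0 n (j + 1) ω).α)) ∧
      ¬ RB p q r s (ev (lab (B.X k0 n (j + 1) ω).α))) :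
    NoCut (B.X k0 n (j + 1) ω) p q r s := by
  have hst : B.X k0 n (j + 1) ω =
      (B.rules k0 n).nenv (B.X k0 n j ω) ((B.rules k0 n).cf j (X0 A n) ω) := B.X_succ j
  have hfin0 : ¬ B.Fin n (B.X k0 n j ω) := fun g => hfin (B.Fin_succ g)
  obtain ⟨g1, g2, g3⟩ := B.spec_state hDb le_rfl hR hω j hfin0
  have hcf := (B.rules k0 n).cf_sub hω j
  have hNs : Vn (A.δ n) B.o (B.Q M) ⊆ B.N n := by rw [hN]; exact subset_union_left
  have hQX := Pool.Agent.Q1.M3.Pg.starQ_free B hω hfin0 hQE hNs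
  have hβ' : vx (B.X k0 n j ω).β ∈ N' := by rw [B.X_beta]; exact hβN
  have hXβ : (B.X k0 n j ω).β = (B.X k0 n (j + 1) ω).β := by rw [B.X_beta, B.X_beta]
  have hconn' : ∀ u ∈ B.N n, ∀ v ∈ B.N n,
      Co (kap (B.N n) ∩ ((B.X k0 n j ω).E ∪ (B.X k0 n j ω).W)) u v := fun u hu v hv =>
    (hconn u hu v hv).mono (kapN_sub B hω j hfin0)
  intro T hT hTI hTv z z' f hz hzT hNz hp hf
  rw [← hXβ] at hTv
  rw [hst] at hfin htip hT hTv hp hf
  exact base_iso B hDb (A.pos n) hk0 hδk hQk hN hqb (inv_X B j ω) hcf hfin0 g1 g2 hβ' hQX hconn'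
    g3 hfin hx hy hN' htip hT hTI hTv hz hzT hNz hp hf

lemma dist_le_two {δ : ℝ} (hδ : 0 < δ) {u w : ℤ × ℤ} (h1 : |u.1 - w.1| ≤ 1) (h2 : |u.2 - w.2| ≤ 1) :
    dist (pt δ u) (pt δ w) ≤ 2 * δ := by
  rw [Complex.dist_eq]
  refine (Complex.norm_le_abs_re_add_abs_im _).trans ?_
  rw [Complex.sub_re, Complex.sub_im]
  unfold pt
  simp only
  have e1 : |δ * (u.1 : ℝ) - δ * w.1| ≤ δ := by
    rw [← mul_sub, abs_mul, abs_of_pos hδ]
    have : |((u.1 : ℝ) - w.1)| ≤ 1 := by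
      have : |((u.1 - w.1 : ℤ) : ℝ)| ≤ 1 := by exact_mod_cast h1
      simpa using this
    nlinarith
  have e2 : |δ * (u.2 : ℝ) - δ * w.2| ≤ δ := by
    rw [← mul_sub, abs_mul, abs_of_pos hδ]
    have : |((u.2 : ℝ) - w.2)| ≤ 1 := by
      have : |((u.2 - w.2 : ℤ) : ℝ)| ≤ 1 := by exact_mod_cast h2
      simpa using this
    nlinarith
  linarith

/-- **No small crosscuts far from the tip and from `b`.** -/
theorem cut_mk (hDo : IsOpen D) (hDb : Bornology.IsBounded D) (hA : IsArcs D a b A₁ A₂)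
    (hr : r0 < dist a b) (k0 : ℕ) {ρ : ℝ} (hρ : 0 < ρ) :
    ∃ σ > 0, ∀ᶠ n in atTop, ∀ ω, ω ⊆ (X0 A n).E → ∀ j, ¬ B.Fin n (B.X k0 n (j + 1) ω) →
      ∀ v, lab (B.X k0 n (j + 1) ω).α ∈ star1 v → ∀ (c : ℤ × ℤ) (R : ℤ), 0 ≤ R →
        A.δ n * (2 * R) < σ →
        (∀ u, RB (c.1 - R) (c.1 + R) (c.2 - R) (c.2 + R) u →
          ρ ≤ dist (pt (A.δ n) u) (pt (A.δ n) v) ∧ ρ ≤ dist (pt (A.δ n) u) b) →
        NoCut (B.X k0 n (j + 1) ω) (c.1 - R) (c.1 + R) (c.2 - R) (c.2 + R) := by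
  classical
  obtain ⟨haD, hbD⟩ := Pool.Agent.H14.NB.not_mem_of_arcs hDo hA
  obtain ⟨M, hM⟩ := (B.rlim.eventually_lt_const (show 0 < ρ / 2 by positivity)).exists
  set k := max k0 ((B.Q M).sup (fun q => q.1)) with hk
  have hQk : ∀ q ∈ B.Q M, q.1 ≤ k := fun q hq =>
    (Finset.le_sup (f := fun q : Cell => q.1) hq).trans (le_max_right _ _)
  have hm := mesh_pos (k + 1)
  have hQD : ∀ q ∈ B.Q M, cfat B.o q ⊆ D := fun q hq =>
    (B.subQ M q hq).trans Set.inter_subset_left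
  obtain ⟨s, hs0, hs⟩ := exists_dist (B.Q M) hQD hbD
  have hqb : B.qb ∈ B.Q M := Pool.Agent.Q1.M3.Pg.qb_mem_Q B M
  refine ⟨mesh (k + 1) / 2, by positivity, ?_⟩
  have e1 : ∀ᶠ n in atTop, A.δ n < min (mesh (k + 1) / 5) (ρ / 4) :=
    A.lim.eventually_lt_const (by positivity)
  have e5 : ∀ᶠ n in atTop, dist (pt (A.δ n) (A.X n).β.1) b < s :=
    (tendsto_iff_dist_tendsto_zero.1 A.limβ).eventually_lt_const (by positivity)
  filter_upwards [e1, e5, B.hN M, B.conn, B.reg_eventually hDb haD hr k0 k0,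
    star_free hDo hDb hA A B.o hQD] with n h1 h2 h3 h4 hR h5 ω hω j hfin v hv c R hR0 hRσ hbox
  have hδ := A.pos n
  have h1a := h1.trans_le (min_le_left _ _)
  have h1b := h1.trans_le (min_le_right _ _)
  obtain ⟨N', hN, hN'⟩ := h3
  have hβ : vx (X0 A n).β = (A.X n).β.1 := by
    change vx (A.X n).toDEnv.β = _
    rw [Pool.Agent.H81.Q1.toDEnv_β, vx_cor]
  have hβN : vx (X0 A n).β ∈ N' := by
    have h6 := hR.beta
    rw [hN] at h6
    rcases mem_union.1 h6 with h7 | h7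
    · exfalso
      obtain ⟨q, hq, h8⟩ := mem_Vn.1 h7
      rw [mem_verts hδ, hβ] at h8
      exact absurd h2 (not_lt.2 (hs q hq _ (fat_sub_cfat _ _ h8)))
    · exact h7
  have hsize : (((c.1 + R) - (c.1 - R) : ℤ) : ℝ) + 2 < mesh (k + 1) / A.δ n := by
    rw [lt_div_iff₀ hδ]
    push_cast
    have : A.δ n * (2 * R) < mesh (k + 1) / 2 := hRσ
    nlinarith
  have hsize' : (((c.2 + R) - (c.2 - R) : ℤ) : ℝ) + 2 < mesh (k + 1) / A.δ n := by
    rw [lt_div_iff₀ hδ]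
    push_cast
    have : A.δ n * (2 * R) < mesh (k + 1) / 2 := hRσ
    nlinarith
  -- vertices near `v` are not in the box
  have hnv : ∀ u, lab (B.X k0 n (j + 1) ω).α ∈ star1 u →
      ¬ RB (c.1 - R) (c.1 + R) (c.2 - R) (c.2 + R) u := by
    intro u hu h6
    have h7 := (hbox u h6).1
    have h8 := dist_of_star1 hδ hu hv
    linarith
  have hodd := odd_star1 hv
  refine cut_state B hDb hω hfin hR (le_max_left _ _) (by linarith) hQk hN hqb hβN h5 h4 hsize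
    hsize' ?_ ⟨hnv _ ((mem_star1_iff hodd).2 (Or.inl rfl)),
      hnv _ ((mem_star1_iff hodd).2 (Or.inr rfl))⟩
  intro w hw h6
  have h7 := Metric.mem_ball.1 (hN' w hw)
  -- a vertex of the box near `w`
  obtain ⟨u, hu1, hu2, hu3⟩ : ∃ u : ℤ × ℤ, RB (c.1 - R) (c.1 + R) (c.2 - R) (c.2 + R) u ∧
      |u.1 - w.1| ≤ 1 ∧ |u.2 - w.2| ≤ 1 := by
    refine ⟨(max (c.1 - R) (min (c.1 + R) w.1), max (c.2 - R) (min (c.2 + R) w.2)), ?_, ?_, ?_⟩
    · unfold RB; simp only; omega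
    · unfold RB at h6
      rw [abs_le]
      simp only
      omega
    · unfold RB at h6
      rw [abs_le]
      simp only
      omega
  have h8 := (hbox u hu1).2
  have h9 := dist_le_two hδ hu2 hu3
  have h10 := dist_triangle (pt (A.δ n) u) (pt (A.δ n) w) b
  linarith

end

end Pool.Agent.H42.Q1
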