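import Pool.Agent.H42.Q1.OneB
import Pool.Agent.Q1.M3.Asm.StDLem

set_option autoImplicit false
open Finset Filter Topology

/-! # The hypotheses of the comparison hold in the states `j ≥ 1` -/

namespace Pool.Agent.H42.Q1

open Pool.Agent.H75.Perc hiding WL
open Pool.Agent.H75.TwoArm Pool.Agent.H75.Four Pool.Agent.H99.NC
open Pool.Agent.H69.Q1 Pool.Agent.H39.Q1 Pool.Agent.H28.Q1
open Pool.Agent.Q1.M3 hiding denv_ext fat_sub_cfat
open Pool.Agent.Q1.M3.Pg hiding ends_add Gen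
open Pool.Agent.H81.Q1 (pt Approx IsJordanDomain IsArcs)
open Pool.Agent.H21.Q1 (NoCut StD Sol)
open Pool.Agent.H5.M7 (box_bounds adj_of_fc)
open Pool.Agent.Q1.M4 (Adj4)

section

variable {D : Set ℂ} {a b : ℂ} {A₁ A₂ : Set ℂ} {A : Approx D a b A₁ A₂} {r0 : ℝ} (B : Base A r0)

/-- the corner of the tip side -/
lemma tip_gpt {K : ℕ} {o : ℂ} {δ : ℝ} (hg : Gen2 K o δ) {v dd : ℤ × ℤ} (hd : dd ∈ dirs) :
    dist (gpt o K (tsd (box δ o K v) dd).1) (pt δ v) ≤ 6 * mesh (K + 1) := by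
  have hη := mesh_pos (K + 1)
  obtain ⟨⟨a1, a2⟩, a3, a4⟩ := box_bounds hg v
  have hs1' : (tsd (box δ o K v) dd).1 = box δ o K v - (2 : ℤ) • dd := rfl
  rw [hs1', Complex.dist_eq]
  refine (Complex.norm_le_abs_re_add_abs_im _).trans ?_
  rw [Complex.sub_re, Complex.sub_im]
  generalize box δ o K v = c at a1 a2 a3 a4 ⊢
  unfold gpt
  unfold gx at a1 a2 a3 a4
  obtain ⟨c1, c2⟩ := c
  push_cast at a2 a4
  simp only at a1 a2 a3 a4
  have key : ∀ x y m c t : ℝ, |t| ≤ 1 → 0 < m → x + c * m < y → y < x + (c + 1) * m →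
      |x + (c - 2 * t) * m - y| ≤ 3 * m := by
    intro x y m c t ht hm h1 h2
    rw [abs_le] at ht ⊢
    constructor <;> nlinarith
  unfold dirs at hd
  simp only [mem_insert, mem_singleton] at hd
  have g1 : |o.re + (((c1, c2) - (2 : ℤ) • dd : ℤ × ℤ).1 : ℝ) * mesh (K + 1) - (pt δ v).re| ≤
      3 * mesh (K + 1) := by
    have e : ((((c1, c2) - (2 : ℤ) • dd : ℤ × ℤ).1 : ℤ) : ℝ) = (c1 : ℝ) - 2 * (dd.1 : ℝ) := by
      rw [Prod.fst_sub, Prod.smul_fst, smul_eq_mul]; push_cast; ring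
    rw [e]
    refine key _ _ _ _ _ ?_ hη a1 a2
    rcases hd with h | h | h | h <;> rw [h] <;> simp
  have g2 : |o.im + (((c1, c2) - (2 : ℤ) • dd : ℤ × ℤ).2 : ℝ) * mesh (K + 1) - (pt δ v).im| ≤
      3 * mesh (K + 1) := by
    have e : ((((c1, c2) - (2 : ℤ) • dd : ℤ × ℤ).2 : ℤ) : ℝ) = (c2 : ℝ) - 2 * (dd.2 : ℝ) := by
      rw [Prod.snd_sub, Prod.smul_snd, smul_eq_mul]; push_cast; ring
    rw [e]
    refine key _ _ _ _ _ ?_ hη a3 a4
    rcases hd with h | h | h | h <;> rw [h] <;> simp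
  simp only
  linarith

/-- a level with small mesh -/
lemma exists_mesh {ε : ℝ} (hε : 0 < ε) : ∃ K0 : ℕ, ∀ K, K0 ≤ K → mesh (K + 1) < ε := by
  obtain ⟨K2, h2⟩ := exists_pow_lt_of_lt_one hε (show (1 / 3 : ℝ) < 1 by norm_num)
  refine ⟨K2, fun K hK => ?_⟩
  have h3 : mesh (K + 1) ≤ (1 / 3 : ℝ) ^ K2 := by
    unfold mesh
    exact pow_le_pow_of_le_one (by norm_num) (by norm_num) (by omega)
  linarith

/-- **The hypotheses of the comparison hold in the states `j ≥ 1`.** -/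
theorem stD_mk (hD : IsJordanDomain D) (hA : IsArcs D a b A₁ A₂) (hr : r0 < dist a b) (k0 : ℕ) :
    ∃ k1, k0 ≤ k1 ∧ ∀ k, k1 ≤ k → ∀ ρG > 0, ∀ ε > 0, ∀ ks : ℕ, ∃ ρ > 0, ∃ ρK > 0, ∃ r > 0,
      ∀ BB : Cell, b ∈ fat B.o BB → cfat B.o BB ⊆ Metric.ball b r → ∀ᶠ M in atTop,
      ∀ z ∈ fat B.o BB, (∃ q ∈ B.Q M, z ∈ fat B.o q) → ∃ K1, ∀ K, K1 ≤ K → ∀ᶠ n in atTop,
      ∀ ω, ω ⊆ (X0 A n).E → ∀ j, ¬ B.Fin n (B.X k0 n (j + 1) ω) →
        B.Good k n ρG (B.X k0 n (j + 1) ω) →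
        ∀ C, Uk D (A.δ n) B.o B.qb k0 (B.X k0 n (j + 1) ω).E ⊆ C →
          C ⊆ Ule D (A.δ n) B.o B.qb k0 k (B.X k0 n (j + 1) ω).E → Lev B.o B.qb C →
        ∃ Z τ T p r', StD (mkSD B K (A.δ n) (B.X k0 n (j + 1) ω).E C M BB z
          (tsd (box (A.δ n) B.o K (tipv (B.F k0 n (B.X k0 n j ω).E) (lab (B.X k0 n (j + 1) ω).α)))
            (tipd (B.F k0 n (B.X k0 n j ω).E) (lab (B.X k0 n (j + 1) ω).α)))) B.o (A.δ n)
          (B.X k0 n (j + 1) ω) Z (Vn (A.δ n) B.o C ∪ B.N n) τ T 2 p b ρ ρK ε ks r' := by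
  classical
  have hDo := hD.1
  have hDb := hD.2.2.1
  obtain ⟨haD, hbD⟩ := Pool.Agent.H14.NB.not_mem_of_arcs hDo hA
  -- distance of the cells from `b`
  set C0 : Finset Cell := insert B.qb (cells D B.o k0) with hC0
  have hCD : ∀ q ∈ C0, cfat B.o q ⊆ D := by
    intro q hq
    rcases mem_insert.1 hq with h | h
    · rw [h]; exact (B.subQ 0 _ B.qb_mem).trans Set.inter_subset_left
    · exact ((mem_cells hDb).1 h).2
  obtain ⟨s, hs0, hs⟩ := exists_dist C0 hCD hbD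
  obtain ⟨M0, hM0⟩ := (B.rlim.eventually_lt_const (show 0 < s / 2 by positivity)).exists
  obtain ⟨s0, hs00, kt, hkt, htied⟩ := tied_mk B hD hA hr k0
  refine ⟨max kt ((B.Q M0).sup (fun q => q.1)), hkt.trans (le_max_left _ _), ?_⟩
  intro k hk ρG hρG ε hε ks
  have hktk : kt ≤ k := (le_max_left _ _).trans hk
  have hk0 : k0 ≤ k := hkt.trans hktk
  have hQk : ∀ q ∈ B.Q M0, q.1 ≤ k := fun q hq =>
    (Finset.le_sup (f := fun q : Cell => q.1) hq).trans ((le_max_right _ _).trans hk)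
  -- the distance of the tip from the solid set
  obtain ⟨K3, hK3⟩ := exists_mesh (show 0 < min (ρG / 4) (s / 4) by positivity)
  set Kc := max K3 (k + 1) with hKc
  have hKcm := hK3 Kc (le_max_left _ _)
  set ρK := mesh (Kc + 1) with hρK
  have hρK0 : 0 < ρK := mesh_pos _
  have hρK1 : ρK < ρG / 4 := hKcm.trans_le (min_le_left _ _)
  have hρK2 : ρK < s / 4 := hKcm.trans_le (min_le_right _ _)
  -- the radius
  obtain ⟨rN, hrN0, hNl⟩ := nlem_succ hDo hDb hA B hr k0 hε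
  have h4k : (0 : ℝ) < 4 ^ ks := by positivity
  set ρ := min (rN / 2) (ρK / (32 * 4 ^ ks)) with hρ
  have hρ0 : 0 < ρ := by positivity
  have hρN : ρ < rN := lt_of_le_of_lt (min_le_left _ _) (by linarith)
  have hρK' : 32 * 4 ^ ks * ρ ≤ ρK := by
    have h1 : ρ ≤ ρK / (32 * 4 ^ ks) := min_le_right _ _
    rw [le_div_iff₀ (by positivity)] at h1
    linarith
  obtain ⟨σ, hσ0, hcut⟩ := cut_mk B hDo hDb hA hr k0 hρ0
  refine ⟨ρ, hρ0, ρK, hρK0, min s0 (ρ / 4), by positivity, ?_⟩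
  intro BB hbB hBr
  have hBs0 : cfat B.o BB ⊆ Metric.ball b s0 :=
    hBr.trans (Metric.ball_subset_ball (min_le_left _ _))
  have hBρ : cfat B.o BB ⊆ Metric.ball b (ρ / 4) :=
    hBr.trans (Metric.ball_subset_ball (min_le_right _ _))
  have hball : ∀ᶠ M in atTop, Metric.ball b (B.r M) ⊆ fat B.o BB := by
    obtain ⟨s', hs', hsB⟩ := Metric.isOpen_iff.1 (Pool.Agent.H42.Q1.isOpen_fat B.o BB) b hbB
    filter_upwards [B.rlim.eventually_lt_const hs'] with M hM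
    exact (Metric.ball_subset_ball hM.le).trans hsB
  filter_upwards [hball] with M hball z hz hzq
  obtain ⟨K1, hT⟩ := htied k hktk ρG hρG M BB z hbB hBs0 hball hz hzq
  obtain ⟨K2, hK2⟩ := exists_mesh (show 0 < min (σ / (64 * 4 ^ ks)) (ρ / (1600 * 4 ^ ks)) by
    positivity)
  obtain ⟨L, hL⟩ := exists_lev B M
  refine ⟨K1 + K2 + (k + 3) + (B.qb.1 + 3) + (BB.1 + 1) + L, fun K hK => ?_⟩
  have hT := hT K (by omega)
  have hm := hK2 K (by omega)
  have hm1 := hm.trans_le (min_le_left _ _)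
  have hm2 := hm.trans_le (min_le_right _ _)
  have hη := mesh_pos (K + 1)
  have hQK : ∀ q ∈ B.Q M, q.1 < K := fun q hq => by have := hL q hq; omega
  have e1 : ∀ᶠ n in atTop, A.δ n < min (mesh (K + 1) / 20) (ρK / 5) :=
    A.lim.eventually_lt_const (by positivity)
  have e2 := star_free hDo hDb hA A B.o (C := {B.qb}) (fun q hq => by
    rw [mem_singleton.1 hq]; exact hCD _ (mem_insert_self _ _))
  have hmρ1 : 1600 * (4 ^ ks * mesh (K + 1)) ≤ ρ := by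
    rw [lt_div_iff₀ (by positivity)] at hm2
    linarith
  filter_upwards [hT, hNl, hcut, e1, e2, B.hN 0, B.hN M0,
    Pool.Agent.Q1.M3.Asm.stD_of B hD hA hr (kk := ks) hk0 hρ0 hQK (show k < K by omega)
      (show BB.1 ≤ K by omega) hball hBρ hmρ1 hρK'] with n hT hNl hcut h1 h2 hN0 hNM0 hStD ω hω j
    hfin hgood C hCU hC hLv
  have hδ := A.pos n
  have h1a := h1.trans_le (min_le_left _ _)
  have h1b := h1.trans_le (min_le_right _ _)
  have hgen : Gen2 K B.o (A.δ n) := Pool.Agent.H53.Q1.Base_gen2 B K n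
  set X := B.X k0 n (j + 1) ω with hX
  set v := tipv (B.F k0 n (B.X k0 n j ω).E) (lab X.α) with hv
  set dd := tipd (B.F k0 n (B.X k0 n j ω).E) (lab X.α) with hdd
  obtain ⟨Z, τ, T, hZ, t1, t2, t3, hW, hdirs, hvw, hmn⟩ := hT ω hω j hfin hgood C hC hLv v dd
    rfl rfl
  obtain ⟨N0, hN0, -⟩ := hN0
  obtain ⟨N', hN', hN'b⟩ := hNM0
  have hVq : Vn (A.δ n) B.o {B.qb} = verts (A.δ n) B.o B.qb := by
    unfold Vn; rw [singleton_biUnion]
  rw [hVq] at h2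
  have hqbN : verts (A.δ n) B.o B.qb ⊆ B.N n := by
    rw [hN0, ← hVq]
    refine subset_trans (Vn_mono ?_) subset_union_left
    exact singleton_subset_iff.2 B.qb_mem
  obtain ⟨q0, q1, hF⟩ := chain_state B hDb hω hfin h2 hqbN hZ
  set d := mkSD B K (A.δ n) X.E C M BB z (tsd (box (A.δ n) B.o K v) dd) with hd
  have hok : d.Ok := t1.ok
  have hfine : d.Fine B.o (A.δ n) := t1.fine
  have hdir : dir ((tsd (box (A.δ n) B.o K v) dd).2 - 1) = dd := tsd_dir hdirs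
  have hs1 : d.s.1 = box (A.δ n) B.o d.K v - (2 : ℤ) • dir (d.s.2 - 1) := by
    change (tsd (box (A.δ n) B.o K v) dd).1 = box (A.δ n) B.o K v -
      (2 : ℤ) • dir ((tsd (box (A.δ n) B.o K v) dd).2 - 1)
    rw [hdir]; rfl
  have hs2 : dir (d.s.2 - 1) = vx Z.α - v := by
    change dir ((tsd (box (A.δ n) B.o K v) dd).2 - 1) = _
    rw [hdir, ← hvw]; abel
  have hBs : ∀ x ∈ fat B.o BB, dist x b < ρ / 4 := fun x hx =>
    Metric.mem_ball.1 (hBρ (fat_sub_cfat _ _ hx))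
  have hρs : ρ < s := by
    have h9 : ρ ≤ 32 * 4 ^ ks * ρ := by
      have : (1 : ℝ) ≤ 4 ^ ks := one_le_pow₀ (by norm_num)
      nlinarith
    linarith
  have hBBq : ∀ q, q = B.qb ∨ q ∈ cells D B.o k0 → ¬ AdjC B.o q BB := by
    rintro q hq ⟨x, hx1, hx2⟩
    have h9 : q ∈ C0 := by
      rcases hq with h | h
      · rw [h]; exact mem_insert_self _ _
      · exact mem_insert_of_mem h
    have h10 := hs q h9 x (fat_sub_cfat _ _ hx1)
    have h11 := hBs x hx2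
    linarith
  have hvb : s ≤ dist (pt (A.δ n) v) b := by
    refine hs q0 ?_ _ (fat_sub_cfat _ _ ((mem_verts hδ).1 hF.v0))
    rcases hF.Cl q0 (Or.inl rfl) with h | h
    · rw [h]; exact mem_insert_self _ _
    · exact mem_insert_of_mem h
  -- small meshes
  have h4k1 : (1 : ℝ) ≤ 4 ^ ks := one_le_pow₀ (by norm_num)
  have hmρ : 1600 * 4 ^ ks * mesh (K + 1) ≤ ρ := by
    rw [lt_div_iff₀ (by positivity)] at hm2
    linarith
  have hmρ' : 1600 * mesh (K + 1) ≤ ρ := by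
    refine le_trans ?_ hmρ
    have : 0 ≤ (4 ^ ks - 1) * mesh (K + 1) := mul_nonneg (by linarith) hη.le
    nlinarith
  have hρρK : ρ ≤ ρK := by
    refine le_trans ?_ hρK'
    nlinarith
  have hr0 : (0 : ℤ) ≤ ⌈14 * (mesh (K + 1) / A.δ n)⌉ + 6 := by
    have : (0 : ℤ) ≤ ⌈14 * (mesh (K + 1) / A.δ n)⌉ := Int.ceil_nonneg (by positivity)
    omega
  have hrδ : ((⌈14 * (mesh (K + 1) / A.δ n)⌉ + 6 : ℤ) : ℝ) * A.δ n ≤ 15 * mesh (K + 1) := by
    have h9 := Int.ceil_lt_add_one (14 * (mesh (K + 1) / A.δ n))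
    have h10 : ((⌈14 * (mesh (K + 1) / A.δ n)⌉ + 6 : ℤ) : ℝ) ≤ 14 * (mesh (K + 1) / A.δ n) + 7 := by
      push_cast; linarith
    have h11 : 14 * (mesh (K + 1) / A.δ n) * A.δ n = 14 * mesh (K + 1) := by
      field_simp
    nlinarith
  have hnear : ∀ u, NB 3 (box (A.δ n) B.o K v) (box (A.δ n) B.o K u) →
      dist (pt (A.δ n) u) (pt (A.δ n) v) < ρ / 2 := by
    intro u hu
    have h9 := dist_of_NB hgen hu
    push_cast at h9
    linarith
  refine ⟨Z, τ, T, pt (A.δ n) v, Pool.Agent.Q1.M3.Asm.rr K (A.δ n), ?_⟩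
  refine hStD (j + 1) ω hω hfin C hC z _ Z τ T 2 (pt (A.δ n) v) ε rN t1 hW hmn
    (invL_X B (j + 1) ω) (by linarith) (fun u hu => kp_state B hDb hZ hF hk0 hgood (K := Kc)
      (by omega) (by linarith) (by linarith) hs hQk hN' hN'b (r := B.r M0) (by linarith) hC u hu)
    ?_ (fun u hu => hnear u (t2 u hu)) (fun e he => ⟨hnear _ (t3 e he).1, hnear _ (t3 e he).2⟩)
    hρN.le (hNl j ω hω hfin) ?_
    (ch_state B hDb hZ hF hok (by change 5 * A.δ n ≤ mesh (K + 1); linarith) rfl hs1 hs2 hk0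
        (show k + 3 ≤ K by omega) (show B.qb.1 + 3 ≤ K by omega) (ρ := ρG)
        (by change 21 * mesh (K + 1) ≤ ρG; linarith) hgood hBBq
        (mem_union_right _ (Pool.Agent.Q1.M3.Pg.qb_mem_Q B M)) hs (by
          change ρK + 8 * mesh (K + 1) ≤ s; linarith))
  · -- the tip side
    exact lt_of_le_of_lt (tip_gpt hgen hdirs) (by linarith)
  · -- crosscuts
    intro c hc
    refine hcut ω hω j hfin v (by rw [hZ.labY]; exact hZ.mem1) c
      (4 ^ ks * Pool.Agent.Q1.M3.Asm.rr K (A.δ n)) (mul_nonneg (by positivity) hr0) ?_ hc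
    push_cast
    have h9 : (Pool.Agent.Q1.M3.Asm.rr K (A.δ n) : ℝ) * A.δ n ≤ 15 * mesh (K + 1) := hrδ
    have h10 : (4 : ℝ) ^ ks * ((Pool.Agent.Q1.M3.Asm.rr K (A.δ n) : ℝ) * A.δ n) ≤
        4 ^ ks * (15 * mesh (K + 1)) := mul_le_mul_of_nonneg_left h9 (by positivity)
    have h11 : 64 * 4 ^ ks * mesh (K + 1) < σ := by
      rw [lt_div_iff₀ (by positivity)] at hm1
      linarith
    linarith

end

end Pool.Agent.H42.Q1
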