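import Pool.Agent.Q1.M3.Pg.Tied
import Pool.Agent.Q1.M3.Pg.Chan
import Pool.Agent.H14.NB.CtxPath
import Pool.Agent.H42.Q1.NLem

set_option autoImplicit false
open Finset

/-! # The tip of a step, abstract part

`wt_succ`, `cl_succ` : the two sides before and after the last label of a step.
`tied_of_path` : the ties of a step from a path of labels. -/

namespace Pool.Agent.H42.Q1

open Pool.Agent.H75.Perc Pool.Agent.H75.TwoArm Pool.Agent.H75.Four Pool.Agent.H99.NC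
open Pool.Agent.H69.Q1 Pool.Agent.H39.Q1 Pool.Agent.H28.Q1
open Pool.Agent.Q1.M3 hiding denv_ext fat_sub_cfat
open Pool.Agent.Q1.M3.Pg hiding ends_add
open Pool.Agent.H21.Q1 (Sol Wt InvL co_Wt Wt_sub)
open Pool.Agent.H75.TwoArm.StrandAux (nx_pv_aux fi_nxC)

section

variable {Z Y : DEnv} {K : Finset (ℤ × ℤ)}

lemma succ_vx (h : Succ Z Y) : (Y.W = insert (plab Z.α) Z.W ∧ vx Y.α = vx (pvf Z.α)) ∨
    (Y.W = Z.W ∧ vx Y.α = vx Z.α) := by
  rcases h.st with ⟨h1, h2⟩ | ⟨h1, h2⟩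
  · exact Or.inl ⟨h1, by rw [h2]⟩
  · refine Or.inr ⟨h1, ?_⟩
    rw [h2]
    exact (fi_of_closed (notMem_empty _)).1.symm

lemma pvf_step (x : ℤ × ℤ) : IsUnit4 (vx x - vx (pvf x)) ∧ vx (pvf x) + vx x = plab x := by
  have h3 := vx_nxO (pvf x)
  have h4 : nxO (pvf x) = x := (nx_pv_aux {plab x} x).1 (mem_singleton_self _)
  rw [h4, (pvf_spec x).2] at h3
  exact h3

/-- The wired side after the last label. -/
lemma wt_succ (h : Succ Z Y) (he : plab Z.α ∉ star K) {z : ℤ × ℤ}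
    (hz : Co (Wt Z K) (vx Z.α) z) : Co (Wt Y K) (vx Y.α) z := by
  apply co_Wt
  have hW : Z.W \ star K ⊆ Y.W \ star K := by
    refine sdiff_subset_sdiff ?_ (subset_refl _)
    rcases h.st with ⟨h1, -⟩ | ⟨h1, -⟩
    · rw [h1]; exact subset_insert _ _
    · rw [h1]
  have h1 : Co (Y.W \ star K) (vx Z.α) z := (hz.mono Wt_sub).mono hW
  rcases succ_vx h with ⟨h2, h3⟩ | ⟨h2, h3⟩
  · rw [h3]
    refine Co.trans (v := vx Z.α) (Relation.ReflTransGen.single ⟨(pvf_step Z.α).1, ?_⟩) h1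
    rw [(pvf_step Z.α).2, Finset.mem_sdiff]
    exact ⟨by rw [h2]; exact mem_insert_self _ _, he⟩
  · rw [h3]; exact h1

lemma EW_open (h : Succ Z Y) : Y.E ∪ Y.W ⊆ Z.E ∪ Z.W := by
  intro l hl
  rw [mem_union, h.E, mem_erase] at hl
  rcases hl with hl | hl
  · exact mem_union_left _ hl.2
  · rcases h.st with ⟨h1, -⟩ | ⟨h1, -⟩
    · rw [h1, mem_insert] at hl
      rcases hl with hl | hl
      · rw [hl]; exact mem_union_left _ h.mem
      · exact mem_union_right _ hl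
    · rw [h1] at hl; exact mem_union_right _ hl

lemma EW_sub (h : Succ Z Y) {l : ℤ × ℤ} (hl : l ∈ Z.E ∪ Z.W) (hne : l ≠ plab Z.α) :
    l ∈ Y.E ∪ Y.W := by
  rw [mem_union, h.E, mem_erase]
  rcases mem_union.1 hl with h1 | h1
  · exact Or.inl ⟨hne, h1⟩
  · right
    rcases h.st with ⟨h2, -⟩ | ⟨h2, -⟩
    · rw [h2]; exact mem_insert_of_mem h1
    · rw [h2]; exact h1

/-- The closed side after the last label. -/
lemma cl_succ (h : Succ Z Y) {g : ℤ × ℤ} (hg : ClJ Z (fi Z.α) g) : ClJ Y (fi Y.α) g := by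
  obtain ⟨F, hF⟩ := hg
  have h1 : ClJ Y (fi Z.α) g := ⟨F, hF.mono (du_anti (EW_open h))⟩
  rcases h.st with ⟨h2, h3⟩ | ⟨h2, h3⟩
  · rw [h3, (pvf_spec Z.α).1]; exact h1
  · refine ClJ.trans (ClJ.symm ?_) h1
    have h4 : nxC (pv ∅ Z.α) = Z.α := (nx_pv_aux ∅ Z.α).2 (notMem_empty _)
    obtain ⟨h5, h6⟩ := fi_nxC (pv ∅ Z.α)
    rw [h4, ← h3] at h5 h6
    rw [h3, lab_pv, ← h3] at h6
    refine ClJ.symm ⟨{plab Z.α}, Relation.ReflTransGen.single ⟨h5, ?_⟩⟩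
    rw [Pool.Agent.H77.Q1.mem_du']
    have e : fi Y.α + fi Z.α - (1, 1) = plab Z.α := by
      rw [h6, add_sub_cancel_right]
    rw [e]
    refine ⟨mem_singleton_self _, ?_⟩
    rw [mem_union, h.E, h2, not_or]
    exact ⟨notMem_erase _ _, fun h7 => disjoint_left.1 Z.disj h.mem h7⟩

lemma kp_succ (h : Succ Z Y) (he : plab Z.α ∉ star K) :
    kap K ∩ (Y.E ∪ Y.W) = kap K ∩ (Z.E ∪ Z.W) := by
  ext l
  rw [mem_inter, mem_inter]
  constructor
  · rintro ⟨h1, h2⟩; exact ⟨h1, EW_open h h2⟩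
  · rintro ⟨h1, h2⟩
    refine ⟨h1, EW_sub h h2 fun h3 => he ?_⟩
    rw [← h3]; exact (mem_filter.1 h1).1

end

/-- A corner is determined by its vertex and the label after it. -/
lemma vx_plab_inj {x y : ℤ × ℤ} (h : vx x = vx y) (hl : plab x = plab y) : x = y := by
  apply pv_inj ∅
  refine Pool.Agent.H14.NB.vx_lab_inj ?_ ?_
  · rw [← (fi_of_closed (L := ∅) (x := x) (notMem_empty _)).1,
      ← (fi_of_closed (L := ∅) (x := y) (notMem_empty _)).1, h]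
  · rw [lab_pv, lab_pv, hl]

end Pool.Agent.H42.Q1
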