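import Pool.Agent.H5.M7.Tip
import Pool.Agent.Q1.M3.Pg.Tied

set_option autoImplicit false
open Finset

/-! # The surroundings of the tip

`notMem_fc_near` : the unit boxes near the tip are not in coarse cells which do not touch the last
label of the step, if the tip is far from the grid vertices. -/

namespace Pool.Agent.H42.Q1

open Pool.Agent.H75.Perc (dir dir_cases)
open Pool.Agent.H81.Q1 (pt)
open Pool.Agent.Q1.M3
open Pool.Agent.Q1.M3.Pg hiding Gen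
open Pool.Agent.Q1.M4 (Adj4)
open Pool.Agent.H5.M7 (box_bounds lo3 hi3)

section

variable {K k : ℕ} {o : ℂ} {δ : ℝ} {v : ℤ × ℤ}

lemma mesh_lvl (h : k ≤ K) : mesh (k + 1) = 3 ^ (K - k) * mesh (K + 1) := by
  unfold mesh
  have h1 : (1 / 3 : ℝ) ^ (K + 1) = (1 / 3) ^ (K - k) * (1 / 3) ^ (k + 1) := by
    rw [← pow_add, show K - k + (k + 1) = K + 1 by omega]
  have h2 : (3 : ℝ) ^ (K - k) * (1 / 3) ^ (K - k) = 1 := by
    rw [← mul_pow]; norm_num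
  rw [h1, ← mul_assoc, h2, one_mul]

lemma lo_dvd {l : ℕ} (h : l ≤ k) (hk : k ≤ K) (i : ℤ) : (3 : ℤ) ^ (K - k) ∣ lo (K - l) i := by
  refine ⟨3 ^ (k - l) * (3 * i - 1), ?_⟩
  unfold lo
  rw [show K - l = (K - k) + (k - l) by omega, pow_add]
  ring

lemma hi_dvd {l : ℕ} (h : l ≤ k) (hk : k ≤ K) (i : ℤ) : (3 : ℤ) ^ (K - k) ∣ hi (K - l) i := by
  refine ⟨3 ^ (k - l) * (3 * i + 4), ?_⟩
  unfold hi
  rw [show K - l = (K - k) + (k - l) by omega, pow_add]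
  ring

/-- The tip is not next to a grid vertex. -/
lemma no_corner (hg : Gen2 K o δ) (hkK : k ≤ K)
    (hgood : ∀ m, 3 * mesh (K + 1) ≤ dist (pt δ v) (gpt o k m)) {X0 Y0 : ℤ}
    (hX : X0 = (box δ o K v).1 ∨ X0 = (box δ o K v).1 + 1)
    (hY : Y0 = (box δ o K v).2 ∨ Y0 = (box δ o K v).2 + 1)
    (h1 : (3 : ℤ) ^ (K - k) ∣ X0) (h2 : (3 : ℤ) ^ (K - k) ∣ Y0) : False := by
  obtain ⟨m1, hm1⟩ := h1
  obtain ⟨m2, hm2⟩ := h2
  have hm := mesh_pos (K + 1)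
  obtain ⟨⟨a1, a2⟩, a3, a4⟩ := box_bounds hg v
  have h3 := hgood (m1, m2)
  have e1 : gpt o k (m1, m2) = ⟨gx K o.re X0, gx K o.im Y0⟩ := by
    unfold gpt gx
    rw [mesh_lvl hkK, hm1, hm2]
    push_cast
    simp only [Complex.mk.injEq]
    constructor <;> ring
  rw [e1, Complex.dist_eq] at h3
  have h4 := Complex.norm_le_abs_re_add_abs_im (pt δ v - ⟨gx K o.re X0, gx K o.im Y0⟩)
  rw [Complex.sub_re, Complex.sub_im] at h4
  have g1 : ∀ a : ℝ, ∀ N : ℤ, gx K a (N + 1) = gx K a N + mesh (K + 1) := by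
    intro a N; unfold gx; push_cast; ring
  rw [g1] at a2 a4
  have b1 : |(pt δ v).re - gx K o.re X0| < mesh (K + 1) := by
    rw [abs_lt]
    rcases hX with h | h <;> rw [h]
    · constructor <;> linarith
    · rw [g1]; constructor <;> linarith
  have b2 : |(pt δ v).im - gx K o.im Y0| < mesh (K + 1) := by
    rw [abs_lt]
    rcases hY with h | h <;> rw [h]
    · constructor <;> linarith
    · rw [g1]; constructor <;> linarith
  simp only at h4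
  linarith

lemma lo_hi {d : ℕ} (h : 1 ≤ d) (i : ℤ) : lo d i + 15 ≤ hi d i := by
  unfold lo hi
  have h1 : (3 : ℤ) ^ 1 ≤ 3 ^ d := pow_le_pow_right₀ (by norm_num) h
  nlinarith

/-- **The unit boxes near the tip.** -/
theorem notMem_fc_near (hg : Gen2 K o δ) (hkK : k < K)
    (hgood : ∀ m, 3 * mesh (K + 1) ≤ dist (pt δ v) (gpt o k m)) {q0 q : Cell}
    (h0 : q0.1 ≤ k) (hq : q.1 ≤ k) {κ : ℤ} (hc0 : box δ o K v ∈ fc K q0)
    (hcd0 : box δ o K v + dir κ ∉ fc K q0) (hc : box δ o K v ∉ fc K q)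
    (hcd : box δ o K v + dir κ ∉ fc K q) {z' z : ℤ × ℤ}
    (hz' : z' = box δ o K v ∨ z' = box δ o K v + dir κ ∨ z' = box δ o K v - dir κ)
    (hz : z = z' ∨ Adj4 z' z) : z ∉ fc K q := by
  have nc : ∀ X0 Y0 : ℤ, (X0 = (box δ o K v).1 ∨ X0 = (box δ o K v).1 + 1) →
      (Y0 = (box δ o K v).2 ∨ Y0 = (box δ o K v).2 + 1) → (3 : ℤ) ^ (K - k) ∣ X0 →
      (3 : ℤ) ^ (K - k) ∣ Y0 → False := fun X0 Y0 => no_corner hg hkK.le hgood
  obtain ⟨⟨x, y⟩, hxy⟩ : ∃ c, box δ o K v = c := ⟨_, rfl⟩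
  clear hgood hg
  rw [hxy] at nc hc0 hcd0 hc hcd hz'
  clear hxy
  have d1 := lo_dvd hq hkK.le q.2.1
  have d2 := hi_dvd hq hkK.le q.2.1
  have d3 := lo_dvd hq hkK.le q.2.2
  have d4 := hi_dvd hq hkK.le q.2.2
  have g1 := lo_dvd h0 hkK.le q0.2.1
  have g2 := hi_dvd h0 hkK.le q0.2.1
  have g3 := lo_dvd h0 hkK.le q0.2.2
  have g4 := hi_dvd h0 hkK.le q0.2.2
  have l1 := lo_hi (show 1 ≤ K - q.1 by omega) q.2.1
  have l2 := lo_hi (show 1 ≤ K - q.1 by omega) q.2.2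
  rw [mem_fc] at hc0 hcd0 hc hcd ⊢
  obtain ⟨A, hA⟩ := lo3 (show 1 ≤ K - q.1 by omega) q.2.1
  obtain ⟨B, hB⟩ := hi3 (show 1 ≤ K - q.1 by omega) q.2.1
  obtain ⟨A', hA'⟩ := lo3 (show 1 ≤ K - q.1 by omega) q.2.2
  obtain ⟨B', hB'⟩ := hi3 (show 1 ≤ K - q.1 by omega) q.2.2
  obtain ⟨a, ha⟩ := lo3 (show 1 ≤ K - q0.1 by omega) q0.2.1
  obtain ⟨b, hb⟩ := hi3 (show 1 ≤ K - q0.1 by omega) q0.2.1
  obtain ⟨a', ha'⟩ := lo3 (show 1 ≤ K - q0.1 by omega) q0.2.2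
  obtain ⟨b', hb'⟩ := hi3 (show 1 ≤ K - q0.1 by omega) q0.2.2
  rw [hA, hB, hA', hB'] at hc hcd ⊢
  rw [ha, hb, ha', hb'] at hc0 hcd0
  rw [hA] at d1 l1
  rw [hB] at d2 l1
  rw [hA'] at d3 l2
  rw [hB'] at d4 l2
  rw [ha] at g1
  rw [hb] at g2
  rw [ha'] at g3
  rw [hb'] at g4
  generalize (3 : ℤ) ^ (K - k) = M at *
  have key : ∀ X0 Y0, M ∣ X0 → M ∣ Y0 → ¬ ((X0 = x ∨ X0 = x + 1) ∧ (Y0 = y ∨ Y0 = y + 1)) :=
    fun X0 Y0 e1 e2 e3 => nc X0 Y0 e3.1 e3.2 e1 e2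
  rcases dir_cases κ with ⟨-, e⟩ | ⟨-, e⟩ | ⟨-, e⟩ | ⟨-, e⟩ <;> rw [e] at hcd0 hcd hz' <;>
    simp only [Prod.mk_add_mk, Prod.mk_sub_mk, add_zero, sub_zero] at hcd0 hcd hz' hc0 hc
  · have k1 := key _ _ g2 d3
    have k2 := key _ _ g2 d4
    rcases hz with rfl | ⟨j, rfl⟩
    · rcases hz' with rfl | rfl | rfl <;> simp only <;> omega
    · rcases dir_cases j with ⟨-, e'⟩ | ⟨-, e'⟩ | ⟨-, e'⟩ | ⟨-, e'⟩ <;> rw [e'] <;>
        rcases hz' with rfl | rfl | rfl <;> simp only [Prod.mk_add_mk] <;> omega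
  · have k1 := key _ _ d1 g4
    have k2 := key _ _ d2 g4
    rcases hz with rfl | ⟨j, rfl⟩
    · rcases hz' with rfl | rfl | rfl <;> simp only <;> omega
    · rcases dir_cases j with ⟨-, e'⟩ | ⟨-, e'⟩ | ⟨-, e'⟩ | ⟨-, e'⟩ <;> rw [e'] <;>
        rcases hz' with rfl | rfl | rfl <;> simp only [Prod.mk_add_mk] <;> omega
  · have k1 := key _ _ g1 d3
    have k2 := key _ _ g1 d4
    rcases hz with rfl | ⟨j, rfl⟩
    · rcases hz' with rfl | rfl | rfl <;> simp only <;> omega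
    · rcases dir_cases j with ⟨-, e'⟩ | ⟨-, e'⟩ | ⟨-, e'⟩ | ⟨-, e'⟩ <;> rw [e'] <;>
        rcases hz' with rfl | rfl | rfl <;> simp only [Prod.mk_add_mk] <;> omega
  · have k1 := key _ _ d1 g3
    have k2 := key _ _ d2 g3
    rcases hz with rfl | ⟨j, rfl⟩
    · rcases hz' with rfl | rfl | rfl <;> simp only <;> omega
    · rcases dir_cases j with ⟨-, e'⟩ | ⟨-, e'⟩ | ⟨-, e'⟩ | ⟨-, e'⟩ <;> rw [e'] <;>
        rcases hz' with rfl | rfl | rfl <;> simp only [Prod.mk_add_mk] <;> omega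

end

end Pool.Agent.H42.Q1
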