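import Pool.Agent.H42.Q1.TipA
import Pool.Agent.H42.Q1.TipB

set_option autoImplicit false
open Finset

/-! # The ties of a step from its tip

`tied_succ` : the data `Tied` of a state of the chain after at least one step. -/

namespace Pool.Agent.H42.Q1

open Pool.Agent.H75.Perc Pool.Agent.H75.TwoArm Pool.Agent.H75.Four Pool.Agent.H99.NC
open Pool.Agent.H69.Q1 Pool.Agent.H39.Q1 Pool.Agent.H28.Q1
open Pool.Agent.H81.Q1 (pt)
open Pool.Agent.Q1.M3 hiding denv_ext fat_sub_cfat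
open Pool.Agent.Q1.M3.Pg hiding ends_add Gen
open Pool.Agent.Q1.M4 (Adj4)
open Pool.Agent.H21.Q1 (Sol Wt InvL co_Wt Wt_sub)

/-- A path of vertices in `V` is a path of labels inside `V`. -/
lemma co_kap_of_LP {V : Finset (ℤ × ℤ)} {u v : ℤ × ℤ} (h : LP (V : Set (ℤ × ℤ)) v u)
    (hv : v ∈ V) : Co (kap V) v u := by
  induction h with
  | refl => exact Co.refl _ _
  | @tail a b hab h1 ih =>
    have ha : a ∈ V := by exact_mod_cast LP.mem hab (by exact_mod_cast hv)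
    have hb : b ∈ V := by exact_mod_cast h1.2
    refine Co.trans (v := a) ih (Relation.ReflTransGen.single ⟨h1.1, ?_⟩)
    obtain ⟨h2, h3⟩ := ends_add h1.1
    rw [mem_kap_iff h2]
    rcases h3 with ⟨h3, h4⟩ | ⟨h3, h4⟩ <;> rw [h3, h4]
    · exact ⟨ha, hb⟩
    · exact ⟨hb, ha⟩

lemma isUnit4_dir' (κ : ℤ) : IsUnit4 (dir κ) := isUnit4_dir κ

/-- a neighbour has the same box or a neighbouring box -/
lemma box_nb {K : ℕ} {o : ℂ} {δ : ℝ} (hδ : 0 < δ) (hm : 3 * δ ≤ mesh (K + 1))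
    (hg : Gen2 K o δ) {u w e : ℤ × ℤ} (hu : e ∈ star1 u) (hw : e ∈ star1 w) :
    box δ o K w = box δ o K u ∨ Adj4 (box δ o K u) (box δ o K w) := by
  have ho := odd_star1 hu
  have h1 := box_adj hδ hm hg ho
  rcases (mem_star1_iff ho).1 hu with h2 | h2 <;> rcases (mem_star1_iff ho).1 hw with h3 | h3 <;>
    rw [h2, h3]
  · exact Or.inl rfl
  · exact h1
  · rcases h1 with h1 | h1
    · exact Or.inl h1.symm
    · exact Or.inr (adj4_symm h1)
  · exact Or.inl rfl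

section

variable {d : SD} {o : ℂ} {δ : ℝ} {Y Z : DEnv} {Kv : Finset (ℤ × ℤ)} {v : ℤ × ℤ} {q0 : Cell}
  {k : ℕ}

/-- Data of the tip of a step: `Z` is the environment before the last label, `Y` the environment after
it, `v` the vertex of the coarse cell `q0`. -/
structure TipD (d : SD) (o : ℂ) (δ : ℝ) (Y Z : DEnv) (Kv : Finset (ℤ × ℤ)) (v : ℤ × ℤ) (q0 : Cell)
    (k : ℕ) : Prop where
  ok : d.Ok
  fine : d.Fine o δ
  succ : Succ Z Y
  inv : Inv Z
  invL : InvL Z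
  odd : ∀ e ∈ Z.E, (e.1 + e.2) % 2 = 1
  vpv : vx (pvf Z.α) = v
  w : vx Z.α = v + dir (d.s.2 - 1)
  s1 : d.s.1 = box δ o d.K v - (2 : ℤ) • dir (d.s.2 - 1)
  vq : v ∈ verts δ o q0
  wq : vx Z.α ∉ verts δ o q0
  stay : ∀ l ∈ star (verts δ o q0), l ∈ Z.E ∪ Z.W
  NF : ∀ u, ¬ star1 u ⊆ Y.E → box δ o d.K u ∉ d.P
  KR : ∀ u ∈ Kv, box δ o d.K u ∉ d.R
  conn : ∀ u ∈ Kv, ∀ w ∈ Kv, Co (kap Kv ∩ (Y.E ∪ Y.W)) u w
  beta : vx Z.β ∈ Kv
  near : ∀ u ∈ Kv, NB 4 (box δ o d.K v) (box δ o d.K u) →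
    ∃ q : Cell, q.1 ≤ k ∧ u ∈ verts δ o q ∧ plab Z.α ∉ star (verts δ o q)
  q0k : q0.1 ≤ k
  kK : k < d.K
  good : ∀ m, 3 * mesh (d.K + 1) ≤ dist (pt δ v) (gpt o k m)
  run : ∃ n, d.n1 ≤ n ∧ n < d.n2 ∧ ∀ u, box δ o d.K u = d.oc' n → u ∈ Kv

namespace TipD

variable (t : TipD d o δ Y Z Kv v q0 k)

include t

lemma hδ : 0 < δ := t.fine.hδ

lemma e_v : plab Z.α ∈ star1 v := by
  obtain ⟨h1, h2⟩ := pvf_step Z.α
  obtain ⟨h3, h4⟩ := ends_add h1
  rw [h2] at h3 h4
  rw [mem_star1_iff h3, ← t.vpv]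
  rcases h4 with ⟨h4, -⟩ | ⟨-, h4⟩
  · exact Or.inl h4.symm
  · exact Or.inr h4.symm

omit t in
lemma e_w : plab Z.α ∈ star1 (vx Z.α) := plab_star1 _

lemma e_Y : plab Z.α ∉ Y.E := by rw [t.succ.E]; exact notMem_erase _ _

lemma c_q0 : box δ o d.K v ∈ fc d.K q0 :=
  (Pg.mem_verts_iff t.hδ t.fine.gen (t.q0k.trans t.kK.le)).1 t.vq

lemma boxw : box δ o d.K (vx Z.α) = box δ o d.K v + dir (d.s.2 - 1) := by
  have h1 : box δ o d.K (vx Z.α) ≠ box δ o d.K v := by
    intro h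
    apply t.wq
    rw [Pg.mem_verts_iff t.hδ t.fine.gen (t.q0k.trans t.kK.le), h]
    exact t.c_q0
  have hd : dir (d.s.2 - 1) ∈ dirs := by
    rcases dir_cases (d.s.2 - 1) with ⟨-, e⟩ | ⟨-, e⟩ | ⟨-, e⟩ | ⟨-, e⟩ <;> rw [e] <;> decide
  rcases Pool.Agent.H5.M7.box_step t.hδ t.fine.hm3 t.fine.gen (v := v) hd with h2 | h2
  · rw [← t.w] at h2; exact absurd h2 h1
  · rw [← t.w] at h2; exact h2

lemma cd_q0 : box δ o d.K v + dir (d.s.2 - 1) ∉ fc d.K q0 := by
  rw [← t.boxw]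
  intro h
  exact t.wq ((Pg.mem_verts_iff t.hδ t.fine.gen (t.q0k.trans t.kK.le)).2 h)

lemma out_eq : outc d.s = box δ o d.K v - dir (d.s.2 - 1) := by
  unfold outc
  rw [t.s1]
  rw [show ((2 : ℤ) • dir (d.s.2 - 1) : ℤ × ℤ) = dir (d.s.2 - 1) + dir (d.s.2 - 1) from
    two_zsmul _]
  abel

lemma nP1 : box δ o d.K v ∉ d.P := t.NF v fun h => t.e_Y (h t.e_v)

lemma nP2 : box δ o d.K v + dir (d.s.2 - 1) ∉ d.P := by
  rw [← t.boxw]
  exact t.NF _ fun h => t.e_Y (h e_w)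

lemma nP3 : box δ o d.K v - dir (d.s.2 - 1) ∉ d.P := by
  rw [← t.out_eq]; exact t.ok.tipO

/-- the vertices of the target are not near the tip -/
lemma far {x u e : ℤ × ℤ} (hx : box δ o d.K x = box δ o d.K v ∨
      box δ o d.K x = box δ o d.K v + dir (d.s.2 - 1) ∨
      box δ o d.K x = box δ o d.K v - dir (d.s.2 - 1))
    (he : e ∈ star1 x) (hu : e ∈ star1 u) : u ∉ Kv := by
  intro huK
  have h1 := box_nb t.hδ t.fine.hm3 t.fine.gen he hu
  have hn : NB 4 (box δ o d.K v) (box δ o d.K u) := by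
    have h2 : NB 1 (box δ o d.K x) (box δ o d.K u) := by
      rcases h1 with h | h
      · rw [h]; exact NB.refl (by norm_num) _
      · exact NB.of_adj h
    have h3 : NB 1 (box δ o d.K v) (box δ o d.K x) := by
      rcases hx with h | h | h
      · rw [h]; exact NB.refl (by norm_num) _
      · rw [h]; exact NB.of_adj ⟨_, rfl⟩
      · rw [h]
        refine (NB.of_adj ⟨d.s.2 - 1, ?_⟩).symm
        rw [sub_add_cancel]
    exact (h3.trans h2).mono (by norm_num)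
  obtain ⟨q, hq, huq, heq⟩ := t.near u huK hn
  have hqK : q.1 ≤ d.K := hq.trans t.kK.le
  have g1 : box δ o d.K v ∉ fc d.K q := fun h =>
    heq (star1_sub_star ((Pg.mem_verts_iff t.hδ t.fine.gen hqK).2 h) t.e_v)
  have g2 : box δ o d.K v + dir (d.s.2 - 1) ∉ fc d.K q := fun h =>
    heq (star1_sub_star ((Pg.mem_verts_iff t.hδ t.fine.gen hqK).2 (by rw [t.boxw]; exact h)) e_w)
  exact notMem_fc_near t.fine.gen t.kK t.good t.q0k hq t.c_q0 t.cd_q0 g1 g2 hx h1
    ((Pg.mem_verts_iff t.hδ t.fine.gen hqK).1 huq)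

lemma e_star : plab Z.α ∉ star Kv := by
  intro h
  obtain ⟨u, hu, h1⟩ := mem_star.1 h
  exact t.far (Or.inl rfl) t.e_v h1 hu

lemma w_Kv : vx Z.α ∉ Kv := t.far (Or.inl rfl) t.e_v e_w

lemma free : d.Free o δ Z Kv := by
  refine ⟨fun u hu => ?_, t.KR⟩
  by_contra h
  refine t.NF u (fun h1 => h (h1.trans ?_)) (Finset.mem_sdiff.1 (SD.R_sub hu)).1
  rw [t.succ.E]; exact erase_subset _ _

/-- the vertices between the tip and the region -/
noncomputable def _root_.Pool.Agent.H42.Q1.Vt (d : SD) (o : ℂ) (δ : ℝ) (v : ℤ × ℤ) :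
    Finset (ℤ × ℤ) := vB d.K o δ {box δ o d.K v, box δ o d.K v - dir (d.s.2 - 1)}

/-- the labels between the tip and the region -/
noncomputable def _root_.Pool.Agent.H42.Q1.τt (d : SD) (o : ℂ) (δ : ℝ) (Z : DEnv) (v : ℤ × ℤ) :
    Finset (ℤ × ℤ) := insert (plab Z.α) (kap (Vt d o δ v))

lemma mem_Vt {x : ℤ × ℤ} : x ∈ Vt d o δ v ↔
    box δ o d.K x = box δ o d.K v ∨ box δ o d.K x = box δ o d.K v - dir (d.s.2 - 1) := by
  unfold Vt
  rw [mem_vB t.hδ, mem_insert, mem_singleton]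

lemma cm_q0 : box δ o d.K v - dir (d.s.2 - 1) ∈ fc d.K q0 := by
  have h1 := t.c_q0
  have h2 := t.cd_q0
  rw [mem_fc] at h1 h2 ⊢
  have l1 := lo_hi (show 1 ≤ d.K - q0.1 by have := t.q0k; have := t.kK; omega) q0.2.1
  have l2 := lo_hi (show 1 ≤ d.K - q0.1 by have := t.q0k; have := t.kK; omega) q0.2.2
  generalize box δ o d.K v = c at h1 h2 ⊢
  obtain ⟨x, y⟩ := c
  rcases dir_cases (d.s.2 - 1) with ⟨-, e⟩ | ⟨-, e⟩ | ⟨-, e⟩ | ⟨-, e⟩ <;> rw [e] at h2 ⊢ <;>
    simp only [Prod.mk_add_mk, Prod.mk_sub_mk] at h1 h2 ⊢ <;> omega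

lemma Vt_sub : Vt d o δ v ⊆ verts δ o q0 := by
  intro x hx
  rw [Pg.mem_verts_iff t.hδ t.fine.gen (t.q0k.trans t.kK.le)]
  rcases t.mem_Vt.1 hx with h | h <;> rw [h]
  · exact t.c_q0
  · exact t.cm_q0

/-- vertices of the labels `τt` -/
lemma vl_τ {x : ℤ × ℤ} (hx : x = vx Z.α ∨ Vl (τt d o δ Z v) x) :
    box δ o d.K x = box δ o d.K v ∨ box δ o d.K x = box δ o d.K v + dir (d.s.2 - 1) ∨
      box δ o d.K x = box δ o d.K v - dir (d.s.2 - 1) := by
  rcases hx with rfl | ⟨l, hl, hlx⟩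
  · exact Or.inr (Or.inl t.boxw)
  · unfold τt at hl
    rcases mem_insert.1 hl with rfl | hl
    · have ho := odd_star1 t.e_v
      have h1 := (mem_star1_iff ho).1 t.e_v
      have h2 := (mem_star1_iff ho).1 e_w
      have hne : v ≠ vx Z.α := by
        rw [← t.vpv]
        intro h3
        have h4 := (pvf_step Z.α).1
        rw [← h3, sub_self] at h4
        unfold IsUnit4 at h4
        simp [Prod.ext_iff] at h4
      have h3 : x = v ∨ x = vx Z.α := by
        rcases h1 with h1 | h1 <;> rcases h2 with h2 | h2 <;> rcases hlx with h3 | h3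
        · exact absurd (h1.trans h2.symm) hne
        · exact absurd (h1.trans h2.symm) hne
        · exact Or.inl (h3.trans h1.symm)
        · exact Or.inr (h3.trans h2.symm)
        · exact Or.inr (h3.trans h2.symm)
        · exact Or.inl (h3.trans h1.symm)
        · exact absurd (h1.trans h2.symm) hne
        · exact absurd (h1.trans h2.symm) hne
      rcases h3 with rfl | rfl
      · exact Or.inl rfl
      · exact Or.inr (Or.inl t.boxw)
    · have ho : (l.1 + l.2) % 2 = 1 := by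
        have : l ∈ star (Vt d o δ v) := (mem_filter.1 hl).1
        exact odd_star this
      have h1 := (mem_kap_iff ho).1 hl
      have h2 : x ∈ Vt d o δ v := by
        rcases hlx with rfl | rfl
        · exact h1.1
        · exact h1.2
      rcases t.mem_Vt.1 h2 with h | h
      · exact Or.inl h
      · exact Or.inr (Or.inr h)

/-- **The ties after a step.** -/
theorem tied : ∃ τ A, Tied d o δ Y Z Kv τ A 2 ∧
    (∀ u, Vl τ u → NB 3 (box δ o d.K v) (box δ o d.K u)) ∧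
    ∀ e ∈ A, NB 3 (box δ o d.K v) (box δ o d.K (eu e)) ∧
      NB 3 (box δ o d.K v) (box δ o d.K (ev e)) := by
  classical
  have hδ := t.hδ
  have hm3 := t.fine.hm3
  have hl0 : 1 < d.ln o δ 0 := lt_of_lt_of_le (by norm_num) (SD.three_ln t.fine 0)
  obtain ⟨p1, p2, p3, p4, p5, p6⟩ := SD.tip_corner t.ok t.fine one_pos hl0
  rw [mul_one] at p1 p2 p3 p5 p6
  obtain ⟨b1, b2⟩ := SD.side_box' t.ok t.fine (n := 0) one_pos hl0
  have hsid : d.sid 0 = d.s := rfl
  rw [hsid] at b1 b2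
  set w' := d.pt' o δ 0 1 with hw'
  set u := w' + dir (d.s.2 - 1) with hu
  have hoc : d.oc' 0 = box δ o d.K v - dir (d.s.2 - 1) := t.out_eq
  rw [hoc] at b2
  have huV : u ∈ Vt d o δ v := t.mem_Vt.2 (Or.inr b2)
  have hvV : v ∈ Vt d o δ v := t.mem_Vt.2 (Or.inl rfl)
  have hF := t.free
  obtain ⟨f1, f2, f3⟩ := SD.G_free t.ok t.fine hF
  -- the path
  have hco : Co (τt d o δ Z v) (vx Z.α) u := by
    have h1 : Co (τt d o δ Z v) (vx Z.α) v := by
      obtain ⟨h2, h3⟩ := pvf_step Z.α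
      rw [← t.vpv]
      refine Relation.ReflTransGen.single ⟨unit_symm h2, ?_⟩
      rw [add_comm, h3]
      exact mem_insert_self _ _
    refine Co.trans (v := v) h1 ((co_kap_of_LP ?_ hvV).mono (subset_insert _ _))
    have h4 : LP {a | box δ o d.K a ∈ (({box δ o d.K v, box δ o d.K v - dir (d.s.2 - 1)} :
        Finset (ℤ × ℤ)) : Set (ℤ × ℤ))} v u := by
      refine LP.adj hδ (by simp) (by rw [b2]; simp) (Or.inr ?_)
      rw [b2]
      refine adj4_symm ⟨d.s.2 - 1, ?_⟩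
      rw [sub_add_cancel]
    refine LP.mono (fun x hx => ?_) h4
    have hx' : box δ o d.K x ∈ ({box δ o d.K v, box δ o d.K v - dir (d.s.2 - 1)} :
        Finset (ℤ × ℤ)) := by exact_mod_cast hx
    have : x ∈ Vt d o δ v := by unfold Vt; rw [mem_vB hδ]; exact hx'
    exact_mod_cast this
  have hconn : ∀ u ∈ Kv, ∀ w ∈ Kv, Co (kap Kv ∩ (Z.E ∪ Z.W)) u w := by
    intro u hu w hw
    rw [← kp_succ t.succ t.e_star]
    exact t.conn u hu w hw
  -- the label of the run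
  obtain ⟨n, hn1, hn2, hn3⟩ := t.run
  have hln : 1 < d.ln o δ n := lt_of_lt_of_le (by norm_num) (SD.three_ln t.fine n)
  have hperp := SD.perp_of_flat t.ok t.fine hF one_pos hln hn3
  have hends : ∃ x, (x = eu (d.ol o δ n 1) ∨ x = ev (d.ol o δ n 1)) ∧ Vl (d.G o δ) x := by
    refine ⟨d.pt' o δ n 1, ?_, ?_⟩
    · have e : d.ol o δ n 1 = d.pt' o δ n 1 + (d.pt' o δ n 1 + dir ((d.sid n).2 - 1)) :=
        outl_eq _ _
      have hu : IsUnit4 (d.pt' o δ n 1 + dir ((d.sid n).2 - 1) - d.pt' o δ n 1) := by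
        rw [add_sub_cancel_left]; exact isUnit4_dir _
      obtain ⟨-, h4⟩ := ends_add hu
      rw [e]
      rcases h4 with ⟨h4, -⟩ | ⟨-, h4⟩
      · exact Or.inl h4.symm
      · exact Or.inr h4.symm
    · rw [SD.vl_G t.ok t.fine, (SD.side_box' t.ok t.fine one_pos hln).1]
      exact (SD.isSide t.ok n).1
  have hwG : Vl (d.G o δ) w' := by
    rw [SD.vl_G t.ok t.fine, b1]
    exact (SD.isSide t.ok 0).1
  have hnG : ∀ x, (x = vx Z.α ∨ Vl (τt d o δ Z v) x) → ¬ Vl (d.G o δ) x := by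
    intro x hx h
    rw [SD.vl_G t.ok t.fine] at h
    have h1 := (Finset.mem_sdiff.1 (SD.R_sub h)).1
    rcases t.vl_τ hx with h2 | h2 | h2 <;> rw [h2] at h1
    · exact t.nP1 h1
    · exact t.nP2 h1
    · exact t.nP3 h1
  have hst : ∀ x, (x = vx Z.α ∨ Vl (τt d o δ Z v) x) → ∀ e ∈ star1 x, e ∉ star Kv := by
    intro x hx e he hK
    obtain ⟨y, hy, hy1⟩ := mem_star.1 hK
    exact t.far (t.vl_τ hx) he hy1 hy
  obtain ⟨a0, A, hc, h1, h2, h3⟩ := Pool.Agent.H14.NB.ctx_of_path t.inv t.odd t.w_Kv t.beta hconn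
    f1 f2 f3 (fun x y hx hy => SD.G_conn t.ok t.fine hx hy) hperp hends (τ1 := τt d o δ Z v)
    (by
      intro l hl
      unfold τt at hl
      rcases mem_insert.1 hl with rfl | hl
      · exact mem_union_left _ t.succ.mem
      · refine t.stay l (star_mono t.Vt_sub ?_)
        exact (mem_filter.1 hl).1)
    (fun x hx => hnG x (Or.inr hx)) (hnG _ (Or.inl rfl)) hst hco hwG
    (by rw [hu]; rw [show w' - (w' + dir (d.s.2 - 1)) = -dir (d.s.2 - 1) by abel]
        exact Pool.Agent.Q1.M3.Pg.isUnit4_neg (isUnit4_dir _))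
  -- the corner
  have hol : d.ol o δ 0 1 = u + w' := by
    have e : d.ol o δ 0 1 = w' + (w' + dir (d.s.2 - 1)) := outl_eq _ _
    rw [e, hu]; abel
  have ha0 : a0 = d.Cn o δ 2 := vx_plab_inj (by rw [h2, p6]) (by rw [h1, p3, hol])
  rw [ha0] at hc
  refine ⟨_, A, ⟨t.ok, t.fine, hF, hc, p1, p2, p5, t.invL, ?_, ?_, ?_, t.succ.β, ?_, t.run⟩, ?_, ?_⟩
  · intro l hl
    by_cases h : l = plab Z.α
    · rw [h]
      refine mem_union_right _ (mem_insert_of_mem ?_)
      exact mem_insert_self _ _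
    · refine mem_union_left _ ?_
      rw [t.succ.E, mem_erase]; exact ⟨h, hl⟩
  · intro z hz; exact wt_succ t.succ t.e_star hz
  · intro g hg; exact cl_succ t.succ hg
  · exact kp_succ t.succ t.e_star
  · rintro x ⟨l, hl, hlx⟩
    have hb : ∀ x : ℤ × ℤ, (box δ o d.K x = box δ o d.K v ∨
        box δ o d.K x = box δ o d.K v + dir (d.s.2 - 1) ∨
        box δ o d.K x = box δ o d.K v - dir (d.s.2 - 1)) →
        NB 1 (box δ o d.K v) (box δ o d.K x) := by
      intro x hx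
      rcases hx with h | h | h
      · rw [h]; exact NB.refl (by norm_num) _
      · rw [h]; exact NB.of_adj ⟨_, rfl⟩
      · rw [h]
        refine (NB.of_adj ⟨d.s.2 - 1, ?_⟩).symm
        rw [sub_add_cancel]
    rcases mem_insert.1 hl with rfl | hl
    · have hwu : IsUnit4 (w' - u) := by
        rw [hu, show w' - (w' + dir (d.s.2 - 1)) = -dir (d.s.2 - 1) by abel]
        exact Pool.Agent.Q1.M3.Pg.isUnit4_neg (isUnit4_dir _)
      have hxu : x = u ∨ x = w' := by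
        obtain ⟨-, h5⟩ := ends_add hwu
        rcases h5 with ⟨h5, h6⟩ | ⟨h5, h6⟩ <;> rcases hlx with h7 | h7
        · exact Or.inl (h7.trans h5)
        · exact Or.inr (h7.trans h6)
        · exact Or.inr (h7.trans h5)
        · exact Or.inl (h7.trans h6)
      rcases hxu with h | h
      · exact (hb x (Or.inr (Or.inr (by rw [h, b2])))).mono (by norm_num)
      · have h5 := hb u (Or.inr (Or.inr b2))
        have h6 := NB.box_step hδ hm3 t.fine.gen hwu
        rw [h]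
        exact (h5.trans h6).mono (by norm_num)
    · exact (hb x (t.vl_τ (Or.inr ⟨l, hl, hlx⟩))).mono (by norm_num)
  · intro e he
    obtain ⟨x, hx, hex⟩ := h3 e he
    have hb : NB 1 (box δ o d.K v) (box δ o d.K x) := by
      rcases t.vl_τ hx with h | h | h
      · rw [h]; exact NB.refl (by norm_num) _
      · rw [h]; exact NB.of_adj ⟨_, rfl⟩
      · rw [h]
        refine (NB.of_adj ⟨d.s.2 - 1, ?_⟩).symm
        rw [sub_add_cancel]
    have hs : ∀ y, e ∈ star1 y → NB 3 (box δ o d.K v) (box δ o d.K y) := by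
      intro y hy
      have h5 := box_nb hδ hm3 t.fine.gen hex hy
      have h6 : NB 1 (box δ o d.K x) (box δ o d.K y) := by
        rcases h5 with h | h
        · rw [h]; exact NB.refl (by norm_num) _
        · exact NB.of_adj h
      exact (hb.trans h6).mono (by norm_num)
    have ho := odd_star1 hex
    exact ⟨hs _ ((mem_star1_iff ho).2 (Or.inl rfl)), hs _ ((mem_star1_iff ho).2 (Or.inr rfl))⟩

end TipD

end

end Pool.Agent.H42.Q1
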