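import Pool.Agent.H42.Q1.TipS
import Pool.Agent.H21.Q1.TieX

set_option autoImplicit false
open Finset

/-! # Visible faces before and after one step of the exploration -/

namespace Pool.Agent.H42.Q1

open Pool.Agent.H75.Perc Pool.Agent.H75.TwoArm Pool.Agent.H75.Four Pool.Agent.H99.NC
open Pool.Agent.H69.Q1 Pool.Agent.H39.Q1 Pool.Agent.H28.Q1
open Pool.Agent.Q1.M3 hiding denv_ext fat_sub_cfat
open Pool.Agent.H21.Q1 (Mn kp kp_kap kp_EW)
open Pool.Agent.Q1.M3.Pg (Cf)
open Pool.Agent.H77.Q1 (lbf mem_du')
open Pool.Agent.H21.Q1 (cf_of_face)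

/-- **Faces visible from the closed side before the last label are visible after it.** `v` is an end of
the last label, all labels at `v` are free before, and `v` is not in the solid set. -/
theorem mn_succ {X Z : DEnv} (hs : Succ Z X) {K : Finset (ℤ × ℤ)} {v : ℤ × ℤ}
    (hv : plab Z.α ∈ star1 v) (hfree : star1 v ⊆ Z.E) (hvK : v ∉ K)
    (hkp : kap K ∩ (X.E ∪ X.W) = kap K ∩ (Z.E ∪ Z.W)) {g : ℤ × ℤ} (h : Mn Z K g) : Mn X K g := by
  obtain ⟨M, hM⟩ := h
  -- labels at `v` other than the last one
  have hfr : ∀ e ∈ star1 v, e ≠ plab Z.α → e ∉ kp X K ∪ X.W := by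
    intro e he hne
    have heX : e ∈ X.E := by
      rw [hs.E]; exact mem_erase.2 ⟨hne, hfree he⟩
    rw [mem_union, not_or]
    refine ⟨fun h => ?_, fun h => disjoint_left.1 X.disj heX h⟩
    have h1 := (mem_kap_iff (odd_star1 he)).1 (kp_kap h)
    rcases (mem_star1_iff (odd_star1 he)).1 he with h2 | h2
    · exact hvK (h2 ▸ h1.1)
    · exact hvK (h2 ▸ h1.2)
  induction hM with
  | refl => exact ⟨∅, by rw [← hs.β]; exact Co.refl _ _⟩
  | @tail g g' _ hgg ih =>
    obtain ⟨hu, hl⟩ := hgg
    rw [mem_du'] at hl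
    obtain ⟨-, hl⟩ := hl
    by_cases he : lbf g g' = plab Z.α
    · -- around `v`
      have hve : v = eu (lbf g g') ∨ v = ev (lbf g g') := by
        rw [he]
        rcases (mem_star1_iff (odd_star1 hv)).1 hv with h2 | h2
        · exact Or.inl h2
        · exact Or.inr h2
      have c1 := cf_of_face hu hve
      have hc2 : v = eu (lbf g' g) ∨ v = ev (lbf g' g) := by
        rw [show lbf g' g = lbf g g' from by unfold lbf; abel]; exact hve
      have hu' : IsUnit4 (g - g') := by
        unfold IsUnit4 at hu ⊢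
        rw [Prod.ext_iff, Prod.ext_iff, Prod.ext_iff, Prod.ext_iff] at hu ⊢
        simp only [Prod.fst_sub, Prod.snd_sub] at hu ⊢
        omega
      have c2 := cf_of_face hu' hc2
      rw [← he] at hfr hv
      clear hve hc2 hu'
      obtain ⟨a, b⟩ := v
      obtain ⟨x, y⟩ := g
      obtain ⟨x', y'⟩ := g'
      unfold Cf at c1 c2
      simp only at c1 c2
      have hst : ∀ p q : ℤ × ℤ, IsUnit4 (q - p) → lbf p q ∈ star1 (a, b) →
          lbf p q ≠ lbf (x, y) (x', y') → Mn X K p → Mn X K q := fun p q h1 h2 h3 h4 =>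
        h4.step h1 (hfr _ h2 h3)
      unfold IsUnit4 at hu
      rw [Prod.ext_iff, Prod.ext_iff, Prod.ext_iff, Prod.ext_iff] at hu
      simp only [Prod.fst_sub, Prod.snd_sub] at hu
      have hgo : ∀ p q : ℤ × ℤ, ((q.1 = p.1 ∧ (q.2 = p.2 + 1 ∨ q.2 = p.2 - 1)) ∨
          (q.2 = p.2 ∧ (q.1 = p.1 + 1 ∨ q.1 = p.1 - 1))) →
          (p.1 = a ∨ p.1 = a + 1) → (p.2 = b ∨ p.2 = b + 1) →
          (q.1 = a ∨ q.1 = a + 1) → (q.2 = b ∨ q.2 = b + 1) →
          ¬ (p.1 + q.1 = x + x' ∧ p.2 + q.2 = y + y') → Mn X K p → Mn X K q := by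
        rintro ⟨p1, p2⟩ ⟨q1, q2⟩ h1 h2 h3 h4 h5 h6 h7
        simp only at h1 h2 h3 h4 h5 h6
        refine hst _ _ ?_ ?_ ?_ h7
        · unfold IsUnit4
          rw [Prod.ext_iff, Prod.ext_iff, Prod.ext_iff, Prod.ext_iff]
          simp only [Prod.fst_sub, Prod.snd_sub]
          omega
        · unfold lbf star1
          simp only [mem_insert, mem_singleton, Prod.mk_add_mk, Prod.mk_sub_mk, Prod.mk.injEq]
          omega
        · unfold lbf
          simp only [Prod.mk_add_mk, Prod.mk_sub_mk, ne_eq, Prod.mk.injEq]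
          omega
      rcases (by omega : x' = x ∨ y' = y) with h | h
      · -- over the other column
        have s1 := hgo (x, y) (2 * a + 1 - x, y) (Or.inr ⟨rfl, by simp only; omega⟩)
          (by simp only; omega) (by simp only; omega) (by simp only; omega) (by simp only; omega)
          (by simp only; omega) ih
        have s2 := hgo (2 * a + 1 - x, y) (2 * a + 1 - x, y') (Or.inl ⟨rfl, by simp only; omega⟩)
          (by simp only; omega) (by simp only; omega) (by simp only; omega) (by simp only; omega)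
          (by simp only; omega) s1
        exact hgo (2 * a + 1 - x, y') (x', y') (Or.inr ⟨rfl, by simp only; omega⟩)
          (by simp only; omega) (by simp only; omega) (by simp only; omega) (by simp only; omega)
          (by simp only; omega) s2
      · have s1 := hgo (x, y) (x, 2 * b + 1 - y) (Or.inl ⟨rfl, by simp only; omega⟩)
          (by simp only; omega) (by simp only; omega) (by simp only; omega) (by simp only; omega)
          (by simp only; omega) ih
        have s2 := hgo (x, 2 * b + 1 - y) (x', 2 * b + 1 - y) (Or.inr ⟨rfl, by simp only; omega⟩)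
          (by simp only; omega) (by simp only; omega) (by simp only; omega) (by simp only; omega)
          (by simp only; omega) s1
        exact hgo (x', 2 * b + 1 - y) (x', y') (Or.inl ⟨rfl, by simp only; omega⟩)
          (by simp only; omega) (by simp only; omega) (by simp only; omega) (by simp only; omega)
          (by simp only; omega) s2
    · refine ih.step hu ?_
      rw [mem_union, not_or] at hl ⊢
      refine ⟨fun h => hl.1 ?_, fun h => ?_⟩
      · unfold kp at h ⊢
        rw [← hkp]; exact h
      · rcases hs.st with ⟨h1, -⟩ | ⟨h1, -⟩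
        · rw [h1, mem_insert] at h
          exact h.elim he hl.2
        · rw [h1] at h; exact hl.2 h

end Pool.Agent.H42.Q1
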